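import Pool.Agent.Lib.MP_17a322_nt.RO.A1

/-!
The approximate parallelogram law; exact quadratic functions at bounded distance.
-/

namespace Pool.Agent.Lib.MP_17a322_nt.RO

open MvPolynomial WeierstrassCurve Height

/-- Approximate parallelogram law. Proof. Combine `addSub_sym2x`,
`WeierstrassCurve.abs_logHeight_addSubMap_sub_two_mul_logHeight_le` (at `x = P.sym2x Q`),
`Height.logHeight_smul_eq_logHeight` and `Height.abs_logHeight_sym2_sub_le` (for `P, Q` and for
`P + Q, P - Q`; `Point.sym2x` unfolds to the vector in that lemma). -/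
theorem parallelogram {K : Type*} [Field K] [DecidableEq K] [AdmissibleAbsValues K]
    (W : WeierstrassCurve K) [W.IsElliptic] :
    ∃ C : ℝ, ∀ P Q : W.toAffine.Point,
      |logHeight (P + Q).xRep + logHeight (P - Q).xRep
        - 2 * logHeight P.xRep - 2 * logHeight Q.xRep| ≤ C := by
  obtain ⟨C1, hC1⟩ := abs_logHeight_addSubMap_sub_two_mul_logHeight_le W
  obtain ⟨C2, hC2⟩ := abs_logHeight_sym2_sub_le K
  have h2 : ∀ P Q : W.toAffine.Point,
      |logHeight (P.sym2x Q) - (logHeight P.xRep + logHeight Q.xRep)| ≤ C2 := by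
    intro P Q
    have e : ∀ v : Fin 2 → K, ![v 0, v 1] = v := by
      intro v
      funext i
      fin_cases i <;> rfl
    have h := hC2 (a := P.xRep 0) (b := P.xRep 1) (c := Q.xRep 0) (d := Q.xRep 1)
      (by rw [e]; exact P.xRep_ne_zero) (by rw [e]; exact Q.xRep_ne_zero)
    rw [e, e] at h
    exact h
  refine ⟨C1 + 3 * C2, fun P Q => ?_⟩
  obtain ⟨c, hc0, hc⟩ := addSub_sym2x W P Q
  have h3 : (fun i => eval (P.sym2x Q) (addSubMap W i)) = c • ((P + Q).sym2x (P - Q)) := by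
    funext i
    rw [hc i]
    rfl
  have h4 := hC1 (P.sym2x Q)
  rw [h3, logHeight_smul_eq_logHeight _ hc0] at h4
  have h5 := h2 P Q
  have h6 := h2 (P + Q) (P - Q)
  rw [abs_le] at *
  constructor <;> linarith [h4.1, h4.2, h5.1, h5.2, h6.1, h6.2]

/-- Abstract Tate limit. If `h : G → ℝ` is bounded below and satisfies the parallelogram law up to a
constant, there is an exact solution `q` at bounded distance.
Proof. `q P = lim h (2^n P) / 4^n`. From the law with `P = Q`: `|h(2P) - 4 h(P)| ≤ C + |h 0| = C'`,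
so `|h(2^(n+1)P)/4^(n+1) - h(2^n P)/4^n| ≤ C'/4^(n+1)`; the sequence is Cauchy, `|q - h| ≤ C'/3`, and
the law for `2^n P, 2^n Q` divided by `4^n` gives the exact law. `q ≥ 0` because `h` is bounded
below. -/
theorem exists_quadratic {G : Type*} [AddCommGroup G] (h : G → ℝ) (hb : ∃ b : ℝ, ∀ P, b ≤ h P)
    (C : ℝ) (hC : ∀ P Q : G, |h (P + Q) + h (P - Q) - 2 * h P - 2 * h Q| ≤ C) :
    ∃ (q : G → ℝ) (C' : ℝ), (∀ P, |q P - h P| ≤ C') ∧ (∀ P, 0 ≤ q P) ∧
      ∀ P Q, q (P + Q) + q (P - Q) = 2 * q P + 2 * q Q := by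
  obtain ⟨b, hb⟩ := hb
  have h2 : ∀ P : G, |h (2 • P) - 4 * h P| ≤ C + |h 0| := by
    intro P
    have h3 := hC P P
    rw [sub_self, ← two_nsmul] at h3
    have h4 := abs_le.1 h3
    have h5 := neg_abs_le (h 0)
    have h6 := le_abs_self (h 0)
    rw [abs_le]
    constructor <;> linarith [h4.1, h4.2]
  set C' := C + |h 0| with hC'
  have hd : ∀ (P : G) (n : ℕ), dist (h (2 ^ n • P) / 4 ^ n) (h (2 ^ (n + 1) • P) / 4 ^ (n + 1)) ≤
      C' / 4 * (1 / 4 : ℝ) ^ n := by
    intro P n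
    have h3 := h2 (2 ^ n • P)
    rw [smul_smul, ← pow_succ'] at h3
    have h4 : (0 : ℝ) < 4 ^ n := by positivity
    have h5 : h (2 ^ n • P) / 4 ^ n - h (2 ^ (n + 1) • P) / 4 ^ (n + 1) =
        -(h (2 ^ (n + 1) • P) - 4 * h (2 ^ n • P)) / 4 ^ (n + 1) := by
      rw [pow_succ (4 : ℝ) n]
      field_simp
      ring
    rw [Real.dist_eq, h5, abs_div, abs_neg, abs_of_pos (show (0 : ℝ) < 4 ^ (n + 1) by positivity)]
    have h6 : C' / 4 * (1 / 4 : ℝ) ^ n = C' / 4 ^ (n + 1) := by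
      rw [pow_succ, one_div, inv_pow]
      field_simp
    rw [h6]
    exact div_le_div_of_nonneg_right h3 (by positivity)
  have hlim : ∀ P : G, ∃ a : ℝ, Filter.Tendsto (fun n : ℕ => h (2 ^ n • P) / 4 ^ n)
      Filter.atTop (nhds a) := fun P =>
    cauchySeq_tendsto_of_complete (cauchySeq_of_le_geometric (1 / 4) (C' / 4) (by norm_num) (hd P))
  choose q hq using hlim
  refine ⟨q, C' / 4 / (1 - 1 / 4), fun P => ?_, fun P => ?_, fun P Q => ?_⟩
  · have h3 := dist_le_of_le_geometric_of_tendsto₀ (1 / 4) (C' / 4) (by norm_num) (hd P) (hq P)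
    simp only [pow_zero, one_smul, div_one] at h3
    rw [dist_comm, Real.dist_eq] at h3
    exact h3
  · have h3 : Filter.Tendsto (fun n : ℕ => b * (1 / 4 : ℝ) ^ n) Filter.atTop (nhds (b * 0)) :=
      (tendsto_pow_atTop_nhds_zero_of_lt_one (by norm_num) (by norm_num)).const_mul b
    rw [mul_zero] at h3
    refine le_of_tendsto_of_tendsto' h3 (hq P) fun n => ?_
    have h4 : b * (1 / 4 : ℝ) ^ n = b / 4 ^ n := by
      rw [one_div, inv_pow]
      rfl
    rw [h4]
    exact div_le_div_of_nonneg_right (hb _) (by positivity)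
  · have h3 : Filter.Tendsto (fun n : ℕ => h (2 ^ n • (P + Q)) / 4 ^ n +
        h (2 ^ n • (P - Q)) / 4 ^ n - 2 * (h (2 ^ n • P) / 4 ^ n) - 2 * (h (2 ^ n • Q) / 4 ^ n))
        Filter.atTop (nhds (q (P + Q) + q (P - Q) - 2 * q P - 2 * q Q)) :=
      (((hq (P + Q)).add (hq (P - Q))).sub ((hq P).const_mul 2)).sub ((hq Q).const_mul 2)
    have h4 : Filter.Tendsto (fun n : ℕ => C * (1 / 4 : ℝ) ^ n) Filter.atTop (nhds (C * 0)) :=
      (tendsto_pow_atTop_nhds_zero_of_lt_one (by norm_num) (by norm_num)).const_mul C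
    rw [mul_zero] at h4
    have h5 : Filter.Tendsto (fun n : ℕ => h (2 ^ n • (P + Q)) / 4 ^ n +
        h (2 ^ n • (P - Q)) / 4 ^ n - 2 * (h (2 ^ n • P) / 4 ^ n) - 2 * (h (2 ^ n • Q) / 4 ^ n))
        Filter.atTop (nhds 0) := by
      refine squeeze_zero_norm (fun n => ?_) h4
      have h6 := hC (2 ^ n • P) (2 ^ n • Q)
      rw [← smul_add, ← smul_sub] at h6
      have h7 : h (2 ^ n • (P + Q)) / 4 ^ n +
          h (2 ^ n • (P - Q)) / 4 ^ n - 2 * (h (2 ^ n • P) / 4 ^ n) - 2 * (h (2 ^ n • Q) / 4 ^ n)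
          = (h (2 ^ n • (P + Q)) + h (2 ^ n • (P - Q)) - 2 * h (2 ^ n • P) - 2 * h (2 ^ n • Q)) /
            4 ^ n := by
        ring
      have h8 : C * (1 / 4 : ℝ) ^ n = C / 4 ^ n := by
        rw [one_div, inv_pow]
        rfl
      rw [h7, h8, Real.norm_eq_abs, abs_div, abs_of_pos (show (0 : ℝ) < 4 ^ n by positivity)]
      exact div_le_div_of_nonneg_right h6 (by positivity)
    have h6 := tendsto_nhds_unique h3 h5
    linarith

/-- Exact parallelogram law implies `q (m • P) = m ^ 2 * q P`. -/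
theorem quadratic_zsmul {G : Type*} [AddCommGroup G] (q : G → ℝ)
    (hq : ∀ P Q, q (P + Q) + q (P - Q) = 2 * q P + 2 * q Q) (P : G) (m : ℤ) :
    q (m • P) = (m : ℝ) ^ 2 * q P := by
  have h0 : q 0 = 0 := by
    have h1 := hq 0 0
    rw [add_zero, sub_zero] at h1
    linarith
  have hneg : ∀ P, q (-P) = q P := by
    intro P
    have h1 := hq 0 P
    rw [zero_add, zero_sub] at h1
    linarith
  have hn : ∀ n : ℕ, q (n • P) = (n : ℝ) ^ 2 * q P ∧ q ((n + 1) • P) = ((n : ℝ) + 1) ^ 2 * q P := by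
    intro n
    induction n with
    | zero =>
      refine ⟨?_, ?_⟩
      · rw [zero_smul, h0]
        simp
      · simp
    | succ n ih =>
      refine ⟨?_, ?_⟩
      · rw [ih.2]
        push_cast
        ring
      · have h1 := hq ((n + 1) • P) P
        have h2 : (n + 1) • P - P = n • P := by
          rw [succ_nsmul, add_sub_cancel_right]
        have h3 : (n + 1) • P + P = (n + 1 + 1) • P := (succ_nsmul P (n + 1)).symm
        rw [h2, h3, ih.1, ih.2] at h1
        push_cast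
        linarith
  rcases Int.eq_nat_or_neg m with ⟨n, rfl | rfl⟩
  · rw [natCast_zsmul, (hn n).1]
    push_cast
    ring
  · rw [neg_smul, natCast_zsmul, hneg, (hn n).1]
    push_cast
    ring

end Pool.Agent.Lib.MP_17a322_nt.RO
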