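import Pool.Agent.Lib.MP_17a322_nt.RO.Defs

/-!
The map addSubMap of Mathlib computes x(P+Q), x(P-Q) from x(P), x(Q).
-/

namespace Pool.Agent.Lib.MP_17a322_nt.RO

open MvPolynomial WeierstrassCurve

theorem A1_eval0 {F : Type*} [Field F] (W : WeierstrassCurve F) (v : Fin 3 → F) :
    eval v (addSubMap W 0) = v 0 ^ 2 - W.b₄ * v 0 * v 2 - W.b₆ * v 1 * v 2 - W.b₈ * v 2 ^ 2 := by
  simp [addSubMap]

theorem A1_eval1 {F : Type*} [Field F] (W : WeierstrassCurve F) (v : Fin 3 → F) :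
    eval v (addSubMap W 1) = 2 * v 1 * v 0 + W.b₂ * v 0 * v 2 + W.b₄ * v 1 * v 2 +
      W.b₆ * v 2 ^ 2 := by
  simp [addSubMap]

theorem A1_eval2 {F : Type*} [Field F] (W : WeierstrassCurve F) (v : Fin 3 → F) :
    eval v (addSubMap W 2) = v 1 ^ 2 - 4 * v 0 * v 2 := by
  simp [addSubMap]

theorem A1_vec {F : Type*} [Field F] (W : WeierstrassCurve F) (v w : Fin 3 → F) (c : F)
    (h0 : v 0 ^ 2 - W.b₄ * v 0 * v 2 - W.b₆ * v 1 * v 2 - W.b₈ * v 2 ^ 2 = c * w 0)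
    (h1 : 2 * v 1 * v 0 + W.b₂ * v 0 * v 2 + W.b₄ * v 1 * v 2 + W.b₆ * v 2 ^ 2 = c * w 1)
    (h2 : v 1 ^ 2 - 4 * v 0 * v 2 = c * w 2) :
    ∀ i, eval v (addSubMap W i) = c * w i := by
  intro i
  fin_cases i
  · exact (A1_eval0 W v).trans h0
  · exact (A1_eval1 W v).trans h1
  · exact (A1_eval2 W v).trans h2

/-- the case of equal points -/
theorem A1_self {F : Type*} [Field F] [DecidableEq F] (W : WeierstrassCurve F)
    (P : W.toAffine.Point) :
    ∃ c : F, ∀ i, eval (P.sym2x P) (addSubMap W i) =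
      c * ((P + P).sym2x (0 : W.toAffine.Point)) i := by
  rcases P with _ | ⟨x, y, h⟩
  · rw [← Affine.Point.zero_def, add_zero, Affine.Point.sym2x_zero_zero]
    refine ⟨1, A1_vec W _ _ _ ?_ ?_ ?_⟩ <;> simp
  · have hN : y ^ 2 + W.a₁ * x * y + W.a₃ * y = x ^ 3 + W.a₂ * x ^ 2 + W.a₄ * x + W.a₆ :=
      (Affine.equation_iff _ _).1 h.1
    rw [Affine.Point.sym2x_some_some]
    by_cases hy : y = W.toAffine.negY x y
    · rw [Affine.Point.add_self_of_Y_eq hy, Affine.Point.sym2x_zero_zero]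
      have hz : 2 * y + W.a₁ * x + W.a₃ = 0 := by
        unfold Affine.negY at hy
        linear_combination hy
      refine ⟨x ^ 4 - W.b₄ * x ^ 2 - 2 * W.b₆ * x - W.b₈, A1_vec W _ _ _ ?_ ?_ ?_⟩
      · simp
        ring
      · simp [b₂, b₄, b₆]
        linear_combination (2 * y + W.a₁ * x + W.a₃) * hz - 4 * hN
      · simp
        ring
    · rw [Affine.Point.add_self_of_Y_ne hy, Affine.Point.sym2x_some_zero]
      have hz : 2 * y + W.a₁ * x + W.a₃ ≠ 0 := by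
        intro h0
        apply hy
        unfold Affine.negY
        linear_combination h0
      have hs : W.toAffine.slope x x y y * (2 * y + W.a₁ * x + W.a₃) =
          3 * x ^ 2 + 2 * W.a₂ * x + W.a₄ - W.a₁ * y := by
        rw [Affine.slope_of_Y_ne rfl hy]
        have : y - W.toAffine.negY x y = 2 * y + W.a₁ * x + W.a₃ := by
          unfold Affine.negY
          ring
        rw [this]
        exact div_mul_cancel₀ _ hz
      set ℓ := W.toAffine.slope x x y y with hℓ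
      refine ⟨(2 * y + W.a₁ * x + W.a₃) ^ 2, A1_vec W _ _ _ ?_ ?_ ?_⟩
      · simp [b₄, b₆, b₈, Affine.addX]
        linear_combination (W.a₁ ^ 2 + 4 * (W.a₂ + 2 * x)) * hN -
          (ℓ * (2 * y + W.a₁ * x + W.a₃) + (3 * x ^ 2 + 2 * W.a₂ * x + W.a₄ - W.a₁ * y) +
            W.a₁ * (2 * y + W.a₁ * x + W.a₃)) * hs
      · simp [b₂, b₄, b₆]
        linear_combination -4 * hN
      · simp
        ring

theorem A1_exists {F : Type*} [Field F] [DecidableEq F] (W : WeierstrassCurve F)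
    (P Q : W.toAffine.Point) :
    ∃ c : F, ∀ i, eval (P.sym2x Q) (addSubMap W i) = c * ((P + Q).sym2x (P - Q)) i := by
  by_cases hPQ : P = Q
  · subst hPQ
    rw [sub_self]
    exact A1_self W P
  by_cases hPQ' : P = -Q
  · subst hPQ'
    obtain ⟨c, hc⟩ := A1_self W Q
    refine ⟨c, ?_⟩
    have h1 : (-Q + Q).sym2x (-Q - Q) = (Q + Q).sym2x (0 : W.toAffine.Point) := by
      rw [neg_add_cancel, show -Q - Q = -(Q + Q) by abel, Affine.Point.sym2x_neg_right,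
        Affine.Point.sym2x_comm]
    rw [h1, Affine.Point.sym2x_neg_left]
    exact hc
  rcases P with _ | ⟨x1, y1, h1⟩
  · rw [← Affine.Point.zero_def, zero_add, zero_sub, Affine.Point.sym2x_neg_right]
    rcases Q with _ | ⟨x, y, h⟩
    · exact absurd rfl hPQ
    · rw [Affine.Point.sym2x_zero_some, Affine.Point.sym2x_some_some]
      refine ⟨1, A1_vec W _ _ _ ?_ ?_ ?_⟩
      · simp
        ring
      · simp
        ring
      · simp
  rcases Q with _ | ⟨x2, y2, h2⟩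
  · rw [← Affine.Point.zero_def, add_zero, sub_zero, Affine.Point.sym2x_some_zero,
      Affine.Point.sym2x_some_some]
    refine ⟨1, A1_vec W _ _ _ ?_ ?_ ?_⟩
    · simp
      ring
    · simp
      ring
    · simp
  have hx : x1 ≠ x2 := by
    intro hx
    rcases Affine.Point.X_eq_iff.1 hx with h | h
    · exact hPQ h
    · exact hPQ' h
  have hd : x1 - x2 ≠ 0 := sub_ne_zero.2 hx
  rw [sub_eq_add_neg, Affine.Point.neg_some, Affine.Point.add_of_X_ne hx,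
    Affine.Point.add_of_X_ne hx, Affine.Point.sym2x_some_some, Affine.Point.sym2x_some_some]
  have hN1 : y1 ^ 2 + W.a₁ * x1 * y1 + W.a₃ * y1 = x1 ^ 3 + W.a₂ * x1 ^ 2 + W.a₄ * x1 + W.a₆ :=
    (Affine.equation_iff _ _).1 h1.1
  have hN2 : y2 ^ 2 + W.a₁ * x2 * y2 + W.a₃ * y2 = x2 ^ 3 + W.a₂ * x2 ^ 2 + W.a₄ * x2 + W.a₆ :=
    (Affine.equation_iff _ _).1 h2.1
  have hs1 : W.toAffine.slope x1 x2 y1 y2 * (x1 - x2) = y1 - y2 := by
    rw [Affine.slope_of_X_ne hx]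
    field_simp
  have hs2 : W.toAffine.slope x1 x2 y1 (W.toAffine.negY x2 y2) * (x1 - x2) =
      y1 + y2 + W.a₁ * x2 + W.a₃ := by
    rw [Affine.slope_of_X_ne hx]
    unfold Affine.negY
    field_simp
    ring
  set ℓ := W.toAffine.slope x1 x2 y1 y2 with hℓ
  set m := W.toAffine.slope x1 x2 y1 (W.toAffine.negY x2 y2) with hm
  have e1 : (x1 - x2) ^ 2 * W.toAffine.addX x1 x2 ℓ =
      (y1 - y2) ^ 2 + W.a₁ * (y1 - y2) * (x1 - x2) - (W.a₂ + x1 + x2) * (x1 - x2) ^ 2 := by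
    unfold Affine.addX
    linear_combination (ℓ * (x1 - x2) + (y1 - y2) + W.a₁ * (x1 - x2)) * hs1
  have e2 : (x1 - x2) ^ 2 * W.toAffine.addX x1 x2 m =
      (y1 + y2 + W.a₁ * x2 + W.a₃) ^ 2 + W.a₁ * (y1 + y2 + W.a₁ * x2 + W.a₃) * (x1 - x2)
        - (W.a₂ + x1 + x2) * (x1 - x2) ^ 2 := by
    unfold Affine.addX
    linear_combination (m * (x1 - x2) + (y1 + y2 + W.a₁ * x2 + W.a₃) + W.a₁ * (x1 - x2)) * hs2
  have e3 : ((x1 - x2) ^ 2 * W.toAffine.addX x1 x2 ℓ) * ((x1 - x2) ^ 2 * W.toAffine.addX x1 x2 m)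
      = (x1 - x2) ^ 2 * ((x1 * x2) ^ 2 - W.b₄ * (x1 * x2) - W.b₆ * (x1 + x2) - W.b₈) := by
    rw [e1, e2]
    simp only [b₄, b₆, b₈]
    linear_combination ((y1 ^ 2 + W.a₁ * x1 * y1 + W.a₃ * y1) +
        (x1 ^ 3 + W.a₂ * x1 ^ 2 + W.a₄ * x1 + W.a₆)
        - 2 * (y2 ^ 2 + W.a₁ * x2 * y2 + W.a₃ * y2) - 2 * (W.a₂ + x1 + x2) * (x1 - x2) ^ 2
        + (W.a₁ * x1 + W.a₃) * (W.a₁ * x2 + W.a₃) - (W.a₁ * x2 + W.a₃) ^ 2) * hN1 +
      ((y2 ^ 2 + W.a₁ * x2 * y2 + W.a₃ * y2) + (x2 ^ 3 + W.a₂ * x2 ^ 2 + W.a₄ * x2 + W.a₆)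
        - 2 * (x1 ^ 3 + W.a₂ * x1 ^ 2 + W.a₄ * x1 + W.a₆) -
        2 * (W.a₂ + x1 + x2) * (x1 - x2) ^ 2
        + (W.a₁ * x1 + W.a₃) * (W.a₁ * x2 + W.a₃) - (W.a₁ * x1 + W.a₃) ^ 2) * hN2
  refine ⟨(x1 - x2) ^ 2, A1_vec W _ _ _ ?_ ?_ ?_⟩
  · have e4 : (x1 * x2) ^ 2 - W.b₄ * (x1 * x2) - W.b₆ * (x1 + x2) - W.b₈ =
        (x1 - x2) ^ 2 * (W.toAffine.addX x1 x2 ℓ * W.toAffine.addX x1 x2 m) := by
      apply mul_left_cancel₀ (pow_ne_zero 2 hd)
      rw [← e3]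
      ring
    simpa using e4
  · have e5 : 2 * (x1 + x2) * (x1 * x2) + W.b₂ * (x1 * x2) + W.b₄ * (x1 + x2) + W.b₆ =
        (x1 - x2) ^ 2 * (W.toAffine.addX x1 x2 ℓ + W.toAffine.addX x1 x2 m) := by
      rw [mul_add ((x1 - x2) ^ 2), e1, e2]
      simp only [b₂, b₄, b₆]
      linear_combination -2 * hN1 - 2 * hN2
    simpa using e5
  · simp
    ring

/-- On points `P`, `Q` of an elliptic curve over a field the polynomials `addSubMap W`, evaluated at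
the symmetric square of the `x`-coordinates of `P` and `Q`, give a nonzero multiple of the
symmetric square of the `x`-coordinates of `P + Q` and `P - Q`.

Proof. The left side is a nonzero vector by `addSubMap_ne_zero` and `Point.sym2x_ne_zero`, so it is
enough to find `c` (then `c ≠ 0` is automatic). Cases.
`P = 0`: `sym2x 0 Q`, `P + Q = Q`, `P - Q = -Q`; with `Q = (x, y)`: the vector is
`s = x, t = 1, u = 0`, `addSubMap = (x^2, 2x, 1) = sym2x Q (-Q)`, `c = 1`; `Q = 0`: `(1,0,0)`.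
`Q = 0`: the same.
`P = (x1, y1)`, `Q = (x2, y2)` with `x1 ≠ x2`: `c = (x1 - x2)^2`; `P + Q` and `P - Q = P + (-Q)` are
given by `Point.add_some`, `slope_of_X_ne`, `addX`; the three identities follow from the two curve
equations by `field_simp` and `linear_combination` (the third is `(x1+x2)^2 - 4 x1 x2 =
(x1-x2)^2`).
`x1 = x2` and `Q = P`, `P ≠ -P`: `P - Q = 0`, `P + Q = 2P`, `sym2x = (x(2P), 1, 0)`, the vector is
`(x^4 - b4 x^2 - 2 b6 x - b8, 4 x^3 + b2 x^2 + 2 b4 x + b6, 0)` and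
`4 x^3 + b2 x^2 + 2 b4 x + b6 = (2y + a1 x + a3)^2` (`slope_of_Y_ne`), `c = (2y + a1 x + a3)^2`.
`Q = -P`, `P ≠ -P`: the same with `P + Q = 0`. `P = Q = -P`: both `P + Q` and `P - Q` are `0`,
`sym2x 0 0 = (1, 0, 0)` and the last two entries of the vector vanish. -/
theorem addSub_sym2x {F : Type*} [Field F] [DecidableEq F] (W : WeierstrassCurve F)
    [W.IsElliptic] (P Q : W.toAffine.Point) :
    ∃ c : F, c ≠ 0 ∧ ∀ i, eval (P.sym2x Q) (addSubMap W i) = c * ((P + Q).sym2x (P - Q)) i := by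
  obtain ⟨c, hc⟩ := A1_exists W P Q
  refine ⟨c, ?_, hc⟩
  rintro rfl
  apply addSubMap_ne_zero W (Affine.Point.sym2x_ne_zero P Q)
  funext i
  rw [hc i, zero_mul, Pi.zero_apply]

end Pool.Agent.Lib.MP_17a322_nt.RO
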