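import Pool.Agent.Lib.MP_17a322_nt.RO.B2

/-!
The three forms giving the symmetric square of x(l Q + q), x(l Q - q).
-/

namespace Pool.Agent.Lib.MP_17a322_nt.RO

open MvPolynomial WeierstrassCurve

universe u

/-- Substituting weighted homogeneous elements in a homogeneous polynomial. -/
theorem D2_aeval_wh {K σ τ M : Type*} [CommRing K] [AddCommMonoid M] [Fintype σ] (w : τ → M) (n : ℕ)
    (p : MvPolynomial σ K) (hp : p.IsHomogeneous n) (v : σ → MvPolynomial τ K) (m : M)
    (hv : ∀ j, IsWeightedHomogeneous w (v j) m) :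
    IsWeightedHomogeneous w (aeval v p) (n • m) := by
  classical
  rw [aeval_def, eval₂_eq']
  refine IsWeightedHomogeneous.sum _ _ _ fun d hd => ?_
  have h1 : IsWeightedHomogeneous w (∏ j : σ, v j ^ d j) (∑ j : σ, d j • m) :=
    IsWeightedHomogeneous.prod _ _ _ fun j _ => (hv j).pow (d j)
  have h2 : (∑ j : σ, d j • m) = n • m := by
    rw [← Finset.sum_smul]
    have h3 := hp (mem_support_iff.mp hd)
    rw [Finsupp.weight_apply, Finsupp.sum_fintype _ _ (by simp)] at h3
    rw [← h3]
    simp
  rw [h2] at h1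
  have h3 : (algebraMap K (MvPolynomial τ K)) (coeff d p) = C (coeff d p) := rfl
  rw [h3]
  exact h1.C_mul _

/-- Scaling a homogeneous polynomial. -/
theorem D2_aeval_smul {K A σ : Type*} [CommRing K] [CommRing A] [Algebra K A] [Fintype σ] (n : ℕ)
    (p : MvPolynomial σ K) (hp : p.IsHomogeneous n) (c : A) (v : σ → A) :
    aeval (fun j => c * v j) p = c ^ n * aeval v p := by
  classical
  rw [aeval_def, aeval_def, eval₂_eq', eval₂_eq', Finset.mul_sum]
  refine Finset.sum_congr rfl fun d hd => ?_
  have h3 := hp (mem_support_iff.mp hd)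
  rw [Finsupp.weight_apply, Finsupp.sum_fintype _ _ (by simp)] at h3
  have h4 : ∑ j, d j = n := by rw [← h3]; simp
  simp only [mul_pow, Finset.prod_mul_distrib]
  rw [Finset.prod_pow_eq_pow_sum, h4]
  ring

/-- `addSubMap` and base change. -/
theorem D2_addSubMap_map {K F : Type*} [Field K] [Field F] [Algebra K F] (W : WeierstrassCurve K)
    (v : Fin 3 → F) (i : Fin 3) :
    aeval v (addSubMap W i) = eval v (addSubMap (W.map (algebraMap K F)) i) := by
  fin_cases i
  · simp [addSubMap]
  · simp only [addSubMap, Fin.mk_one, Fin.isValue, Matrix.cons_val_one, Matrix.cons_val_zero,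
      map_add, map_mul, aeval_X, map_pow, eval_X, eval_C, aeval_C, map_ofNat,
      WeierstrassCurve.map_b₂, WeierstrassCurve.map_b₄, WeierstrassCurve.map_b₆]
  · simp only [addSubMap, Fin.reduceFinMk, Fin.isValue, Matrix.cons_val, map_sub, map_pow,
      aeval_X, map_mul, aeval_C, eval_X, eval_C, map_ofNat]

/-- The three forms `S_{ℓ} i (u, w_b)`, `i = 0, 1, 2`: `addSubMap` at the symmetric square of
`M_{|ℓ|}(u)` and `w_b`. They have degree `2 ℓ^2` in `u` and `2` in block `b`, and at
`u = x(Q)`, `w_b = x(q)` they give a nonzero multiple of the symmetric square of `x(ℓ Q + q)` and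
`x(ℓ Q - q)`.
Proof. With `a, b` from `exists_mulForm` for `k = |ℓ|` let
`S i = aeval (sq2 (a, b renamed into block none) (X (some b, 0), X (some b, 1))) (addSubMap W i)`.
Use `isHomogeneous_addSubMap`, and `addSub_sym2x` for the points `k • Q` and `q`; if `ℓ < 0` then
`ℓ • Q + q = -(k • Q - q)` and `ℓ • Q - q = -(k • Q + q)`, `sym2x` is symmetric
(`Point.sym2x_comm`) and even. -/
theorem exists_transForm {K : Type u} [Field K] (W : WeierstrassCurve K) [W.IsElliptic]
    {B : Type*} [Fintype B] [DecidableEq B] (ℓ : ℤ) (b : B) :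
    ∃ S : Fin 3 → MvPolynomial (Option B × Fin 2) K,
      (∀ i, MH (S i) (pd (2 * ℓ.natAbs ^ 2) (Pi.single b 2))) ∧
      ∀ (F : Type u) [Field F] [DecidableEq F] [Algebra K F] (V : WeierstrassCurve F),
        W.map (algebraMap K F) = V → ∀ (Q : V.toAffine.Point) (q : B → V.toAffine.Point),
          ∃ c : F, c ≠ 0 ∧ ∀ i, evl (pv Q.xRep (fun b => (q b).xRep)) (S i) =
            c * sq2 (ℓ • Q + q b).xRep (ℓ • Q - q b).xRep i := by
  classical
  obtain ⟨a, a', ha, ha', hab⟩ := exists_mulForm W ℓ.natAbs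
  set M : Fin 2 → MvPolynomial (Option B × Fin 2) K :=
    ![aeval (fun j => X (none, j)) a, aeval (fun j => X (none, j)) a'] with hM
  set wv : Fin 2 → MvPolynomial (Option B × Fin 2) K := fun j => X (some b, j) with hwv
  have hXn : ∀ j : Fin 2, IsWeightedHomogeneous (bwt (Option B) (Fin 2))
      (X (none, j) : MvPolynomial (Option B × Fin 2) K) (pd 1 0) := by
    intro j
    have h := isWeightedHomogeneous_X K (bwt (Option B) (Fin 2)) (none, j)
    have e : bwt (Option B) (Fin 2) (none, j) = pd 1 0 := by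
      funext o
      cases o <;> simp [bwt, pd]
    rwa [e] at h
  have hXb : ∀ j : Fin 2, IsWeightedHomogeneous (bwt (Option B) (Fin 2))
      (X (some b, j) : MvPolynomial (Option B × Fin 2) K) (pd 0 (Pi.single b 1)) := by
    intro j
    have h := isWeightedHomogeneous_X K (bwt (Option B) (Fin 2)) (some b, j)
    have e : bwt (Option B) (Fin 2) (some b, j) = pd 0 (Pi.single b 1) := by
      funext o
      cases o with
      | none => simp [bwt, pd]
      | some b' => simp [bwt, pd, Pi.single_apply]
    rwa [e] at h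
  have hM' : ∀ j, IsWeightedHomogeneous (bwt (Option B) (Fin 2)) (M j)
      (ℓ.natAbs ^ 2 • pd 1 0) := by
    intro j
    fin_cases j
    · exact D2_aeval_wh _ _ a ha _ _ hXn
    · exact D2_aeval_wh _ _ a' ha' _ _ hXn
  have hsq : ∀ j, IsWeightedHomogeneous (bwt (Option B) (Fin 2)) (sq2 M wv j)
      (ℓ.natAbs ^ 2 • pd 1 0 + pd 0 (Pi.single b 1)) := by
    intro j
    fin_cases j
    · exact (hM' 0).mul (hXb 0)
    · exact ((hM' 0).mul (hXb 1)).add ((hM' 1).mul (hXb 0))
    · exact (hM' 1).mul (hXb 1)
  refine ⟨fun i => aeval (sq2 M wv) (addSubMap W i), ?_, ?_⟩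
  · intro i
    have h := D2_aeval_wh _ 2 (addSubMap W i) (isHomogeneous_addSubMap W i) _ _ hsq
    have e : 2 • (ℓ.natAbs ^ 2 • pd 1 0 + pd 0 (Pi.single b 1)) =
        pd (2 * ℓ.natAbs ^ 2) (Pi.single b 2) := by
      funext o
      cases o with
      | none => simp [pd]
      | some b' =>
        simp only [pd, Pi.smul_apply, Pi.add_apply, Option.elim, smul_eq_mul, Pi.zero_apply,
          mul_zero, zero_add, Pi.single_apply]
        split_ifs <;> simp
    rw [e] at h
    exact h
  · intro F _ _ _ V hV Q q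
    subst hV
    obtain ⟨c₀, hc₀, h0, h1⟩ := hab F _ rfl Q
    have : (W.map (algebraMap K F)).IsElliptic := inferInstance
    obtain ⟨c₁, hc₁, h2⟩ := addSub_sym2x (W.map (algebraMap K F)) (ℓ.natAbs • Q) (q b)
    refine ⟨c₀ ^ 2 * c₁, mul_ne_zero (pow_ne_zero _ hc₀) hc₁, fun i => ?_⟩
    have e1 : evl (pv Q.xRep (fun b => (q b).xRep)) (aeval (sq2 M wv) (addSubMap W i)) =
        aeval (fun j => c₀ * (ℓ.natAbs • Q).sym2x (q b) j) (addSubMap W i) := by
      rw [evl, ← AlgHom.comp_apply, comp_aeval]
      congr 2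
      funext j
      have hm0 : aeval (fun p : Option B × Fin 2 => pv Q.xRep (fun b => (q b).xRep) p.1 p.2) (M 0)
          = c₀ * (ℓ.natAbs • Q).xRep 0 := by
        rw [← h0, hM]
        simp only [Matrix.cons_val_zero]
        rw [← AlgHom.comp_apply, comp_aeval]
        simp only [aeval_X, pv, Option.elim]
      have hm1 : aeval (fun p : Option B × Fin 2 => pv Q.xRep (fun b => (q b).xRep) p.1 p.2) (M 1)
          = c₀ * (ℓ.natAbs • Q).xRep 1 := by
        rw [← h1, hM]
        simp only [Matrix.cons_val_one, Matrix.cons_val_zero]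
        rw [← AlgHom.comp_apply, comp_aeval]
        simp only [aeval_X, pv, Option.elim]
      have hw : ∀ j, aeval (fun p : Option B × Fin 2 => pv Q.xRep (fun b => (q b).xRep) p.1 p.2)
          (wv j) = (q b).xRep j := by
        intro j
        rw [hwv]
        simp only [aeval_X, pv, Option.elim]
      fin_cases j
      · simp only [sq2, WeierstrassCurve.Affine.Point.sym2x, Fin.zero_eta, Fin.isValue,
          Matrix.cons_val_zero, map_mul, hm0, hw]
        ring
      · simp only [sq2, WeierstrassCurve.Affine.Point.sym2x, Fin.mk_one, Fin.isValue,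
          Matrix.cons_val_one, Matrix.cons_val_zero, map_mul, map_add, hm0, hm1, hw]
        ring
      · simp only [sq2, WeierstrassCurve.Affine.Point.sym2x, Fin.reduceFinMk, Fin.isValue,
          Matrix.cons_val, map_mul, hm1, hw]
        ring
    rw [e1, D2_aeval_smul 2 _ (isHomogeneous_addSubMap W i), D2_addSubMap_map, h2 i]
    have e2 : (ℓ.natAbs • Q + q b).sym2x (ℓ.natAbs • Q - q b) i =
        sq2 (ℓ • Q + q b).xRep (ℓ • Q - q b).xRep i := by
      rcases Int.natAbs_eq ℓ with hl | hl
      · have : ℓ • Q = ℓ.natAbs • Q := by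
          conv_lhs => rw [hl]
          exact natCast_zsmul _ _
        rw [this]
        rfl
      · have : ℓ • Q = -(ℓ.natAbs • Q) := by
          conv_lhs => rw [hl]
          rw [neg_zsmul, natCast_zsmul]
        have ha : ℓ • Q + q b = -(ℓ.natAbs • Q - q b) := by rw [this]; abel
        have hb : ℓ • Q - q b = -(ℓ.natAbs • Q + q b) := by rw [this]; abel
        rw [ha, hb, WeierstrassCurve.Affine.Point.xRep_neg,
          WeierstrassCurve.Affine.Point.xRep_neg,
          WeierstrassCurve.Affine.Point.sym2x_comm]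
        rfl
    rw [e2]
    ring

end Pool.Agent.Lib.MP_17a322_nt.RO
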