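import Pool.Agent.Lib.MP_17a322_nt.RO.Defs

/-!
Points whose x-coordinate lies in a relatively algebraically closed subfield form a subgroup.
-/

namespace Pool.Agent.Lib.MP_17a322_nt.RO

open MvPolynomial WeierstrassCurve

theorem G1_y_mem {K Ω : Type*} [Field K] [Field Ω] [Algebra K Ω]
    (W : WeierstrassCurve K) (F₀ : IntermediateField K Ω)
    (hF : ∀ z : Ω, IsAlgebraic F₀ z → z ∈ F₀) {x y : Ω}
    (h : (W.map (algebraMap K Ω)).toAffine.Equation x y) (hx : x ∈ F₀) : y ∈ F₀ := by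
  apply hF
  rw [Affine.equation_iff] at h
  have h' : y ^ 2 + algebraMap K Ω W.a₁ * x * y + algebraMap K Ω W.a₃ * y =
      x ^ 3 + algebraMap K Ω W.a₂ * x ^ 2 + algebraMap K Ω W.a₄ * x + algebraMap K Ω W.a₆ := h
  let b : F₀ := algebraMap K F₀ W.a₁ * ⟨x, hx⟩ + algebraMap K F₀ W.a₃
  let c : F₀ := (⟨x, hx⟩ : F₀) ^ 3 + algebraMap K F₀ W.a₂ * (⟨x, hx⟩ : F₀) ^ 2 +
    algebraMap K F₀ W.a₄ * (⟨x, hx⟩ : F₀) + algebraMap K F₀ W.a₆
  have hb : algebraMap F₀ Ω b = algebraMap K Ω W.a₁ * x + algebraMap K Ω W.a₃ := rfl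
  have hc : algebraMap F₀ Ω c = x ^ 3 + algebraMap K Ω W.a₂ * x ^ 2 +
    algebraMap K Ω W.a₄ * x + algebraMap K Ω W.a₆ := rfl
  refine ⟨Polynomial.X ^ 2 + Polynomial.C b * Polynomial.X - Polynomial.C c, ?_, ?_⟩
  · intro h0
    have h2 := congrArg (fun p => Polynomial.coeff p 2) h0
    simp at h2
  · rw [map_sub, map_add, map_pow, map_mul, Polynomial.aeval_X, Polynomial.aeval_C,
      Polynomial.aeval_C, hb, hc]
    linear_combination h'

theorem G1_lift {K Ω : Type*} [Field K] [Field Ω] [DecidableEq Ω] [Algebra K Ω]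
    (W : WeierstrassCurve K) (F₀ : IntermediateField K Ω)
    (hF : ∀ z : Ω, IsAlgebraic F₀ z → z ∈ F₀)
    (P : (W.map (algebraMap K Ω)).toAffine.Point) (hP : ∀ i, P.xRep i ∈ F₀) :
    ∃ P₀ : (W.map (algebraMap K F₀)).toAffine.Point,
      Affine.Point.map (W' := W.toAffine) (F₀.val) P₀ = P := by
  cases P with
  | zero => exact ⟨0, rfl⟩
  | some x y h =>
    have hx : x ∈ F₀ := by
      have := hP 0
      simpa using this
    have hy : y ∈ F₀ := G1_y_mem W F₀ hF h.1 hx
    have hns := (W.toAffine.baseChange_nonsingular (F₀.val).injective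
      (⟨x, hx⟩ : F₀) (⟨y, hy⟩ : F₀)).mp h
    exact ⟨Affine.Point.some _ _ hns, rfl⟩

theorem G1_map_mem {K Ω : Type*} [Field K] [Field Ω] [DecidableEq Ω] [Algebra K Ω]
    (W : WeierstrassCurve K) (F₀ : IntermediateField K Ω)
    (P₀ : (W.map (algebraMap K F₀)).toAffine.Point) (i : Fin 2) :
    (Affine.Point.map (W' := W.toAffine) (F₀.val) P₀).xRep i ∈ F₀ := by
  cases P₀ with
  | zero =>
    have h : (Affine.Point.map (W' := W.toAffine) (F₀.val)
        (Affine.Point.zero : (W.map (algebraMap K F₀)).toAffine.Point)).xRep = ![1, 0] := rfl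
    rw [h]
    fin_cases i
    · exact F₀.one_mem
    · exact F₀.zero_mem
  | some x y h =>
    change (![(x : Ω), 1] : Fin 2 → Ω) i ∈ F₀
    fin_cases i
    · exact x.2
    · exact F₀.one_mem

/-- Let `F₀` be an intermediate field of `Ω / K` that contains every element of `Ω` algebraic over it.
If both coordinates of `P.xRep` and of `Q.xRep` lie in `F₀` then so do those of `(P + Q).xRep`.

Proof. For `P = (x, y)` with `x ∈ F₀` the element `y` is a root of the monic quadratic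
`Y^2 + (a₁ x + a₃) Y - (x^3 + ...)` with coefficients in `F₀`, hence `y ∈ F₀`. So `P` and `Q` are in
the range of the group homomorphism `Point.map (IntermediateField.val F₀)` (or of
`Point.baseChange`) from the points over `F₀`, and so is `P + Q`; the coordinates of an image point
are in `F₀`. (The curve over `F₀` is elliptic/nonsingular at the point:
`baseChange_nonsingular`.) -/
theorem xRep_add_mem {K Ω : Type*} [Field K] [Field Ω] [DecidableEq Ω] [Algebra K Ω]
    (W : WeierstrassCurve K) [W.IsElliptic] (F₀ : IntermediateField K Ω)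
    (hF : ∀ z : Ω, IsAlgebraic F₀ z → z ∈ F₀)
    (P Q : (W.map (algebraMap K Ω)).toAffine.Point) (hP : ∀ i, P.xRep i ∈ F₀)
    (hQ : ∀ i, Q.xRep i ∈ F₀) : ∀ i, (P + Q).xRep i ∈ F₀ := by
  intro i
  obtain ⟨P₀, rfl⟩ := G1_lift W F₀ hF P hP
  obtain ⟨Q₀, rfl⟩ := G1_lift W F₀ hF Q hQ
  have h := G1_map_mem W F₀ (P₀ + Q₀) i
  have e := (Affine.Point.map (W' := W.toAffine) (F₀.val)).map_add P₀ Q₀
  exact (congrArg (fun R : (W.map (algebraMap K Ω)).toAffine.Point => R.xRep i ∈ F₀) e).mp h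

/-- Consequence for `ε P + ℓ Q` (induction on `ℓ`, `Point.xRep_neg`). -/
theorem xRep_zsmul_add_mem {K Ω : Type*} [Field K] [Field Ω] [DecidableEq Ω] [Algebra K Ω]
    (W : WeierstrassCurve K) [W.IsElliptic] (F₀ : IntermediateField K Ω)
    (hF : ∀ z : Ω, IsAlgebraic F₀ z → z ∈ F₀)
    (P Q : (W.map (algebraMap K Ω)).toAffine.Point) (hP : ∀ i, P.xRep i ∈ F₀)
    (hQ : ∀ i, Q.xRep i ∈ F₀) (ℓ : ℤ) (s : Bool) :
    ∀ i, (sg s P + ℓ • Q).xRep i ∈ F₀ := by
  have hs : ∀ i, (sg s P).xRep i ∈ F₀ := by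
    intro i
    cases s with
    | true => exact hP i
    | false =>
      have h : (sg false P).xRep = P.xRep := Affine.Point.xRep_neg P
      rw [h]
      exact hP i
  have hnQ : ∀ i, (-Q).xRep i ∈ F₀ := by
    intro i
    rw [Affine.Point.xRep_neg]
    exact hQ i
  have hl : ∀ ℓ : ℤ, ∀ i, (sg s P + ℓ • Q).xRep i ∈ F₀ := by
    intro ℓ
    induction ℓ using Int.induction_on with
    | zero =>
      rw [zero_smul, add_zero]
      exact hs
    | succ n ih =>
      rw [add_smul, one_smul, ← add_assoc]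
      exact xRep_add_mem W F₀ hF _ Q ih hQ
    | pred n ih =>
      rw [sub_smul, one_smul, sub_eq_add_neg, ← add_assoc]
      exact xRep_add_mem W F₀ hF _ (-Q) ih hnQ
  exact hl ℓ

end Pool.Agent.Lib.MP_17a322_nt.RO
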