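import Pool.Agent.Lib.MP_17a322_nt.RO.Defs

/-!
Upper bound for the height of the values of multihomogeneous forms.
-/

namespace Pool.Agent.Lib.MP_17a322_nt.RO

open MvPolynomial Height

/-- The exponents of a monomial of a multihomogeneous form. -/
theorem H_sum_eq {K B ι : Type*} [CommSemiring K] [Fintype B] [DecidableEq B] [Fintype ι]
    {φ : MvPolynomial (B × ι) K} {D : B → ℕ} (hφ : MH φ D) {m : B × ι →₀ ℕ}
    (hm : coeff m φ ≠ 0) (b : B) : ∑ i, m (b, i) = D b := by
  classical
  have h := congrFun (hφ hm) b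
  rw [Finsupp.weight_apply, Finsupp.sum_fintype _ _ (by simp), Finset.sum_apply] at h
  rw [← h, Fintype.sum_prod_type, Finset.sum_eq_single b]
  · refine Finset.sum_congr rfl fun i _ => ?_
    simp [bwt]
  · intro b' _ hb'
    refine Finset.sum_eq_zero fun i _ => ?_
    simp [bwt, Pi.single_eq_of_ne (Ne.symm hb')]
  · intro h
    exact absurd (Finset.mem_univ b) h

/-- A monomial of multidegree `D` is a coordinate of the tensor product. -/
theorem H_exists_index {B ι : Type*} [Fintype B] [Fintype ι] (D : B → ℕ) (m : B × ι →₀ ℕ)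
    (hm : ∀ b, ∑ i, m (b, i) = D b) :
    ∃ I : (Σ b : B, Fin (D b)) → ι, ∀ (K : Type*) [CommMonoid K] (x : B → ι → K),
      ∏ p, x p.1 p.2 ^ m p = ∏ a : (Σ b : B, Fin (D b)), x a.1 (I a) := by
  classical
  have he : ∀ b, Nonempty (Fin (D b) ≃ Σ i : ι, Fin (m (b, i))) := by
    intro b
    refine ⟨Fintype.equivOfCardEq ?_⟩
    simp [hm b]
  let e := fun b => Classical.choice (he b)
  refine ⟨fun a => (e a.1 a.2).1, ?_⟩
  intro K _ x
  rw [Fintype.prod_sigma, Fintype.prod_prod_type]
  refine Finset.prod_congr rfl fun b _ => ?_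
  rw [Equiv.prod_comp (e b) (fun s => x b s.1), Fintype.prod_sigma]
  refine Finset.prod_congr rfl fun i _ => ?_
  simp

/-- A family of forms of the same multidegree `D` satisfies
`h((φ_k(x))_k) ≤ ∑ D_b h(x_b) + C`.

Proof. Let `α = Σ b, Fin (D b)` and, for `a = (b, j)` in `α`, let `y_a = x_b`. By
`Height.logHeight_fun_prod_eq` the vector `Y = (∏_a y_a (I a))` indexed by `I : α → ι` has height
`∑_a h(y_a) = ∑_b D_b h(x_b)`. For every `m` in the support of some `φ_k` one has
`∑_i m (b, i) = D b` for all `b` (`weight` of `m` in `MH`), so there is `I_m : α → ι` such that, for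
each `b`, the fibre of `j ↦ I_m (b, j)` over `i` has `m (b, i)` elements, hence
`∏_p x_{p.1} p.2 ^ (m p) = ∏_a y_a (I_m a)`. (Such an `I_m` exists for each `b` separately:
`Fin (D b) ≃ Σ i, Fin (m (b, i))` by cardinality.) So `φ_k(x) = ∑_I A (k, I) * Y I` with
`A (k, I) = ∑_{m ∈ supp φ_k, I_m = I} coeff m φ_k`, and `Height.logHeight_linearMap_apply_le`
gives the result. (If `κ` is empty everything is trivial: `logHeight` is `0`; if `ι` is empty then
`B` must be empty as `x b ≠ 0`.) -/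
theorem logHeight_evl_le {K : Type*} [Field K] [AdmissibleAbsValues K] {B ι κ : Type*}
    [Fintype B] [DecidableEq B] [Fintype ι] [Finite κ] (φ : κ → MvPolynomial (B × ι) K)
    (D : B → ℕ) (hφ : ∀ k, MH (φ k) D) :
    ∃ C : ℝ, 0 ≤ C ∧ ∀ x : B → ι → K, (∀ b, x b ≠ 0) →
      logHeight (fun k => evl x (φ k)) ≤ ∑ b, (D b : ℝ) * logHeight (x b) + C := by
  classical
  rcases isEmpty_or_nonempty κ with hκ | hκ
  · refine ⟨0, le_rfl, fun x _ => ?_⟩
    rw [logHeight_eq_zero_of_subsingleton]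
    have : 0 ≤ ∑ b, (D b : ℝ) * logHeight (x b) :=
      Finset.sum_nonneg fun b _ => mul_nonneg (Nat.cast_nonneg _) (logHeight_nonneg _)
    linarith
  by_cases hne : Nonempty ((Σ b : B, Fin (D b)) → ι)
  swap
  · -- then all forms vanish
    refine ⟨0, le_rfl, fun x hx => ?_⟩
    have hz : (fun k => evl x (φ k)) = 0 := by
      funext k
      have : φ k = 0 := by
        by_contra hk
        obtain ⟨m, hm⟩ := MvPolynomial.ne_zero_iff.mp hk
        obtain ⟨I, _⟩ := H_exists_index.{_, _, 0} D m (H_sum_eq (hφ k) hm)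
        exact hne ⟨I⟩
      simp [this, evl]
    rw [hz, logHeight_zero]
    have : 0 ≤ ∑ b, (D b : ℝ) * logHeight (x b) :=
      Finset.sum_nonneg fun b _ => mul_nonneg (Nat.cast_nonneg _) (logHeight_nonneg _)
    linarith
  obtain ⟨I₀⟩ := hne
  have hI : ∀ m : B × ι →₀ ℕ, ∃ I : (Σ b : B, Fin (D b)) → ι, (∀ b, ∑ i, m (b, i) = D b) →
      ∀ x : B → ι → K, ∏ p, x p.1 p.2 ^ m p = ∏ a : (Σ b : B, Fin (D b)), x a.1 (I a) := by
    intro m
    by_cases hm : ∀ b, ∑ i, m (b, i) = D b
    · obtain ⟨I, hI⟩ := H_exists_index D m hm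
      exact ⟨I, fun _ => hI K⟩
    · exact ⟨I₀, fun h => absurd h hm⟩
  choose I hI using hI
  have := Fintype.ofFinite κ
  set A : κ × ((Σ b : B, Fin (D b)) → ι) → K := fun p =>
    ∑ m ∈ (φ p.1).support.filter (fun m => I m = p.2), coeff m (φ p.1) with hA
  refine ⟨totalWeight K * Real.log (Nat.card ((Σ b : B, Fin (D b)) → ι)) + logHeight A, ?_, ?_⟩
  · have h1 : 0 ≤ Real.log (Nat.card ((Σ b : B, Fin (D b)) → ι)) := Real.log_natCast_nonneg _
    have h2 : 0 ≤ logHeight A := logHeight_nonneg _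
    positivity
  intro x hx
  have h1 : (fun k => evl x (φ k)) =
      fun k => ∑ J : (Σ b : B, Fin (D b)) → ι, A (k, J) * ∏ a, x a.1 (J a) := by
    funext k
    have hA' : ∀ J, A (k, J) * ∏ a : (Σ b : B, Fin (D b)), x a.1 (J a) =
        ∑ m ∈ (φ k).support, if I m = J then coeff m (φ k) * ∏ p, x p.1 p.2 ^ m p else 0 := by
      intro J
      rw [hA]
      simp only
      rw [Finset.sum_mul, Finset.sum_filter]
      refine Finset.sum_congr rfl fun m hm => ?_
      split_ifs with hJ
      · rw [hI m (H_sum_eq (hφ k) (mem_support_iff.mp hm)) x, hJ]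
      · rfl
    simp only [hA']
    rw [Finset.sum_comm]
    rw [evl, aeval_def, eval₂_eq']
    refine Finset.sum_congr rfl fun m _ => ?_
    rw [Finset.sum_ite_eq]
    simp
  rw [h1]
  refine (logHeight_linearMap_apply_le A _).trans ?_
  have h2 : logHeight (fun J : (Σ b : B, Fin (D b)) → ι => ∏ a, x a.1 (J a)) =
      ∑ b, (D b : ℝ) * logHeight (x b) := by
    rw [logHeight_fun_prod_eq (x := fun a : (Σ b : B, Fin (D b)) => x a.1) (fun a => hx a.1),
      Fintype.sum_sigma]
    refine Finset.sum_congr rfl fun b _ => ?_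
    simp
  rw [h2]
  linarith

end Pool.Agent.Lib.MP_17a322_nt.RO
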