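import Pool.Agent.Lib.MP_17a322_nt.RO.Defs

/-!
Symmetric bihomogeneous expressions in two vectors of length two are forms in the symmetric square.
-/

namespace Pool.Agent.Lib.MP_17a322_nt.RO

open MvPolynomial

theorem C1_sq2_zero {A : Type*} [CommSemiring A] (v w : Fin 2 → A) : sq2 v w 0 = v 0 * w 0 := rfl

theorem C1_sq2_one {A : Type*} [CommSemiring A] (v w : Fin 2 → A) :
    sq2 v w 1 = v 0 * w 1 + v 1 * w 0 := rfl

theorem C1_sq2_two {A : Type*} [CommSemiring A] (v w : Fin 2 → A) : sq2 v w 2 = v 1 * w 1 := rfl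

/-- Power sums: `(p_0 p'_1)^k + (p_1 p'_0)^k` is a form of degree `k` in the symmetric square.
Proof: `T_0 = 2`, `T_1 = X 1`, `T_{k+2} = X 1 * T_{k+1} - X 0 * X 2 * T_k`. -/
theorem exists_powerSum (K : Type*) [CommRing K] (k : ℕ) :
    ∃ T : MvPolynomial (Fin 3) K, T.IsHomogeneous k ∧
      ∀ (A : Type*) [CommRing A] [Algebra K A] (p p' : Fin 2 → A),
        aeval (sq2 p p') T = (p 0 * p' 1) ^ k + (p 1 * p' 0) ^ k := by
  induction k using Nat.twoStepInduction with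
  | zero =>
    refine ⟨C 2, isHomogeneous_C _ _, fun A _ _ p p' => ?_⟩
    rw [aeval_C, map_ofNat, pow_zero, pow_zero]
    norm_num
  | one =>
    refine ⟨X 1, isHomogeneous_X _ _, fun A _ _ p p' => ?_⟩
    rw [aeval_X, C1_sq2_one, pow_one, pow_one]
  | more k h1 h2 =>
    obtain ⟨T, hT, hT'⟩ := h1
    obtain ⟨U, hU, hU'⟩ := h2
    refine ⟨X 1 * U - X 0 * X 2 * T, ?_, fun A _ _ p p' => ?_⟩
    · refine IsHomogeneous.sub ?_ ?_
      · have := (isHomogeneous_X K (1 : Fin 3)).mul hU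
        rwa [show 1 + (k + 1) = k + 2 by ring] at this
      · have := ((isHomogeneous_X K (0 : Fin 3)).mul (isHomogeneous_X K (2 : Fin 3))).mul hT
        rwa [show 1 + 1 + k = k + 2 by ring] at this
    · rw [map_sub, map_mul, map_mul, map_mul, aeval_X, aeval_X, aeval_X, hT', hU', C1_sq2_one, C1_sq2_zero,
        C1_sq2_two]
      ring

theorem C1_aux (K : Type*) [CommRing K] (D a b : ℕ) (ha : a ≤ D) (hab : b ≤ a) :
    ∃ U : MvPolynomial (Fin 3) K, U.IsHomogeneous D ∧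
      ∀ (A : Type*) [CommRing A] [Algebra K A] (p p' : Fin 2 → A),
        aeval (sq2 p p') U =
          p 0 ^ a * p 1 ^ (D - a) * p' 0 ^ b * p' 1 ^ (D - b) +
            p' 0 ^ a * p' 1 ^ (D - a) * p 0 ^ b * p 1 ^ (D - b) := by
  obtain ⟨T, hT, hT'⟩ := exists_powerSum K (a - b)
  obtain ⟨c, rfl⟩ := Nat.exists_eq_add_of_le hab
  obtain ⟨d, rfl⟩ := Nat.exists_eq_add_of_le ha
  have e1 : b + c - b = c := by omega
  have e2 : b + c + d - (b + c) = d := by omega
  have e3 : b + c + d - b = c + d := by omega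
  rw [e1] at hT hT'
  refine ⟨X 0 ^ b * X 2 ^ d * T, ?_, fun A _ _ p p' => ?_⟩
  · have := (((isHomogeneous_X K (0 : Fin 3)).pow b).mul ((isHomogeneous_X K (2 : Fin 3)).pow d)).mul hT
    rwa [show 1 * b + 1 * d + c = b + c + d by ring] at this
  · rw [map_mul, map_mul, map_pow, map_pow, aeval_X, aeval_X, hT', C1_sq2_zero, C1_sq2_two, e2, e3]
    ring

/-- For `a, b ≤ D` the expression
`p_0^a p_1^(D-a) p'_0^b p'_1^(D-b) + p'_0^a p'_1^(D-a) p_0^b p_1^(D-b)` is a form of degree `D` in the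
symmetric square. Proof: it is symmetric in `a` and `b`; for `b ≤ a` it equals
`(p_0 p'_0)^b (p_1 p'_1)^(D-a) ((p_0 p'_1)^(a-b) + (p_1 p'_0)^(a-b))`; take
`U = X 0 ^ b * X 2 ^ (D - a) * T_{a-b}`. -/
theorem exists_symForm (K : Type*) [CommRing K] (D a b : ℕ) (ha : a ≤ D) (hb : b ≤ D) :
    ∃ U : MvPolynomial (Fin 3) K, U.IsHomogeneous D ∧
      ∀ (A : Type*) [CommRing A] [Algebra K A] (p p' : Fin 2 → A),
        aeval (sq2 p p') U =
          p 0 ^ a * p 1 ^ (D - a) * p' 0 ^ b * p' 1 ^ (D - b) +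
            p' 0 ^ a * p' 1 ^ (D - a) * p 0 ^ b * p 1 ^ (D - b) := by
  rcases le_total b a with h | h
  · exact C1_aux K D a b ha h
  · obtain ⟨U, hU, hU'⟩ := C1_aux K D b a hb h
    refine ⟨U, hU, fun A _ _ p p' => ?_⟩
    rw [hU']
    ring

end Pool.Agent.Lib.MP_17a322_nt.RO
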