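import Pool.Agent.Lib.MP_17a322_nt.RO.Defs

/-!
Forms in Option B blocks as binary forms in the block none with coefficients in the others.
-/

namespace Pool.Agent.Lib.MP_17a322_nt.RO

open MvPolynomial

theorem E0_weight {B ι : Type*} [Fintype B] [Fintype ι] [DecidableEq B]
    (m : B × ι →₀ ℕ) (b : B) : (Finsupp.weight (bwt B ι) m) b = ∑ i, m (b, i) := by
  rw [Finsupp.weight_apply, Finsupp.sum_fintype _ _ (by intro i; simp), Finset.sum_apply,
    Fintype.sum_prod_type]
  rw [Finset.sum_eq_single b]
  · apply Finset.sum_congr rfl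
    intro i _
    simp [bwt]
  · intro c _ hc
    apply Finset.sum_eq_zero
    intro i _
    simp [bwt, Pi.single_eq_of_ne (Ne.symm hc)]
  · intro h
    exact absurd (Finset.mem_univ b) h

theorem E0_evl {K A B ι : Type*} [CommRing K] [CommRing A] [Algebra K A] [Fintype B] [Fintype ι]
    (x : B → ι → A) (φ : MvPolynomial (B × ι) K) :
    evl x φ = ∑ m ∈ φ.support, algebraMap K A (coeff m φ) * ∏ b, ∏ i, x b i ^ m (b, i) := by
  rw [evl, aeval_def, eval₂_eq']
  apply Finset.sum_congr rfl
  intro m _
  rw [Fintype.prod_prod_type]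

/-- Coefficients of a form with respect to the block `none`.
Proof: `c k` is the sum over the monomials `m` of `φ` with `m (none, 0) = k` of
`coeff m φ • ∏_(b, i) X (b, i) ^ m (some b, i)`; by `hφ`, `m (none, 0) + m (none, 1) = d` and
`m (some b, 0) + m (some b, 1) = e b`. -/
theorem exists_coeffs {K B : Type*} [CommRing K] [Fintype B] [DecidableEq B] (d : ℕ) (e : B → ℕ)
    (φ : MvPolynomial (Option B × Fin 2) K) (hφ : MH φ (pd d e)) :
    ∃ c : ℕ → MvPolynomial (B × Fin 2) K, (∀ k, MH (c k) e) ∧
      ∀ (A : Type*) [CommRing A] [Algebra K A] (u : Fin 2 → A) (w : B → Fin 2 → A),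
        evl (pv u w) φ = ∑ k ∈ Finset.range (d + 1), evl w (c k) * u 0 ^ k * u 1 ^ (d - k) := by
  classical
  have hnone : ∀ m ∈ φ.support, m (none, 0) + m (none, 1) = d := by
    intro m hm
    have h := congrFun (hφ (mem_support_iff.mp hm)) none
    rw [E0_weight, Fin.sum_univ_two] at h
    exact h
  have hsome : ∀ m ∈ φ.support, ∀ b, m (some b, 0) + m (some b, 1) = e b := by
    intro m hm b
    have h := congrFun (hφ (mem_support_iff.mp hm)) (some b)
    rw [E0_weight, Fin.sum_univ_two] at h
    exact h
  refine ⟨fun k => ∑ m ∈ φ.support.filter (fun m => m (none, 0) = k),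
    C (coeff m φ) * ∏ b : B, ∏ i : Fin 2, X (b, i) ^ m (some b, i), ?_, ?_⟩
  · intro k
    apply IsWeightedHomogeneous.sum
    intro m hm
    apply IsWeightedHomogeneous.C_mul
    have h1 : IsWeightedHomogeneous (bwt B (Fin 2))
        (∏ b : B, ∏ i : Fin 2, (X (b, i) : MvPolynomial (B × Fin 2) K) ^ m (some b, i))
        (∑ b : B, ∑ i : Fin 2, m (some b, i) • bwt B (Fin 2) (b, i)) := by
      apply IsWeightedHomogeneous.prod
      intro b _
      apply IsWeightedHomogeneous.prod
      intro i _
      exact (isWeightedHomogeneous_X K (bwt B (Fin 2)) (b, i)).pow _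
    have h2 : (∑ b : B, ∑ i : Fin 2, m (some b, i) • bwt B (Fin 2) (b, i)) = e := by
      funext b
      rw [Finset.sum_apply, Finset.sum_eq_single b]
      · rw [Finset.sum_apply, Fin.sum_univ_two]
        simp only [bwt, Pi.smul_apply, Pi.single_eq_same, smul_eq_mul, mul_one]
        exact hsome m (Finset.mem_filter.mp hm).1 b
      · intro c _ hc
        rw [Finset.sum_apply]
        apply Finset.sum_eq_zero
        intro i _
        simp [bwt, Pi.single_eq_of_ne (Ne.symm hc)]
      · intro h
        exact absurd (Finset.mem_univ b) h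
    rw [h2] at h1
    exact h1
  · intro A _ _ u w
    rw [E0_evl]
    have h1 : ∀ k ∈ Finset.range (d + 1),
        evl w (∑ m ∈ φ.support.filter (fun m => m (none, 0) = k),
          C (coeff m φ) * ∏ b : B, ∏ i : Fin 2, X (b, i) ^ m (some b, i)) * u 0 ^ k *
            u 1 ^ (d - k) =
        ∑ m ∈ φ.support.filter (fun m => m (none, 0) = k),
          algebraMap K A (coeff m φ) * ∏ o, ∏ i, pv u w o i ^ m (o, i) := by
      intro k _
      rw [evl, map_sum, Finset.sum_mul, Finset.sum_mul]
      apply Finset.sum_congr rfl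
      intro m hm
      rw [Finset.mem_filter] at hm
      have h3 := hnone m hm.1
      have h4 : m (none, 1) = d - k := by omega
      rw [map_mul, aeval_C, map_prod]
      simp only [map_prod, map_pow, aeval_X]
      rw [Fintype.prod_option]
      simp only [pv, Option.elim, Fin.prod_univ_two]
      rw [hm.2, h4]
      ring
    rw [Finset.sum_congr rfl h1]
    exact (Finset.sum_fiberwise_of_maps_to (s := φ.support) (t := Finset.range (d + 1))
      (g := fun m => m (none, 0)) (by
        intro m hm
        have := hnone m hm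
        rw [Finset.mem_range]
        omega) _).symm

/-- Scaling: a multihomogeneous form of multidegree `D` at `(t_b x_b)` is `∏ t_b ^ D b` times its
value at `x`. -/
theorem evl_smul {K A B ι : Type*} [CommRing K] [CommRing A] [Algebra K A] [Fintype B]
    [DecidableEq B] (D : B → ℕ) (φ : MvPolynomial (B × ι) K) (hφ : MH φ D) (t : B → A)
    (x : B → ι → A) : evl (fun b => t b • x b) φ = (∏ b, t b ^ D b) * evl x φ := by
  rw [evl, evl, aeval_def, aeval_def, eval₂_eq, eval₂_eq, Finset.mul_sum]
  apply Finset.sum_congr rfl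
  intro m hm
  have hw := hφ (mem_support_iff.mp hm)
  have h1 : ∏ b, t b ^ D b = ∏ p ∈ m.support, t p.1 ^ m p := by
    have h2 : ∀ b, t b ^ D b = ∏ p ∈ m.support, t b ^ (m p * (Pi.single p.1 1 : B → ℕ) b) := by
      intro b
      rw [Finset.prod_pow_eq_pow_sum]
      congr 1
      rw [← hw, Finsupp.weight_apply, Finsupp.sum, Finset.sum_apply]
      apply Finset.sum_congr rfl
      intro p _
      simp [bwt]
    rw [Finset.prod_congr rfl (fun b _ => h2 b), Finset.prod_comm]
    apply Finset.prod_congr rfl
    intro p _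
    rw [Finset.prod_eq_single p.1]
    · rw [Pi.single_eq_same, mul_one]
    · intro b _ hb
      rw [Pi.single_eq_of_ne hb, mul_zero, pow_zero]
    · intro h
      exact absurd (Finset.mem_univ _) h
  rw [h1]
  simp only [Pi.smul_apply, smul_eq_mul, mul_pow, Finset.prod_mul_distrib]
  ring

end Pool.Agent.Lib.MP_17a322_nt.RO
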