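import Pool.Agent.Lib.MP_17a322_nt.RO.Defs

/-!
Zeros of binary forms at x-coordinates of points.
-/

namespace Pool.Agent.Lib.MP_17a322_nt.RO

open MvPolynomial WeierstrassCurve

open Polynomial in
/-- the dehomogenised polynomial -/
noncomputable def F1_pol {F : Type*} [Field F] (d : ℕ) (c : ℕ → F) : Polynomial F :=
  ∑ k ∈ Finset.range (d + 1), Polynomial.C (c k) * Polynomial.X ^ k

theorem F1_coeff {F : Type*} [Field F] (d : ℕ) (c : ℕ → F) {k : ℕ} (hk : k ≤ d) :
    (F1_pol d c).coeff k = c k := by
  unfold F1_pol
  rw [Polynomial.finsetSum_coeff]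
  simp only [Polynomial.coeff_C_mul_X_pow]
  rw [Finset.sum_eq_single k]
  · rw [if_pos rfl]
  · intro b _ hb
    rw [if_neg (Ne.symm hb)]
  · intro h
    exact absurd (Finset.mem_range.2 (Nat.lt_succ_of_le hk)) h

theorem F1_natDegree {F : Type*} [Field F] (d : ℕ) (c : ℕ → F) : (F1_pol d c).natDegree ≤ d := by
  unfold F1_pol
  refine Polynomial.natDegree_sum_le_of_forall_le _ _ fun k hk => ?_
  exact (Polynomial.natDegree_C_mul_X_pow_le _ _).trans (Nat.lt_succ_iff.1 (Finset.mem_range.1 hk))

theorem F1_eval {F : Type*} [Field F] (d : ℕ) (c : ℕ → F) (x : F) :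
    (F1_pol d c).eval x = ∑ k ∈ Finset.range (d + 1), c k * x ^ k := by
  unfold F1_pol
  rw [Polynomial.eval_finsetSum]
  simp

/-- A nonzero binary form of degree `d` given by its coefficients has at most `d` zeros `[v]`; so
among points with pairwise different `xRep`, at most `d` are zeros, and at most `2 d` points `Q`.
Proof. Let `p = ∑_{k ≤ d} c_k X^k`, a polynomial of degree `≤ d`. If `p = 0` all `c_k = 0` and the
form vanishes everywhere, contrary to `hne`. The points `Q = (x, y)` with form value `0` have `x` a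
root of `p`; the point `0` (`xRep = (1, 0)`) is a zero only if `c_d = 0`, i.e. `deg p < d`. So the
set of values `xRep` of zeros has at most `d` elements; each value is taken by at most two points
(`Point.xRep_eq_xRep_iff`). -/
theorem card_zeros_le {F : Type*} [Field F] [DecidableEq F] (V : WeierstrassCurve F) (d : ℕ)
    (c : ℕ → F) (s : Finset V.toAffine.Point)
    (hne : ∃ v : Fin 2 → F, ∑ k ∈ Finset.range (d + 1), c k * v 0 ^ k * v 1 ^ (d - k) ≠ 0)
    (hs : ∀ Q ∈ s,
      ∑ k ∈ Finset.range (d + 1), c k * Q.xRep 0 ^ k * Q.xRep 1 ^ (d - k) = 0) :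
    s.card ≤ 2 * d := by
  classical
  have hp : F1_pol d c ≠ 0 := by
    intro h0
    obtain ⟨v, hv⟩ := hne
    apply hv
    refine Finset.sum_eq_zero fun k hk => ?_
    have h1 := F1_coeff d c (Nat.lt_succ_iff.1 (Finset.mem_range.1 hk))
    rw [h0, Polynomial.coeff_zero] at h1
    rw [← h1, zero_mul, zero_mul]
  have h2 : s.card ≤ 2 * (s.image fun Q => Q.xRep).card := by
    refine Finset.card_le_mul_card_image s 2 fun a ha => ?_
    obtain ⟨P, -, rfl⟩ := Finset.mem_image.1 ha
    have h3 : (s.filter fun Q => Q.xRep = P.xRep) ⊆ ({P, -P} : Finset V.toAffine.Point) := by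
      intro Q hQ
      have h4 := (Finset.mem_filter.1 hQ).2
      rcases Affine.Point.xRep_eq_xRep_iff.1 h4 with h | h
      · rw [h]
        exact Finset.mem_insert_self _ _
      · rw [h]
        exact Finset.mem_insert_of_mem (Finset.mem_singleton_self _)
    exact (Finset.card_le_card h3).trans Finset.card_le_two
  refine h2.trans (Nat.mul_le_mul_left 2 ?_)
  have hroots : (F1_pol d c).roots.toFinset.card ≤ (F1_pol d c).natDegree :=
    (Multiset.toFinset_card_le _).trans (Polynomial.card_roots' _)
  have hsome : ∀ Q ∈ s, Q.xRep = ![1, 0] ∧ c d = 0 ∨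
      Q.xRep ∈ (F1_pol d c).roots.toFinset.image fun x => (![x, 1] : Fin 2 → F) := by
    intro Q hQ
    have h5 := hs Q hQ
    cases Q with
    | zero =>
      left
      have h6 : (Affine.Point.zero : V.toAffine.Point).xRep = ![1, 0] := Affine.Point.xRep_zero
      refine ⟨h6, ?_⟩
      rw [h6, Finset.sum_eq_single d] at h5
      · simpa using h5
      · intro k hk hkd
        have : k < d := lt_of_le_of_ne (Nat.lt_succ_iff.1 (Finset.mem_range.1 hk)) hkd
        have h7 : (![1, 0] : Fin 2 → F) 1 ^ (d - k) = 0 := by
          rw [Matrix.cons_val_one, Matrix.cons_val_zero]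
          exact zero_pow (Nat.sub_pos_of_lt this).ne'
        rw [h7, mul_zero]
      · intro h
        exact absurd (Finset.mem_range.2 (Nat.lt_succ_self d)) h
    | some x y h =>
      right
      rw [Affine.Point.xRep_some] at h5 ⊢
      refine Finset.mem_image.2 ⟨x, ?_, rfl⟩
      rw [Multiset.mem_toFinset, Polynomial.mem_roots hp, Polynomial.IsRoot.def, F1_eval]
      simpa using h5
  by_cases hcd : c d = 0
  · have h8 : (F1_pol d c).natDegree < d := by
      refine lt_of_le_of_ne (F1_natDegree d c) fun h9 => hp ?_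
      have h10 : (F1_pol d c).leadingCoeff = 0 := by
        unfold Polynomial.leadingCoeff
        rw [h9, F1_coeff d c le_rfl, hcd]
      exact Polynomial.leadingCoeff_eq_zero.1 h10
    have h11 : (s.image fun Q => Q.xRep) ⊆
        insert ![1, 0] ((F1_pol d c).roots.toFinset.image fun x => (![x, 1] : Fin 2 → F)) := by
      intro a ha
      obtain ⟨Q, hQ, rfl⟩ := Finset.mem_image.1 ha
      rcases hsome Q hQ with h | h
      · rw [h.1]
        exact Finset.mem_insert_self _ _
      · exact Finset.mem_insert_of_mem h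
    have h12 := Finset.card_le_card h11
    have h13 := Finset.card_insert_le (![1, 0] : Fin 2 → F)
      ((F1_pol d c).roots.toFinset.image fun x => (![x, 1] : Fin 2 → F))
    have h14 := Finset.card_image_le (s := (F1_pol d c).roots.toFinset)
      (f := fun x => (![x, 1] : Fin 2 → F))
    omega
  · have h11 : (s.image fun Q => Q.xRep) ⊆
        ((F1_pol d c).roots.toFinset.image fun x => (![x, 1] : Fin 2 → F)) := by
      intro a ha
      obtain ⟨Q, hQ, rfl⟩ := Finset.mem_image.1 ha
      rcases hsome Q hQ with h | h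
      · exact absurd h.2 hcd
      · exact h
    have h12 := Finset.card_le_card h11
    have h14 := Finset.card_image_le (s := (F1_pol d c).roots.toFinset)
      (f := fun x => (![x, 1] : Fin 2 → F))
    have h15 := F1_natDegree d c
    omega

end Pool.Agent.Lib.MP_17a322_nt.RO
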