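import Pool.Agent.Lib.MP_17a322_nt.RO.Defs

/-!
Points over an algebraically closed field.
-/

namespace Pool.Agent.Lib.MP_17a322_nt.RO

open MvPolynomial WeierstrassCurve

/-- Every quadratic equation has a solution over an algebraically closed field. -/
theorem B1_quad {F : Type*} [Field F] [IsAlgClosed F] (b c : F) : ∃ y : F, y ^ 2 + b * y + c = 0 := by
  have hd : (Polynomial.X ^ 2 + Polynomial.C b * Polynomial.X + Polynomial.C c : Polynomial F).degree ≠ 0 := by
    have h1 : (Polynomial.X ^ 2 + Polynomial.C b * Polynomial.X + Polynomial.C c : Polynomial F).degree = 2 := by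
      have h2 := Polynomial.degree_quadratic (R := F) (a := 1) (b := b) (c := c) one_ne_zero
      rwa [Polynomial.C_1, one_mul] at h2
    rw [h1]
    exact two_ne_zero
  obtain ⟨y, hy⟩ := IsAlgClosed.exists_root _ hd
  refine ⟨y, ?_⟩
  simpa [Polynomial.IsRoot] using hy

/-- Over an algebraically closed field every nonzero vector of length two is a nonzero multiple of
the `x`-coordinate of a point. -/
theorem exists_point {F : Type*} [Field F] [IsAlgClosed F] (V : WeierstrassCurve F)
    [V.IsElliptic] (u : Fin 2 → F) (hu : u ≠ 0) :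
    ∃ (Q : V.toAffine.Point) (c : F), c ≠ 0 ∧ u = c • Q.xRep := by
  by_cases h1 : u 1 = 0
  · refine ⟨0, u 0, ?_, ?_⟩
    · intro h0
      apply hu
      funext i
      fin_cases i
      · exact h0
      · exact h1
    · rw [WeierstrassCurve.Affine.Point.xRep_zero]
      funext i
      fin_cases i
      · simp
      · simpa using h1
  · obtain ⟨y, hy⟩ := B1_quad (V.a₁ * (u 0 / u 1) + V.a₃)
      (-((u 0 / u 1) ^ 3 + V.a₂ * (u 0 / u 1) ^ 2 + V.a₄ * (u 0 / u 1) + V.a₆))
    have he : V.toAffine.Equation (u 0 / u 1) y := by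
      rw [WeierstrassCurve.Affine.equation_iff']
      linear_combination hy
    have hn : V.toAffine.Nonsingular (u 0 / u 1) y :=
      (WeierstrassCurve.Affine.equation_iff_nonsingular (W := V.toAffine)).1 he
    refine ⟨WeierstrassCurve.Affine.Point.some _ _ hn, u 1, h1, ?_⟩
    rw [WeierstrassCurve.Affine.Point.xRep_some]
    funext i
    fin_cases i
    · simp only [Fin.zero_eta, Fin.isValue, Pi.smul_apply, Matrix.cons_val_zero, smul_eq_mul]
      field_simp
    · simp

end Pool.Agent.Lib.MP_17a322_nt.RO
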