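import Pool.Agent.Lib.MP_17a322_nt.RO.Defs

/-!
Exchange in algebraic independence.
-/

namespace Pool.Agent.Lib.MP_17a322_nt.RO

open MvPolynomial

/-- Let `z : Option (Fin n) → Ω` and let `w : Fin n → Ω` be algebraically independent over `K`, each
`w i` algebraic over `K(z)`. If `(z (some i))_i` is not algebraically independent, then there is
`i₀` such that the family of the `z j`, `j ≠ some i₀`, is algebraically independent.

Proof. Let `L = K(range z)`; the elements of `Ω` algebraic over `L` contain the `w i`, so the
transcendence degree of `L` over `K` is at least `n` (`Algebra.trdeg`, or the matroid of algebraic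
independence in Mathlib). By `exists_isTranscendenceBasis_subset` (or
`exists_isTranscendenceBasis_between`) some subset `S` of `range z` is a transcendence basis
of `L` (equivalently of the algebraic closure of `L` in `Ω`) over `K`, so `n ≤ |S|`. Choose for
every `s ∈ S` an index `j s` with `z (j s) = s`; the family `z` restricted to the set
`J = j(S)` of indices is algebraically independent, and `|J| ≥ n` among `n + 1` indices.
If `J` misses at most the index `none` then `(z (some i))_i` is algebraically independent (a
subfamily), a contradiction. So `J` is the complement of some `some i₀` (as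
`|J| ≥ n` it misses exactly one index, and this is not `none`). -/
theorem exists_exchange {K Ω : Type*} [Field K] [Field Ω] [Algebra K Ω] (n : ℕ)
    (z : Option (Fin n) → Ω) (w : Fin n → Ω) (hw : AlgebraicIndependent K w)
    (halg : ∀ i, IsAlgebraic (IntermediateField.adjoin K (Set.range z)) (w i))
    (hdep : ¬ AlgebraicIndependent K (fun i : Fin n => z (some i))) :
    ∃ i₀ : Fin n, AlgebraicIndependent K (fun j : {j : Option (Fin n) // j ≠ some i₀} => z j) := by
  classical
  have hwi : Function.Injective w := hw.injective
  let M := AlgebraicIndependent.matroid K Ω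
  have hindw : M.Indep (Set.range w) :=
    AlgebraicIndependent.matroid_indep_iff.2 hw.to_subtype_range
  have hsub : Set.range w ⊆ M.closure (Set.range z) := by
    rw [AlgebraicIndependent.matroid_closure_eq]
    rintro _ ⟨i, rfl⟩
    rw [SetLike.mem_coe, Subalgebra.mem_algebraicClosure]
    exact IntermediateField.isAlgebraic_adjoin_iff.1 (halg i)
  have hcardw : (Set.range w).encard = n := by
    rw [← Set.image_univ, hwi.encard_image, Set.encard_univ]
    simp
  obtain ⟨S, hS⟩ := M.exists_isBasis (Set.range z) (by simp [M])
  have hSn : (n : ℕ∞) ≤ S.encard := by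
    rw [hS.encard_eq_eRk, ← M.eRk_closure_eq, ← hcardw, ← hindw.eRk_eq_encard]
    exact M.eRk_mono hsub
  have hSind : AlgebraicIndependent K ((↑) : S → Ω) :=
    AlgebraicIndependent.matroid_indep_iff.1 hS.indep
  have hsurj : Set.SurjOn z Set.univ S := by
    intro s hs
    obtain ⟨j, hj⟩ := hS.subset hs
    exact ⟨j, Set.mem_univ _, hj⟩
  obtain ⟨J, -, hJ⟩ := hsurj.exists_bijOn_subset
  have hJind : AlgebraicIndependent K (fun j : J => z j) := by
    have h := hSind.comp (fun j : J => (⟨z j, hJ.mapsTo j.2⟩ : S))
      (fun a b hab => Subtype.ext (hJ.injOn a.2 b.2 (congrArg Subtype.val hab)))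
    exact h
  have hJn : (n : ℕ∞) ≤ J.encard := by
    rw [← hJ.image_eq, hJ.injOn.encard_image] at hSn
    exact hSn
  have hJn' : n ≤ J.ncard := by
    have hfin : J.Finite := Set.toFinite J
    rw [← hfin.cast_ncard_eq] at hJn
    exact_mod_cast hJn
  -- a set of indices containing all `some i` is impossible
  have hnot : ¬ (∀ i : Fin n, some i ∈ J) := by
    intro hall
    exact hdep (hJind.comp (fun i : Fin n => (⟨some i, hall i⟩ : J))
      (fun a b hab => Option.some_injective _ (congrArg Subtype.val hab)))
  obtain ⟨i₀, hi₀⟩ := not_forall.1 hnot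
  refine ⟨i₀, ?_⟩
  have hJc : ({some i₀}ᶜ : Set (Option (Fin n))).ncard = n := by
    rw [Set.ncard_compl, Set.ncard_singleton, Nat.card_eq_fintype_card, Fintype.card_option,
      Fintype.card_fin, Nat.add_sub_cancel]
  have hJsub : J ⊆ ({some i₀}ᶜ : Set (Option (Fin n))) := by
    intro j hj hj'
    rw [Set.mem_singleton_iff] at hj'
    exact hi₀ (hj' ▸ hj)
  have hJeq : J = ({some i₀}ᶜ : Set (Option (Fin n))) :=
    Set.eq_of_subset_of_ncard_le hJsub (by rw [hJc]; exact hJn') (Set.toFinite _)
  exact hJind.comp (fun j : {j : Option (Fin n) // j ≠ some i₀} =>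
    (⟨j.1, hJeq ▸ (show j.1 ∈ ({some i₀}ᶜ : Set (Option (Fin n))) from j.2)⟩ : J))
    (fun a b hab => Subtype.ext (congrArg (fun t : J => t.1) hab))

end Pool.Agent.Lib.MP_17a322_nt.RO
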