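import Pool.Agent.Lib.MP_17a322_nt.RO.G3

/-!
Coprime forms have no common zero with all but one coordinate independent.
-/

namespace Pool.Agent.Lib.MP_17a322_nt.RO

open MvPolynomial

/-- Gauss's lemma for coprimality. -/
theorem G4_gauss {A : Type*} [CommRing A] [IsDomain A] [UniqueFactorizationMonoid A]
    (F G : Polynomial A) (h : IsRelPrime F G) :
    IsCoprime (F.map (algebraMap A (FractionRing A))) (G.map (algebraMap A (FractionRing A))) := by
  classical
  rw [← isRelPrime_iff_isCoprime]
  have hinj : Function.Injective (Polynomial.map (algebraMap A (FractionRing A))) :=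
    Polynomial.map_injective _ (IsFractionRing.injective A (FractionRing A))
  intro d hF hG
  let : NormalizedGCDMonoid A := Classical.arbitrary _
  by_cases hd : d = 0
  · exfalso
    subst hd
    have hF0 : F = 0 := hinj (by rw [zero_dvd_iff.1 hF, Polynomial.map_zero])
    have hG0 : G = 0 := hinj (by rw [zero_dvd_iff.1 hG, Polynomial.map_zero])
    subst hF0
    subst hG0
    exact not_isUnit_zero (h (dvd_refl 0) (dvd_refl 0))
  · obtain ⟨b, hb, hbd⟩ :=
      IsLocalization.integerNormalization_spec (nonZeroDivisors A) d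
    set N := IsLocalization.integerNormalization (nonZeroDivisors A) d with hN
    have hb0 : algebraMap A (FractionRing A) b ≠ 0 := by
      intro h0
      exact (mem_nonZeroDivisors_iff_ne_zero.1 hb)
        ((injective_iff_map_eq_zero _).1 (IsFractionRing.injective A (FractionRing A)) _ h0)
    have hdvd : N.primPart.map (algebraMap A (FractionRing A)) ∣ d := by
      have h1 : N.primPart.map (algebraMap A (FractionRing A)) ∣
          N.map (algebraMap A (FractionRing A)) :=
        (Polynomial.mapRingHom (algebraMap A (FractionRing A))).map_dvd N.primPart_dvd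
      have h2 : N.map (algebraMap A (FractionRing A)) =
          Polynomial.C (algebraMap A (FractionRing A) b) * d := by
        have h3 := hbd
        rw [Algebra.smul_def, Polynomial.algebraMap_apply] at h3
        exact h3
      rw [h2] at h1
      have hu : IsUnit (Polynomial.C (algebraMap A (FractionRing A) b)) :=
        Polynomial.isUnit_C.2 (isUnit_iff_ne_zero.2 hb0)
      exact (hu.dvd_mul_left).1 h1
    refine Polynomial.isUnit_or_eq_zero_of_isUnit_integerNormalization_primPart (R := A) hd ?_
    exact h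
      (N.isPrimitive_primPart.dvd_of_fraction_map_dvd_fraction_map (K := FractionRing A)
        (hdvd.trans hF))
      (N.isPrimitive_primPart.dvd_of_fraction_map_dvd_fraction_map (K := FractionRing A)
        (hdvd.trans hG))

/-- `f` as a polynomial in the variable `i₀`. -/
noncomputable def G4_uni {K : Type*} [Field K] {n : ℕ} (i₀ : Fin n) :
    MvPolynomial (Fin n) K ≃ₐ[K] Polynomial (MvPolynomial {i : Fin n // i ≠ i₀} K) :=
  (renameEquiv K (Equiv.optionSubtypeNe i₀).symm).trans
    (optionEquivLeft K {i : Fin n // i ≠ i₀})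

theorem G4_uni_X {K : Type*} [Field K] {n : ℕ} (i₀ i : Fin n) :
    G4_uni (K := K) i₀ (X i) =
      if h : i = i₀ then Polynomial.X else Polynomial.C (X ⟨i, h⟩) := by
  by_cases h : i = i₀
  · subst h
    simp [G4_uni, optionEquivLeft_X_none]
  · simp [G4_uni, h, optionEquivLeft_X_some, Equiv.optionSubtypeNe_symm_apply]

theorem G4_prod {M : Type*} [CommMonoid M] {n : ℕ} (i₀ : Fin n) (u : Fin n → M) :
    ∏ i, u i = u i₀ * ∏ i : {i : Fin n // i ≠ i₀}, u i := by
  rw [← (Equiv.optionSubtypeNe i₀).prod_comp u, Fintype.prod_option]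
  simp

/-- Value of the homogenisation. -/
theorem G4_evl_hom {K A B : Type*} [CommRing K] [CommRing A] [Algebra K A] [Fintype B]
    (f : MvPolynomial B K) (D : B → ℕ) (x : B → Fin 2 → A) :
    evl x (hom f D) =
      ∑ m ∈ f.support, algebraMap K A (coeff m f) * ∏ b, (x b 0 ^ (m b) * x b 1 ^ (D b - m b)) := by
  simp [evl, hom]

theorem G4_aeval_eq {K Ω : Type*} [Field K] [Field Ω] [Algebra K Ω] {n : ℕ} (i₀ : Fin n)
    (f : MvPolynomial (Fin n) K) (c : Fin n → Ω) :
    aeval c f = Polynomial.eval₂
      (aeval (R := K) (fun i : {i : Fin n // i ≠ i₀} => c i)).toRingHom (c i₀)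
      (G4_uni i₀ f) := by
  let Ψ : MvPolynomial (Fin n) K →+* Ω :=
    (Polynomial.eval₂RingHom
      (aeval (R := K) (fun i : {i : Fin n // i ≠ i₀} => c i)).toRingHom (c i₀)).comp
      (G4_uni (K := K) i₀ : MvPolynomial (Fin n) K →+*
        Polynomial (MvPolynomial {i : Fin n // i ≠ i₀} K))
  have hΨ : (aeval c : MvPolynomial (Fin n) K →ₐ[K] Ω).toRingHom = Ψ := by
    apply MvPolynomial.ringHom_ext
    · intro r
      have h1 : G4_uni (K := K) i₀ (C r) = Polynomial.C (C r) := by
        have := (G4_uni (K := K) i₀).commutes r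
        rw [MvPolynomial.algebraMap_eq] at this
        rw [this]
        rfl
      simp [Ψ, h1]
    · intro i
      by_cases h : i = i₀
      · subst h
        simp [Ψ, G4_uni_X]
      · simp [Ψ, G4_uni_X, h]
  exact congrArg (fun θ : MvPolynomial (Fin n) K →+* Ω => θ f) hΨ

theorem G4_coeff {K Ω : Type*} [Field K] [Field Ω] [Algebra K Ω] {n : ℕ} (i₀ : Fin n)
    (f : MvPolynomial (Fin n) K) (c : {i : Fin n // i ≠ i₀} → Ω) (k : ℕ) :
    aeval c ((G4_uni i₀ f).coeff k) =
      ∑ m ∈ f.support, if m i₀ = k then
        algebraMap K Ω (coeff m f) * ∏ i : {i : Fin n // i ≠ i₀}, c i ^ (m i) else 0 := by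
  conv_lhs => rw [f.as_sum]
  rw [map_sum, Polynomial.finsetSum_coeff, map_sum]
  refine Finset.sum_congr rfl fun m _ => ?_
  have h1 : (monomial m (coeff m f) : MvPolynomial (Fin n) K) =
      C (coeff m f) * ∏ i, X i ^ (m i) := by
    rw [monomial_eq, Finsupp.prod_fintype]
    intro i
    exact pow_zero _
  have h2 : G4_uni (K := K) i₀ (C (coeff m f)) = Polynomial.C (C (coeff m f)) := by
    have := (G4_uni (K := K) i₀).commutes (coeff m f)
    rw [MvPolynomial.algebraMap_eq] at this
    rw [this]
    rfl
  have h3 : G4_uni (K := K) i₀ (monomial m (coeff m f)) =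
      Polynomial.C (C (coeff m f) * ∏ i : {i : Fin n // i ≠ i₀}, X i ^ (m i)) *
        Polynomial.X ^ (m i₀) := by
    rw [h1, map_mul, h2, map_prod, G4_prod i₀]
    have h4 : ∀ i : {i : Fin n // i ≠ i₀}, G4_uni (K := K) i₀ (X (i : Fin n) ^ (m i)) =
        Polynomial.C (X i ^ (m i)) := by
      intro i
      rw [map_pow, G4_uni_X, dif_neg i.2, Polynomial.C_pow]
    rw [Finset.prod_congr rfl fun i _ => h4 i, map_pow, G4_uni_X, dif_pos rfl, Polynomial.C_mul,
      ← map_prod]
    ring
  rw [h3, Polynomial.coeff_C_mul, Polynomial.coeff_X_pow]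
  by_cases hk : m i₀ = k
  · rw [if_pos hk.symm, if_pos hk]
    simp
  · rw [if_neg (Ne.symm hk), if_neg hk]
    simp

/-- The coprime forms `hom f D`, `hom g D`, `D i = max (deg_i f) (deg_i g)`, have no common zero `x`
with all coordinates but one algebraically independent.
Here `x_i = (c_i, 1)` for `i ≠ i₀` and `x_{i₀} = (c, 1)` or `(1, 0)`.

Proof. `f`, `g` are not both `0`; if `f = 0` then `g` is a unit, i.e. a nonzero constant, `D = 0` and
`hom g D` is this constant: no zero. Similarly for `g = 0`. So `f, g ≠ 0`.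
Via `MvPolynomial.optionEquivLeft` / a renaming `Fin n ≃ Option {i // i ≠ i₀}` regard `f`, `g` as
polynomials in one variable `T` over `A = MvPolynomial {i // i ≠ i₀} K`; they are coprime there
(`IsRelPrime`), and `c` gives an injection `A → Ω`.
Case `x_{i₀} = (1, 0)`: the value of `hom f D` is the image of the coefficient of `T^(D i₀)` in `f`;
for `f` or for `g` this coefficient is nonzero because `D i₀` is the larger of the two degrees; as
`A → Ω` is injective the value is not `0`.
Case `x_{i₀} = (c, 1)`: by Gauss's lemma (`A` is a unique factorisation domain) `f` and `g` are coprime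
in `Frac(A)[T]`: so there are `a, b ∈ A[T]` and `r ∈ A`, `r ≠ 0`, with `a f + b g = r`.
(E.g. `Polynomial.isPrimitive` factorisation: write `f = cont * primpart`; a common factor
of positive degree over `Frac(A)` has a primitive associate in `A[T]` dividing both
(`Polynomial.IsPrimitive.dvd_of_fraction_map_dvd_fraction_map`).) Evaluating at `c` gives
`r(c) = 0`, a contradiction. -/
theorem no_common_zero {K Ω : Type*} [Field K] [Field Ω] [Algebra K Ω] (n : ℕ)
    (f g : MvPolynomial (Fin n) K) (hfg : IsRelPrime f g) (D : Fin n → ℕ)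
    (hD : ∀ i, D i = max (f.degreeOf i) (g.degreeOf i)) (i₀ : Fin n) (x : Fin n → Fin 2 → Ω)
    (hx : ∀ i, i ≠ i₀ → x i 1 = 1)
    (hind : AlgebraicIndependent K (fun i : {i : Fin n // i ≠ i₀} => x i 0))
    (hx0 : x i₀ 1 = 1 ∨ x i₀ = ![1, 0])
    (hf : evl x (hom f D) = 0) (hg : evl x (hom g D) = 0) : False := by
  classical
  let S := {i : Fin n // i ≠ i₀}
  let φ : MvPolynomial S K →ₐ[K] Ω := aeval (fun i : S => x i 0)
  have hφ : Function.Injective φ := hind
  rcases hx0 with hx0 | hx0
  · -- all points are of the form (c, 1)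
    have hxc : x = fun b => ![x b 0, 1] := by
      funext b j
      by_cases hb : b = i₀
      · subst hb
        fin_cases j
        · rfl
        · simpa using hx0
      · fin_cases j
        · rfl
        · simpa using hx b hb
    have hval : ∀ h : MvPolynomial (Fin n) K, evl x (hom h D) =
        Polynomial.eval₂ φ.toRingHom (x i₀ 0) (G4_uni i₀ h) := by
      intro h
      conv_lhs => rw [hxc]
      rw [evl_hom_one, G4_aeval_eq i₀]
    rw [hval] at hf hg
    have hrel : IsRelPrime (G4_uni i₀ f) (G4_uni i₀ g) := by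
      refine IsRelPrime.of_map (G4_uni (K := K) i₀).symm ?_
      simpa using hfg
    obtain ⟨a, b, hab⟩ := G4_gauss _ _ hrel
    let ψ : FractionRing (MvPolynomial S K) →+* Ω :=
      IsFractionRing.lift (A := MvPolynomial S K) (g := φ.toRingHom) hφ
    have hψ : ψ.comp (algebraMap (MvPolynomial S K) (FractionRing (MvPolynomial S K))) =
        φ.toRingHom := by
      ext r
      · simp [ψ]
      · simp [ψ]
    have h1 := congrArg (Polynomial.eval₂ ψ (x i₀ 0)) hab
    rw [Polynomial.eval₂_add, Polynomial.eval₂_mul, Polynomial.eval₂_mul, Polynomial.eval₂_map,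
      Polynomial.eval₂_map, hψ, hf, hg, Polynomial.eval₂_one] at h1
    simp at h1
  · -- x i₀ = (1, 0)
    have hval : ∀ h : MvPolynomial (Fin n) K, (∀ i, h.degreeOf i ≤ D i) → evl x (hom h D) =
        φ ((G4_uni i₀ h).coeff (D i₀)) := by
      intro h hdeg
      rw [G4_evl_hom, G4_coeff]
      refine Finset.sum_congr rfl fun m hm => ?_
      rw [G4_prod i₀, hx0]
      have hle : m i₀ ≤ D i₀ := (MvPolynomial.degreeOf_le_iff.1 (hdeg i₀)) m hm
      have hprod : ∏ i : {i : Fin n // i ≠ i₀}, (x i 0 ^ (m i) * x i 1 ^ (D i - m i)) =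
          ∏ i : {i : Fin n // i ≠ i₀}, x i 0 ^ (m i) := by
        refine Finset.prod_congr rfl fun i _ => ?_
        rw [hx i i.2]
        simp
      rw [hprod]
      by_cases hk : m i₀ = D i₀
      · rw [if_pos hk, hk]
        simp
      · rw [if_neg hk]
        have : D i₀ - m i₀ ≠ 0 := by omega
        simp [this]
    have hfD : ∀ i, f.degreeOf i ≤ D i := fun i => (hD i) ▸ le_max_left _ _
    have hgD : ∀ i, g.degreeOf i ≤ D i := fun i => (hD i) ▸ le_max_right _ _
    rw [hval f hfD] at hf
    rw [hval g hgD] at hg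
    have hf0 : (G4_uni i₀ f).coeff (D i₀) = 0 := hφ (by rw [hf, map_zero])
    have hg0 : (G4_uni i₀ g).coeff (D i₀) = 0 := hφ (by rw [hg, map_zero])
    have hdeg : ∀ h : MvPolynomial (Fin n) K, h.degreeOf i₀ = (G4_uni i₀ h).natDegree := by
      intro h
      have h1 := MvPolynomial.degreeOf_eq_natDegree i₀ h
      exact h1
    have hzero : ∀ h : MvPolynomial (Fin n) K, D i₀ = h.degreeOf i₀ →
        (G4_uni i₀ h).coeff (D i₀) = 0 → h = 0 := by
      intro h h1 h2
      rw [h1, hdeg h] at h2
      have h3 : (G4_uni i₀ h).leadingCoeff = 0 := h2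
      rw [Polynomial.leadingCoeff_eq_zero] at h3
      exact (map_eq_zero_iff _ (G4_uni (K := K) i₀).injective).1 h3
    rcases le_total (g.degreeOf i₀) (f.degreeOf i₀) with hle | hle
    · have hf1 : f = 0 := hzero f (by rw [hD i₀, max_eq_left hle]) hf0
      subst hf1
      have hDg : D i₀ = g.degreeOf i₀ := by
        rw [hD i₀]
        simp
      have hg1 : g = 0 := hzero g hDg hg0
      subst hg1
      exact not_isUnit_zero (hfg (dvd_refl 0) (dvd_refl 0))
    · have hg1 : g = 0 := hzero g (by rw [hD i₀, max_eq_right hle]) hg0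
      subst hg1
      have hDf : D i₀ = f.degreeOf i₀ := by
        rw [hD i₀]
        simp
      have hf1 : f = 0 := hzero f hDf hf0
      subst hf1
      exact not_isUnit_zero (hfg (dvd_refl 0) (dvd_refl 0))

end Pool.Agent.Lib.MP_17a322_nt.RO
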