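import Pool.Agent.Lib.MP_17a322_nt.RO.D3
import Pool.Agent.Lib.MP_17a322_nt.RO.E0
import Pool.Agent.Lib.MP_17a322_nt.RO.G1
import Pool.Agent.Lib.MP_17a322_nt.RO.G2
import Pool.Agent.Lib.MP_17a322_nt.RO.G4

/-!
A generic translate of the elliptic curve does not meet the common zeros.
-/

namespace Pool.Agent.Lib.MP_17a322_nt.RO

open MvPolynomial WeierstrassCurve

universe u

/-- The relative algebraic closure of `L` in `Ω`. -/
noncomputable def G5_cl {K Ω : Type*} [Field K] [Field Ω] [Algebra K Ω]
    (L : IntermediateField K Ω) : IntermediateField K Ω :=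
  (algebraicClosure L Ω).restrictScalars K

theorem G5_mem_cl {K Ω : Type*} [Field K] [Field Ω] [Algebra K Ω]
    (L : IntermediateField K Ω) (x : Ω) : x ∈ G5_cl L ↔ IsAlgebraic L x := by
  rw [G5_cl, IntermediateField.mem_restrictScalars, mem_algebraicClosure_iff]

theorem G5_closed {K Ω : Type*} [Field K] [Field Ω] [Algebra K Ω]
    (L : IntermediateField K Ω) (x : Ω) (hx : IsAlgebraic (G5_cl L) x) : x ∈ G5_cl L := by
  rw [G5_mem_cl]
  have h1 : IsAlgebraic (algebraicClosure L Ω) x := hx
  exact h1.restrictScalars L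

theorem G5_le_cl {K Ω : Type*} [Field K] [Field Ω] [Algebra K Ω]
    (L : IntermediateField K Ω) (x : Ω) (hx : x ∈ L) : x ∈ G5_cl L := by
  rw [G5_mem_cl]
  exact isAlgebraic_algebraMap (⟨x, hx⟩ : L)

/-- Affine coordinate of a point, `0` for the point at infinity. -/
noncomputable def G5_z {F : Type*} [Field F] {V : WeierstrassCurve F}
    (P : V.toAffine.Point) : F := P.xRep 0 * P.xRep 1

theorem G5_z_cases {F : Type*} [Field F] {V : WeierstrassCurve F} (P : V.toAffine.Point) :
    (P = 0 ∧ P.xRep = ![1, 0] ∧ G5_z P = 0) ∨ P.xRep = ![G5_z P, 1] := by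
  cases P with
  | zero => exact Or.inl ⟨rfl, rfl, by simp [G5_z]; exact Or.inr rfl⟩
  | some x y h => exact Or.inr (by simp [G5_z])

theorem G5_z_ne {F : Type*} [Field F] {V : WeierstrassCurve F} (P : V.toAffine.Point)
    (h : G5_z P ≠ 0) : P.xRep = ![G5_z P, 1] := by
  rcases G5_z_cases P with ⟨-, -, h1⟩ | h1
  · exact absurd h1 h
  · exact h1

theorem G5_mem {K Ω : Type*} [Field K] [Field Ω] [Algebra K Ω] (L : IntermediateField K Ω)
    {V : WeierstrassCurve Ω} (P : V.toAffine.Point) (h : G5_z P ∈ L) : ∀ i, P.xRep i ∈ L := by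
  intro i
  rcases G5_z_cases P with ⟨-, h1, -⟩ | h1
  · rw [h1]
    fin_cases i
    · exact L.one_mem
    · exact L.zero_mem
  · rw [h1]
    fin_cases i
    · exact h
    · exact L.one_mem

theorem G5_evl_mem {K Ω B : Type*} [Field K] [Field Ω] [Algebra K Ω] (L : IntermediateField K Ω)
    (x : B → Fin 2 → Ω) (hx : ∀ b i, x b i ∈ L) (φ : MvPolynomial (B × Fin 2) K) :
    evl x φ ∈ L := by
  have h1 : evl x φ ∈ Algebra.adjoin K (Set.range fun p : B × Fin 2 => x p.1 p.2) := by
    rw [Algebra.adjoin_range_eq_range_aeval]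
    exact ⟨φ, rfl⟩
  have h2 : Algebra.adjoin K (Set.range fun p : B × Fin 2 => x p.1 p.2) ≤ L.toSubalgebra := by
    refine Algebra.adjoin_le ?_
    rintro _ ⟨p, rfl⟩
    exact hx p.1 p.2
  exact h2 h1

theorem G5_evl_hom {K A B : Type*} [CommRing K] [CommRing A] [Algebra K A] [Fintype B]
    (f : MvPolynomial B K) (D : B → ℕ) (x : B → Fin 2 → A) :
    evl x (hom f D) =
      ∑ m ∈ f.support, algebraMap K A (coeff m f) * ∏ b, (x b 0 ^ (m b) * x b 1 ^ (D b - m b)) := by
  simp [evl, hom]

theorem G5_zero {K Ω : Type*} [Field K] [Field Ω] [Algebra K Ω] (n : ℕ)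
    (g : MvPolynomial (Fin n) K) (hg : IsUnit g) (D : Fin n → ℕ)
    (hD : ∀ i, D i = max ((0 : MvPolynomial (Fin n) K).degreeOf i) (g.degreeOf i))
    (x : Fin n → Fin 2 → Ω) : evl x (hom g D) ≠ 0 := by
  classical
  obtain ⟨a, ha, hga⟩ : ∃ a : K, a ≠ 0 ∧ g = C a := by
    rw [MvPolynomial.isUnit_iff_eq_C_of_isReduced] at hg
    obtain ⟨r, hr, hgr⟩ := hg
    exact ⟨r, hr.ne_zero, hgr⟩
  have hD0 : ∀ i, D i = 0 := by
    intro i
    rw [hD i, hga, degreeOf_zero, degreeOf_C]
    rfl
  rw [G5_evl_hom]
  have hsupp : g.support = {0} := by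
    rw [hga, ← monomial_zero', support_monomial, if_neg ha]
  rw [hsupp, Finset.sum_singleton]
  have h1 : coeff 0 g = a := by
    rw [hga, coeff_zero_C]
  rw [h1]
  simp [hD0, ha]

/-- Let `w` be algebraically independent coordinates in the algebraically closed field `Ω` and `q_i`
points with `x(q_i) = (w_i, 1)`. Then for all points `Q` and signs `σ`, `τ` the forms `hom f D` at
`x(ℓ_i Q + σ_i q_i)` and `hom g D` at `x(ℓ_i Q + τ_i q_i)` are not both zero.

Proof. If `f = 0` then `g` is a nonzero constant, `D = 0`, and `hom g D` is this constant: done; the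
same if `g = 0`. Let `f, g ≠ 0`. Put `p_i = ℓ_i Q + σ_i q_i`, `p'_i = ℓ_i Q + τ_i q_i` and suppose
`hom f D (x(p)) = 0 = hom g D (x(p'))`. Let `z none = x(Q)` if `Q ≠ 0` and `0` if `Q = 0`;
`z (some i) = x(p_i)` if `p_i ≠ 0` and `0` if `p_i = 0`.
(1) Each `w_i` is algebraic over `K(range z)`: let `F₁` be the algebraic closure of `K(range z)` in `Ω`
(an intermediate field that contains everything algebraic over it); `xRep` of `Q` and `p_i` lie
in `F₁`, so by `xRep_zsmul_add_mem` that of `q_i = ± (p_i - ℓ_i Q)`.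
(2) `(z (some i))_i` is not algebraically independent: if some `p_i = 0` its entry is `0`; otherwise
`hom f D (x(p)) = f(z) = 0` with `f ≠ 0` (`evl_hom_one`).
(3) By `exists_exchange` there is `i₀` such that `z none` and the `z (some i)`, `i ≠ i₀`, are
algebraically independent; in particular `Q ≠ 0` and `p_i ≠ 0` for `i ≠ i₀` (an entry `0` is not
transcendental). Let `F` be the algebraic closure in `Ω` of `K(z (some i), i ≠ i₀)`; then
`x(Q) ∉ F` (otherwise the family would be dependent).
(4) `x(p_{i₀})` has coordinates in `F`: clear if `p_{i₀} = 0`; otherwise `algebraic_of_zero`.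
(5) Let `k_i = 2 ℓ_i` if `σ_i ≠ τ_i` and `0` otherwise. Then `x(p'_i) = x(k_i Q + s_i p_i)` for a
suitable sign `s_i` : if `σ_i = τ_i`, `p'_i = p_i`; otherwise `p'_i = 2 ℓ_i Q - p_i`. Apply
`exists_trans` with `ℓ := k`, `f = g := hom g D` (`mh_hom`), `q := p`: the binary form
`χ = φ(·, x(p))` has coefficients in `F` (`exists_coeffs`, the `x(p_i)` have coordinates in
`F`) and vanishes at `x(Q) = (z none, 1)`, because the product contains the factor
`hom g D (x(p')) = 0`. As `z none` is transcendental over `F` (not in `F`), all coefficients of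
`χ` vanish, so `χ` vanishes at `x(0) = (1, 0)` as well, and the product formula at `Q = 0` gives
`hom g D (x(± p_i)) = 0`, i.e. `hom g D (x(p)) = 0` (`Point.xRep_neg`).
(6) Now `hom f D` and `hom g D` both vanish at `x(p)`, against `no_common_zero`. -/
theorem generic_translate {K : Type u} [Field K] [CharZero K] (W : WeierstrassCurve K)
    [W.IsElliptic] (n : ℕ) (f g : MvPolynomial (Fin n) K) (hfg : IsRelPrime f g) (D : Fin n → ℕ)
    (hD : ∀ i, D i = max (f.degreeOf i) (g.degreeOf i)) (ℓ : Fin n → ℤ) (Ω : Type u) [Field Ω]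
    [DecidableEq Ω] [Algebra K Ω] [IsAlgClosed Ω] (w : Fin n → Ω)
    (hw : AlgebraicIndependent K w)
    (q : Fin n → (W.map (algebraMap K Ω)).toAffine.Point) (hq : ∀ i, (q i).xRep = ![w i, 1])
    (Q : (W.map (algebraMap K Ω)).toAffine.Point) (σ τ : Fin n → Bool)
    (hf : evl (fun i => (ℓ i • Q + sg (σ i) (q i)).xRep) (hom f D) = 0)
    (hg : evl (fun i => (ℓ i • Q + sg (τ i) (q i)).xRep) (hom g D) = 0) : False := by
  classical
  by_cases hf0 : f = 0
  · subst hf0
    refine G5_zero n g ?_ D hD _ hg
    exact isRelPrime_zero_left.1 hfg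
  set p : Fin n → (W.map (algebraMap K Ω)).toAffine.Point :=
    fun i => ℓ i • Q + sg (σ i) (q i) with hp
  set p' : Fin n → (W.map (algebraMap K Ω)).toAffine.Point :=
    fun i => ℓ i • Q + sg (τ i) (q i) with hp'
  let z : Option (Fin n) → Ω := fun o => o.elim (G5_z Q) (fun i => G5_z (p i))
  -- (1)
  have halg : ∀ i, IsAlgebraic (IntermediateField.adjoin K (Set.range z)) (w i) := by
    intro i
    rw [← G5_mem_cl]
    have hQm : ∀ j, Q.xRep j ∈ G5_cl (IntermediateField.adjoin K (Set.range z)) := by
      refine G5_mem _ Q (G5_le_cl _ _ ?_)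
      exact IntermediateField.subset_adjoin K _ ⟨none, rfl⟩
    have hpm : ∀ j, (p i).xRep j ∈ G5_cl (IntermediateField.adjoin K (Set.range z)) := by
      refine G5_mem _ (p i) (G5_le_cl _ _ ?_)
      exact IntermediateField.subset_adjoin K _ ⟨some i, rfl⟩
    have h1 := xRep_zsmul_add_mem W (G5_cl (IntermediateField.adjoin K (Set.range z)))
      (G5_closed _) (p i) Q hpm hQm (-ℓ i) true 0
    have h2 : sg true (p i) + (-ℓ i) • Q = sg (σ i) (q i) := by
      simp only [sg, hp, if_true, neg_smul]
      abel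
    rw [h2] at h1
    have h3 : (sg (σ i) (q i)).xRep = (q i).xRep := by
      unfold sg
      split_ifs
      · rfl
      · exact Affine.Point.xRep_neg _
    rw [h3, hq i] at h1
    exact h1
  -- (2)
  have hdep : ¬ AlgebraicIndependent K (fun i : Fin n => z (some i)) := by
    intro hind
    have h1 : (fun i => (p i).xRep) = fun i => ![z (some i), 1] := by
      funext i
      exact G5_z_ne (p i) (hind.ne_zero i)
    rw [h1, evl_hom_one] at hf
    exact hf0 (hind.eq_zero_of_aeval_eq_zero f hf)
  -- (3)
  obtain ⟨i₀, hi₀⟩ := exists_exchange n z w hw halg hdep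
  have hQz : z none ≠ 0 := hi₀.ne_zero ⟨none, by simp⟩
  have hQx : Q.xRep = ![z none, 1] := G5_z_ne Q hQz
  have hpz : ∀ i, i ≠ i₀ → (p i).xRep = ![z (some i), 1] := by
    intro i hi
    exact G5_z_ne (p i) (hi₀.ne_zero ⟨some i, by simpa using hi⟩)
  let c : {i : Fin n // i ≠ i₀} → Ω := fun i => z (some i)
  have hcind : AlgebraicIndependent K c :=
    hi₀.comp (fun i : {i : Fin n // i ≠ i₀} =>
      (⟨some i, by simpa using i.2⟩ : {j : Option (Fin n) // j ≠ some i₀}))
      (fun a b hab => Subtype.ext (Option.some_injective _ (congrArg Subtype.val hab)))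
  have htr : Transcendental (IntermediateField.adjoin K (Set.range c)) (z none) := by
    rw [IntermediateField.transcendental_adjoin_iff]
    rw [← hcind.option_iff_transcendental]
    have h1 := hi₀.comp (fun o : Option {i : Fin n // i ≠ i₀} =>
      (⟨o.elim none (fun i => some i), by
        rcases o with _ | i
        · simp
        · simpa using i.2⟩ : {j : Option (Fin n) // j ≠ some i₀})) (by
        intro a b hab
        have h2 := congrArg Subtype.val hab
        rcases a with _ | a <;> rcases b with _ | b <;> simp at h2 ⊢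
        exact Subtype.ext h2)
    have h2 : ((fun j : {j : Option (Fin n) // j ≠ some i₀} => z j) ∘
        (fun o : Option {i : Fin n // i ≠ i₀} =>
      (⟨o.elim none (fun i => some i), by
        rcases o with _ | i
        · simp
        · simpa using i.2⟩ : {j : Option (Fin n) // j ≠ some i₀}))) =
        fun o : Option {i : Fin n // i ≠ i₀} => o.elim (z none) c := by
      funext o
      rcases o with _ | i <;> rfl
    rw [h2] at h1
    exact h1
  set F := G5_cl (IntermediateField.adjoin K (Set.range c)) with hF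
  have hzF : z none ∉ F := by
    rw [hF, G5_mem_cl]
    exact htr
  have hzFt : Transcendental F (z none) := fun h => hzF (G5_closed _ _ h)
  -- (4)
  have hpF : ∀ i j, (p i).xRep j ∈ F := by
    intro i
    by_cases hi : i = i₀
    · subst hi
      rcases G5_z_cases (p i) with ⟨-, h1, -⟩ | h1
      · intro j
        rw [h1]
        fin_cases j
        · exact F.one_mem
        · exact F.zero_mem
      · refine G5_mem F (p i) ?_
        have h2 : (fun i => (p i).xRep) = fun i => ![z (some i), 1] := by
          funext j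
          by_cases hj : j = i
          · subst hj
            exact h1
          · exact hpz j hj
        rw [h2, evl_hom_one] at hf
        have h3 := algebraic_of_zero n f hf0 i (fun i => z (some i)) hcind hf
        rw [hF, G5_mem_cl]
        exact h3
    · refine G5_mem F (p i) (G5_le_cl _ _ ?_)
      exact IntermediateField.subset_adjoin K _ ⟨⟨i, hi⟩, rfl⟩
  -- (5)
  let k : Fin n → ℤ := fun i => if σ i = τ i then 0 else 2 * ℓ i
  let s : Fin n → Bool := fun i => if σ i = τ i then true else false
  have hp's : ∀ i, k i • Q + sg (s i) (p i) = p' i := by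
    intro i
    by_cases h : σ i = τ i
    · simp only [k, s, h, if_true, sg, hp, hp', zero_smul, zero_add]
    · simp only [k, s, h, if_false, sg, hp, hp']
      rcases hσ : σ i with _ | _ <;> rcases hτ : τ i with _ | _
      · exact absurd (hσ.trans hτ.symm) h
      · simp only [Bool.false_eq_true, if_false, if_true, mul_smul, two_smul]
        abel
      · simp only [Bool.false_eq_true, if_false, if_true, mul_smul, two_smul]
        abel
      · exact absurd (hσ.trans hτ.symm) h
  have hgD : ∀ i, g.degreeOf i ≤ D i := fun i => (hD i) ▸ le_max_right _ _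
  obtain ⟨φ, ψ, hφ, hψ, hval⟩ := exists_trans W D k (hom g D) (hom g D) (mh_hom g D hgD)
    (mh_hom g D hgD)
  obtain ⟨cf, -, hcf⟩ := exists_coeffs _ _ φ hφ
  set d := 2 ^ Fintype.card (Fin n) * ∑ b, D b * (k b).natAbs ^ 2 with hd
  set X' : Fin n → Fin 2 → Ω := fun i => (p i).xRep with hX'
  obtain ⟨e, he, h1, -⟩ := hval Ω (W.map (algebraMap K Ω)) rfl Q p
  have h2 : ∏ σ' : Fin n → Bool, evl (fun b => (k b • Q + sg (σ' b) (p b)).xRep) (hom g D) = 0 := by
    refine Finset.prod_eq_zero (Finset.mem_univ s) ?_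
    simp only [hp's]
    exact hg
  rw [h2, mul_zero, hcf, hQx] at h1
  have hmem : ∀ j, evl X' (cf j) ∈ F := fun j => G5_evl_mem F X' hpF (cf j)
  have hcoef : ∀ j ∈ Finset.range (d + 1), evl X' (cf j) = 0 := by
    let P : Polynomial F := ∑ j ∈ Finset.range (d + 1),
      Polynomial.C (⟨evl X' (cf j), hmem j⟩ : F) * Polynomial.X ^ j
    have hP0 : Polynomial.aeval (z none) P = 0 := by
      rw [map_sum, ← h1]
      refine Finset.sum_congr rfl fun j _ => ?_
      rw [map_mul, Polynomial.aeval_C, map_pow, Polynomial.aeval_X]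
      simp only [Matrix.cons_val_zero, Matrix.cons_val_one, one_pow, mul_one]
      rfl
    have hP : P = 0 := by
      by_contra hne
      exact hzFt ⟨P, hne, hP0⟩
    intro j hj
    have h3 : P.coeff j = ⟨evl X' (cf j), hmem j⟩ := by
      rw [Polynomial.finsetSum_coeff]
      simp only [Polynomial.coeff_C_mul, Polynomial.coeff_X_pow]
      rw [Finset.sum_eq_single j]
      · simp
      · intro b _ hb
        simp [Ne.symm hb]
      · intro hj'
        exact absurd hj hj'
    rw [hP, Polynomial.coeff_zero] at h3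
    exact (congrArg Subtype.val h3).symm
  obtain ⟨e', he', h3, -⟩ := hval Ω (W.map (algebraMap K Ω)) rfl 0 p
  have h4 : evl (pv (0 : (W.map (algebraMap K Ω)).toAffine.Point).xRep X') φ = 0 := by
    rw [hcf]
    refine Finset.sum_eq_zero fun j hj => ?_
    rw [hcoef j hj]
    simp
  have h5 : ∀ σ' : Fin n → Bool,
      (fun b => (k b • (0 : (W.map (algebraMap K Ω)).toAffine.Point) + sg (σ' b) (p b)).xRep) =
        X' := by
    intro σ'
    funext b
    rw [smul_zero, zero_add]
    unfold sg
    split_ifs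
    · rfl
    · exact Affine.Point.xRep_neg _
  have h6 : evl X' (hom g D) = 0 := by
    have h7 : e' * ∏ σ' : Fin n → Bool, evl X' (hom g D) = 0 := by
      rw [← h4, h3]
      congr 1
      refine Finset.prod_congr rfl fun σ' _ => ?_
      rw [h5 σ']
    have h8 := (mul_eq_zero.1 h7).resolve_left he'
    rw [Finset.prod_const] at h8
    exact pow_eq_zero_iff (Finset.card_ne_zero.2 Finset.univ_nonempty) |>.1 h8
  -- (6)
  refine no_common_zero n f g hfg D hD i₀ X' ?_ ?_ ?_ hf h6
  · intro i hi
    rw [hX']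
    simp only
    rw [hpz i hi]
    rfl
  · have h7 : (fun i : {i : Fin n // i ≠ i₀} => X' i 0) = c := by
      funext i
      rw [hX']
      simp only
      rw [hpz i i.2]
      rfl
    rw [h7]
    exact hcind
  · rcases G5_z_cases (p i₀) with ⟨-, h1, -⟩ | h1
    · exact Or.inr h1
    · left
      rw [hX']
      simp only
      rw [h1]
      rfl

end Pool.Agent.Lib.MP_17a322_nt.RO
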