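import Pool.Agent.Lib.MP_17a322_nt.RO.A1
import Pool.Agent.Lib.MP_17a322_nt.RO.B1

/-!
Binary forms of degree k^2 giving the x-coordinate of k Q.
-/

namespace Pool.Agent.Lib.MP_17a322_nt.RO

open MvPolynomial WeierstrassCurve

universe u

/-- The forms `a`, `b` compute `x(k Q)`. -/
def B2_Good {K : Type u} [Field K] (W : WeierstrassCurve K) (k : ℕ)
    (a b : MvPolynomial (Fin 2) K) : Prop :=
  a.IsHomogeneous (k ^ 2) ∧ b.IsHomogeneous (k ^ 2) ∧
    ∀ (F : Type u) [Field F] [DecidableEq F] [Algebra K F] (V : WeierstrassCurve F),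
      W.map (algebraMap K F) = V → ∀ Q : V.toAffine.Point,
        ∃ c : F, c ≠ 0 ∧ aeval Q.xRep a = c * (k • Q).xRep 0 ∧
          aeval Q.xRep b = c * (k • Q).xRep 1

theorem B2_scale {K F ι : Type*} [Field K] [Field F] [Algebra K F] [Fintype ι]
    (φ : MvPolynomial ι K) (n : ℕ) (h : φ.IsHomogeneous n) (t : F) (x : ι → F) :
    aeval (fun i => t * x i) φ = t ^ n * aeval x φ := by
  rw [aeval_def, aeval_def, eval₂_eq', eval₂_eq', Finset.mul_sum]
  refine Finset.sum_congr rfl fun m hm => ?_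
  have hd : ∑ i, m i = n := by
    have := h.degree_eq_sum_deg_support hm
    rw [this]
    refine (Finset.sum_subset (Finset.subset_univ _) ?_).symm
    intro i _ hi
    simpa using hi
  have : ∏ i, (t * x i) ^ m i = t ^ n * ∏ i, x i ^ m i := by
    simp_rw [mul_pow]
    rw [Finset.prod_mul_distrib, Finset.prod_pow_eq_pow_sum, hd]
  rw [this]
  ring

theorem B2_map {K F : Type*} [Field K] [Field F] [Algebra K F] (W : WeierstrassCurve K)
    (i : Fin 3) :
    map (algebraMap K F) (addSubMap W i) = addSubMap (W.map (algebraMap K F)) i := by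
  have h2 : (algebraMap K F) 2 = 2 := map_ofNat _ 2
  have h4 : (algebraMap K F) 4 = 4 := map_ofNat _ 4
  fin_cases i <;> simp [addSubMap, map_b₂, map_b₄, map_b₆, map_b₈, h2, h4]

theorem B2_pair {K : Type u} [Field K] (W : WeierstrassCurve K) [W.IsElliptic] (m n : ℕ)
    (hnm : n ≤ m) (a b a' b' : MvPolynomial (Fin 2) K) (h : B2_Good W m a b)
    (h' : B2_Good W n a' b') :
    (∀ i, (aeval (sq2 ![a, b] ![a', b']) (addSubMap W i)).IsHomogeneous
      ((m ^ 2 + n ^ 2) * 2)) ∧
    ∀ (F : Type u) [Field F] [DecidableEq F] [Algebra K F] (V : WeierstrassCurve F),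
      W.map (algebraMap K F) = V → ∀ Q : V.toAffine.Point,
        ∃ c : F, c ≠ 0 ∧ ∀ i, aeval Q.xRep (aeval (sq2 ![a, b] ![a', b']) (addSubMap W i)) =
          c * (((m + n) • Q).sym2x ((m - n) • Q)) i := by
  obtain ⟨ha, hb, hval⟩ := h
  obtain ⟨ha', hb', hval'⟩ := h'
  refine ⟨?_, ?_⟩
  · intro i
    refine (isHomogeneous_addSubMap W i).aeval _ ?_
    intro j
    fin_cases j
    · simpa [sq2] using ha.mul ha'
    · simpa [sq2] using (ha.mul hb').add (hb.mul ha')
    · simpa [sq2] using hb.mul hb'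
  · intro F _ _ _ V hV Q
    have hell : V.IsElliptic := by
      subst hV
      infer_instance
    obtain ⟨c, hc, h1, h2⟩ := hval F V hV Q
    obtain ⟨c', hc', h1', h2'⟩ := hval' F V hV Q
    obtain ⟨e, he, h3⟩ := addSub_sym2x V (m • Q) (n • Q)
    refine ⟨(c * c') ^ 2 * e, mul_ne_zero (pow_ne_zero 2 (mul_ne_zero hc hc')) he, fun i => ?_⟩
    have hcomp : aeval Q.xRep (aeval (sq2 ![a, b] ![a', b']) (addSubMap W i)) =
        aeval (fun j => (c * c') * ((m • Q).sym2x (n • Q)) j) (addSubMap W i) := by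
      rw [← AlgHom.comp_apply]
      congr 1
      apply MvPolynomial.algHom_ext
      intro j
      rw [AlgHom.comp_apply, aeval_X, aeval_X]
      fin_cases j
      · simp [sq2, h1, h1', Affine.Point.sym2x]
        ring
      · simp [sq2, h1, h1', h2, h2', Affine.Point.sym2x]
        ring
      · simp [sq2, h2, h2', Affine.Point.sym2x]
        ring
    rw [hcomp, B2_scale _ 2 (isHomogeneous_addSubMap W i)]
    have h4 : aeval ((m • Q).sym2x (n • Q)) (addSubMap W i) =
        eval ((m • Q).sym2x (n • Q)) (addSubMap V i) := by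
      have h6 : addSubMap V i = map (algebraMap K F) (addSubMap W i) := by
        rw [B2_map, hV]
      rw [h6, eval_map]
      rfl
    have h5 : m • Q - n • Q = (m - n) • Q := by
      rw [sub_nsmul _ hnm, sub_eq_add_neg]
    rw [h4, h3 i, ← add_nsmul, h5]
    ring

theorem B2_even {K : Type u} [Field K] (W : WeierstrassCurve K) [W.IsElliptic] (j : ℕ)
    (a b : MvPolynomial (Fin 2) K) (h : B2_Good W j a b) :
    B2_Good W (2 * j) (aeval (sq2 ![a, b] ![a, b]) (addSubMap W 0))
      (aeval (sq2 ![a, b] ![a, b]) (addSubMap W 1)) := by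
  obtain ⟨h1, h2⟩ := B2_pair W j j le_rfl a b a b h h
  have hdeg : (j ^ 2 + j ^ 2) * 2 = (2 * j) ^ 2 := by ring
  refine ⟨hdeg ▸ h1 0, hdeg ▸ h1 1, ?_⟩
  intro F _ _ _ V hV Q
  obtain ⟨c, hc, h3⟩ := h2 F V hV Q
  refine ⟨c, hc, ?_, ?_⟩
  · rw [h3 0, Nat.sub_self, zero_nsmul, ← two_mul]
    simp [Affine.Point.sym2x]
  · rw [h3 1, Nat.sub_self, zero_nsmul, ← two_mul]
    simp [Affine.Point.sym2x]

theorem B2_homog_of_mul_X {K : Type*} [Field K] (a : MvPolynomial (Fin 2) K) (i : Fin 2)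
    (n : ℕ) (h : (a * X i).IsHomogeneous (n + 1)) : a.IsHomogeneous n := by
  intro m hm
  have h1 : coeff (m + Finsupp.single i 1) (a * X i) ≠ 0 := by
    rw [coeff_mul_X]
    exact hm
  have h2 := h h1
  rw [map_add] at h2
  have h3 : (Finsupp.weight (1 : Fin 2 → ℕ)) (Finsupp.single i 1) = 1 := by
    simp [Finsupp.weight_single]
  omega

theorem B2_odd {K : Type u} [Field K] (W : WeierstrassCurve K) [W.IsElliptic] (j : ℕ)
    (a b a' b' : MvPolynomial (Fin 2) K) (h : B2_Good W (j + 1) a b) (h' : B2_Good W j a' b') :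
    ∃ p q, B2_Good W (2 * j + 1) p q := by
  classical
  obtain ⟨h1, h2⟩ := B2_pair W (j + 1) j (Nat.le_succ j) a b a' b' h h'
  set S : Fin 3 → MvPolynomial (Fin 2) K :=
    fun i => aeval (sq2 ![a, b] ![a', b']) (addSubMap W i) with hS
  have hdeg : ((j + 1) ^ 2 + j ^ 2) * 2 = (2 * j + 1) ^ 2 + 1 := by ring
  rw [hdeg] at h1
  have h3 : ∀ (F : Type u) [Field F] [DecidableEq F] [Algebra K F] (V : WeierstrassCurve F),
      W.map (algebraMap K F) = V → ∀ Q : V.toAffine.Point,
        ∃ c : F, c ≠ 0 ∧ ∀ i, aeval Q.xRep (S i) =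
          c * (((2 * j + 1) • Q).sym2x Q) i := by
    intro F _ _ _ V hV Q
    obtain ⟨c, hc, h4⟩ := h2 F V hV Q
    refine ⟨c, hc, fun i => ?_⟩
    have h5 : j + 1 + j = 2 * j + 1 := by ring
    have h6 : j + 1 - j = 1 := by omega
    rw [h5, h6, one_nsmul] at h4
    exact h4 i
  -- the relation between the three forms
  have hrel : S 0 * X 1 ^ 2 - S 1 * X 0 * X 1 + S 2 * X 0 ^ 2 = 0 := by
    set R := S 0 * X 1 ^ 2 - S 1 * X 0 * X 1 + S 2 * X 0 ^ 2 with hR
    have hRh : R.IsHomogeneous ((2 * j + 1) ^ 2 + 1 + 2) := by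
      have hX0 : (X 0 : MvPolynomial (Fin 2) K).IsHomogeneous 1 := isHomogeneous_X _ _
      have hX1 : (X 1 : MvPolynomial (Fin 2) K).IsHomogeneous 1 := isHomogeneous_X _ _
      refine ((h1 0).mul (hX1.pow 2)).sub ?_ |>.add ((h1 2).mul (hX0.pow 2))
      exact ((h1 1).mul hX0).mul hX1
    let Ω := AlgebraicClosure K
    have hinj : Function.Injective (map (algebraMap K Ω) : MvPolynomial (Fin 2) K → _) :=
      map_injective _ (algebraMap K Ω).injective
    apply hinj
    rw [map_zero]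
    apply MvPolynomial.funext
    intro u
    rw [eval_map, map_zero]
    change aeval u R = 0
    by_cases hu : u = 0
    · subst hu
      have := B2_scale R _ hRh (0 : Ω) (0 : Fin 2 → Ω)
      rw [pow_succ, mul_zero, zero_mul] at this
      simpa using this
    · obtain ⟨Q, c, hc, hQ⟩ := exists_point (W.map (algebraMap K Ω)) u hu
      obtain ⟨e, he, h4⟩ := h3 Ω (W.map (algebraMap K Ω)) rfl Q
      have hQ' : u = fun i => c * Q.xRep i := hQ
      rw [hQ', B2_scale R _ hRh c Q.xRep]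
      have h5 : aeval Q.xRep R = 0 := by
        rw [hR]
        simp only [map_add, map_sub, map_mul, map_pow, aeval_X, h4]
        simp [Affine.Point.sym2x]
        ring
      rw [h5, mul_zero]
  have hX01 : ¬ (X 0 : MvPolynomial (Fin 2) K) ∣ X 1 := by
    rw [X_dvd_X]
    decide
  have hX10 : ¬ (X 1 : MvPolynomial (Fin 2) K) ∣ X 0 := by
    rw [X_dvd_X]
    decide
  have hd0 : (X 0 : MvPolynomial (Fin 2) K) ∣ S 0 := by
    have h5 : (X 0 : MvPolynomial (Fin 2) K) ∣ S 0 * X 1 ^ 2 :=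
      ⟨S 1 * X 1 - S 2 * X 0, by linear_combination hrel⟩
    rcases (X_prime (i := (0 : Fin 2)) (R := K)).dvd_or_dvd h5 with h6 | h6
    · exact h6
    · exact absurd ((X_prime (i := (0 : Fin 2)) (R := K)).dvd_of_dvd_pow h6) hX01
  have hd1 : (X 1 : MvPolynomial (Fin 2) K) ∣ S 2 := by
    have h5 : (X 1 : MvPolynomial (Fin 2) K) ∣ S 2 * X 0 ^ 2 :=
      ⟨S 1 * X 0 - S 0 * X 1, by linear_combination hrel⟩
    rcases (X_prime (i := (1 : Fin 2)) (R := K)).dvd_or_dvd h5 with h6 | h6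
    · exact h6
    · exact absurd ((X_prime (i := (1 : Fin 2)) (R := K)).dvd_of_dvd_pow h6) hX10
  obtain ⟨p, hp⟩ := hd0
  obtain ⟨q, hq⟩ := hd1
  have hS1 : S 1 = p * X 1 + q * X 0 := by
    have h5 : (X 0 * X 1 : MvPolynomial (Fin 2) K) * (p * X 1 + q * X 0 - S 1) = 0 := by
      rw [hp, hq] at hrel
      linear_combination hrel
    have h6 : (X 0 * X 1 : MvPolynomial (Fin 2) K) ≠ 0 :=
      mul_ne_zero (X_ne_zero _) (X_ne_zero _)
    have h7 := (mul_eq_zero.1 h5).resolve_left h6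
    exact (sub_eq_zero.1 h7).symm
  refine ⟨p, q, ?_, ?_, ?_⟩
  · refine B2_homog_of_mul_X p 0 _ ?_
    rw [mul_comm, ← hp]
    exact h1 0
  · refine B2_homog_of_mul_X q 1 _ ?_
    rw [mul_comm, ← hq]
    exact h1 2
  · intro F _ _ _ V hV Q
    obtain ⟨c, hc, h4⟩ := h3 F V hV Q
    have e0 := h4 0
    have e1 := h4 1
    have e2 := h4 2
    rw [hp] at e0
    rw [hS1] at e1
    rw [hq] at e2
    simp only [map_add, map_mul, aeval_X, Affine.Point.sym2x] at e0 e1 e2
    refine ⟨c, hc, ?_⟩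
    set y := ((2 * j + 1) • Q).xRep with hy
    have hx : Q.xRep = ![1, 0] ∨ ∃ t, Q.xRep = ![t, 1] := by
      cases Q with
      | zero => exact Or.inl rfl
      | some x y h => exact Or.inr ⟨x, rfl⟩
    rcases hx with hx | ⟨t, hx⟩
    · rw [hx] at e0 e1 e2 ⊢
      simp at e0 e1 e2 ⊢
      exact ⟨e0, e1⟩
    · rw [hx] at e0 e1 e2 ⊢
      simp at e0 e1 e2 ⊢
      refine ⟨?_, e2⟩
      linear_combination e1 - t * e2

/-- There are binary forms `a`, `b` of degree `k ^ 2` over `K` such that, over every extension `F` of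
`K` and for every point `Q` over `F`, `(a(x(Q)), b(x(Q)))` is a nonzero multiple of `x(k • Q)`.

Proof by strong induction. `k = 0`: `(1, 0)`; `k = 1`: `(X 0, X 1)`. `k = 2 j`, `j ≥ 1`:
`a = aeval ![a_j^2, 2 a_j b_j, b_j^2] (addSubMap W 0)`, `b = aeval ... (addSubMap W 1)` (apply
`addSub_sym2x` to `P = Q = j • Q`; `sym2x (2j Q) 0 = (x_0, x_1, 0)`; the curve over `F` is
`V = W.map (algebraMap K F)`, and `addSubMap V i` is `map` of `addSubMap W i`).
`k = 2 j + 1`: let `S i = aeval (sq2 (a_{j+1}, b_{j+1}) (a_j, b_j)) (addSubMap W i)`, forms of degree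
`2 ((j+1)^2 + j^2) = k^2 + 1`. By `addSub_sym2x` for `(j+1) • Q` and `j • Q`, `S (x(Q))` is a nonzero
multiple of `sym2x (k • Q) Q`. Hence `S 0 * X 1 ^ 2 - S 1 * X 0 * X 1 + S 2 * X 0 ^ 2` vanishes at
every nonzero vector over an algebraically closed `F` (every nonzero vector of length two is a
nonzero multiple of some `Q.xRep`: given `x` solve the Weierstrass equation for `y`, the point is
nonsingular by `equation_iff_nonsingular`), so it is the zero polynomial
(`MvPolynomial.funext`, map to `AlgebraicClosure K`, which is infinite). As `X 0`, `X 1` are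
non-associated primes, `S 0 = X 0 * a` and `S 2 = X 1 * b`, and then `S 1 = a * X 1 + b * X 0`;
`a`, `b` are homogeneous of degree `k^2`. Comparing `(a x_0, a x_1 + b x_0, b x_1)` with
`c (y_0 x_0, y_0 x_1 + y_1 x_0, y_1 x_1)`, `(x_0, x_1) = Q.xRep ≠ 0`, gives `(a, b) = c y`. -/
theorem exists_mulForm {K : Type u} [Field K] (W : WeierstrassCurve K) [W.IsElliptic] (k : ℕ) :
    ∃ a b : MvPolynomial (Fin 2) K, a.IsHomogeneous (k ^ 2) ∧ b.IsHomogeneous (k ^ 2) ∧
      ∀ (F : Type u) [Field F] [DecidableEq F] [Algebra K F] (V : WeierstrassCurve F),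
        W.map (algebraMap K F) = V → ∀ Q : V.toAffine.Point,
          ∃ c : F, c ≠ 0 ∧ aeval Q.xRep a = c * (k • Q).xRep 0 ∧
            aeval Q.xRep b = c * (k • Q).xRep 1 := by
  induction k using Nat.strong_induction_on with
  | _ k ih =>
    have hgood : ∃ a b, B2_Good W k a b := by
      rcases Nat.lt_or_ge k 2 with hk | hk
      · rcases Nat.lt_or_ge k 1 with hk1 | hk1
        · have hk0 : k = 0 := by omega
          subst hk0
          refine ⟨1, 0, ?_, ?_, ?_⟩
          · simpa using isHomogeneous_one (Fin 2) K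
          · exact isHomogeneous_zero _ _ _
          · intro F _ _ _ V hV Q
            exact ⟨1, one_ne_zero, by simp, by simp⟩
        · have hk0 : k = 1 := by omega
          subst hk0
          refine ⟨X 0, X 1, ?_, ?_, ?_⟩
          · simpa using isHomogeneous_X K (0 : Fin 2)
          · simpa using isHomogeneous_X K (1 : Fin 2)
          · intro F _ _ _ V hV Q
            exact ⟨1, one_ne_zero, by simp, by simp⟩
      · rcases Nat.even_or_odd' k with ⟨j, rfl | rfl⟩
        · obtain ⟨a, b, h1, h2, h3⟩ := ih j (by omega)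
          exact ⟨_, _, B2_even W j a b ⟨h1, h2, h3⟩⟩
        · obtain ⟨a, b, h1, h2, h3⟩ := ih (j + 1) (by omega)
          obtain ⟨a', b', h1', h2', h3'⟩ := ih j (by omega)
          exact B2_odd W j a b a' b' ⟨h1, h2, h3⟩ ⟨h1', h2', h3'⟩
    obtain ⟨a, b, h1, h2, h3⟩ := hgood
    exact ⟨a, b, h1, h2, h3⟩

end Pool.Agent.Lib.MP_17a322_nt.RO
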