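import Pool.Agent.Lib.MP_17a322_nt.RO.Defs

/-!
Homogenisation and a zero with all but one coordinate independent.
-/

namespace Pool.Agent.Lib.MP_17a322_nt.RO

open MvPolynomial

/-- `hom f D` is multihomogeneous. -/
theorem mh_hom {K B : Type*} [CommRing K] [Fintype B] [DecidableEq B] (f : MvPolynomial B K)
    (D : B → ℕ) (hD : ∀ b, f.degreeOf b ≤ D b) : MH (hom f D) D := by
  unfold MH hom
  apply IsWeightedHomogeneous.sum
  intro m hm
  apply IsWeightedHomogeneous.C_mul
  have h1 : IsWeightedHomogeneous (bwt B (Fin 2))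
      (∏ b : B, ((X (b, 0) : MvPolynomial (B × Fin 2) K) ^ (m b) * X (b, 1) ^ (D b - m b)))
      (∑ b : B, (m b • bwt B (Fin 2) (b, 0) + (D b - m b) • bwt B (Fin 2) (b, 1))) := by
    apply IsWeightedHomogeneous.prod
    intro b _
    exact ((isWeightedHomogeneous_X K (bwt B (Fin 2)) (b, 0)).pow _).mul
      ((isWeightedHomogeneous_X K (bwt B (Fin 2)) (b, 1)).pow _)
  have h2 : (∑ b : B, (m b • bwt B (Fin 2) (b, 0) + (D b - m b) • bwt B (Fin 2) (b, 1))) = D := by
    funext b
    rw [Finset.sum_apply, Finset.sum_eq_single b]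
    · have hb : m b ≤ D b := le_trans (monomial_le_degreeOf b hm) (hD b)
      simp only [bwt, Pi.add_apply, Pi.smul_apply, Pi.single_eq_same, smul_eq_mul, mul_one]
      omega
    · intro c _ hc
      simp [bwt, Pi.single_eq_of_ne (Ne.symm hc)]
    · intro h
      exact absurd (Finset.mem_univ b) h
  rw [h2] at h1
  exact h1

/-- The value of `hom f D` at `(c_b, 1)` is the value of `f` at `c`. -/
theorem evl_hom_one {K A B : Type*} [CommRing K] [CommRing A] [Algebra K A] [Fintype B]
    [DecidableEq B] (f : MvPolynomial B K) (D : B → ℕ) (c : B → A) :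
    evl (fun b => ![c b, 1]) (hom f D) = aeval c f := by
  rw [evl, hom, map_sum, aeval_def (f := c), eval₂_eq']
  apply Finset.sum_congr rfl
  intro m _
  rw [map_mul, aeval_C, map_prod]
  congr 1
  apply Finset.prod_congr rfl
  intro b _
  rw [map_mul, map_pow, map_pow, aeval_X, aeval_X]
  simp

/-- If `f ≠ 0`, all coordinates `x_i`, `i ≠ i₀`, are `(c_i, 1)` with `(c_i)_{i ≠ i₀}` algebraically
independent over `K`, and the form `hom f D` vanishes at `x`, where `x_{i₀} = (c, 1)`, then `c` is
algebraic over `K(c_i, i ≠ i₀)`.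
Proof. By `evl_hom_one`, `f(c_1, .., c_n) = 0`. If `c` were transcendental over
`K(c_i, i ≠ i₀)` the whole family would be algebraically independent
(`AlgebraicIndependent.option_iff` style lemmas, e.g. `algebraicIndependent_option`), and `f = 0`. -/
theorem algebraic_of_zero {K Ω : Type*} [Field K] [Field Ω] [Algebra K Ω] (n : ℕ)
    (f : MvPolynomial (Fin n) K) (hf : f ≠ 0) (i₀ : Fin n) (c : Fin n → Ω)
    (hind : AlgebraicIndependent K (fun i : {i : Fin n // i ≠ i₀} => c i))
    (h0 : aeval c f = 0) :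
    IsAlgebraic (IntermediateField.adjoin K (Set.range fun i : {i : Fin n // i ≠ i₀} => c i))
      (c i₀) := by
  by_contra hcon
  apply hf
  have hS : c '' {i₀}ᶜ = Set.range fun i : {i : Fin n // i ≠ i₀} => c i := by
    ext z
    constructor
    · rintro ⟨i, hi, rfl⟩
      exact ⟨⟨i, hi⟩, rfl⟩
    · rintro ⟨i, rfl⟩
      exact ⟨i.1, i.2, rfl⟩
  have htr : Transcendental (Algebra.adjoin K (c '' {i₀}ᶜ)) (c i₀) := by
    rw [hS]
    rintro ⟨p, hp0, hp⟩
    apply hcon
    have hle := IntermediateField.algebra_adjoin_le_adjoin K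
      (Set.range fun i : {i : Fin n // i ≠ i₀} => c i)
    refine ⟨p.map (Subalgebra.inclusion hle).toRingHom, ?_, ?_⟩
    · rw [Polynomial.map_ne_zero_iff (Subalgebra.inclusion_injective hle)]
      exact hp0
    · rw [Polynomial.aeval_def, Polynomial.eval₂_map]
      exact hp
  have hall : AlgebraicIndependent K c :=
    (AlgebraicIndependent.iff_transcendental_adjoin_image i₀).mpr ⟨hind, htr⟩
  exact hall.eq_zero_of_aeval_eq_zero f h0

end Pool.Agent.Lib.MP_17a322_nt.RO
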