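import Pool.Agent.Lib.MP_17a322_nt.RO.Defs

/-!
Dehomogenisation.
-/

namespace Pool.Agent.Lib.MP_17a322_nt.RO

open MvPolynomial

/-- The exponents of a monomial of a multihomogeneous form in blocks of length two. -/
theorem N2_weight {K B : Type*} [Field K] [Fintype B] [DecidableEq B] {E : B → ℕ}
    {R : MvPolynomial (B × Fin 2) K} (hR : MH R E) {m : B × Fin 2 →₀ ℕ} (hm : m ∈ R.support)
    (b : B) : m (b, 0) + m (b, 1) = E b := by
  have h1 : Finsupp.weight (bwt B (Fin 2)) m = E := hR (mem_support_iff.mp hm)
  have h2 := congrFun h1 b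
  rw [Finsupp.weight_apply, Finsupp.sum_fintype m (fun p c => c • bwt B (Fin 2) p)
    (fun p => zero_smul ℕ _), Finset.sum_apply] at h2
  simp only [Pi.smul_apply, bwt, smul_eq_mul] at h2
  rw [Fintype.sum_prod_type] at h2
  simp only [Fin.sum_univ_two] at h2
  rw [Finset.sum_eq_single b] at h2
  · simpa using h2
  · intro c _ hc
    simp [Pi.single_eq_of_ne' hc]
  · intro hb
    exact absurd (Finset.mem_univ b) hb

/-- The exponents of the variables of index zero. -/
noncomputable def N2_exp {B : Type*} [Fintype B] (m : B × Fin 2 →₀ ℕ) : B →₀ ℕ :=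
  Finsupp.equivFunOnFinite.symm (fun b => m (b, 0))

theorem N2_exp_apply {B : Type*} [Fintype B] (m : B × Fin 2 →₀ ℕ) (b : B) :
    N2_exp m b = m (b, 0) := rfl

/-- Dehomogenisation of a nonzero multihomogeneous form in blocks of length two is not zero.
Proof: monomials `m` of `R` satisfy `m (b, 0) + m (b, 1) = E b`, so the map
`m ↦ (m (b, 0))_b` is injective on the support. -/
theorem exists_dehom {K B : Type*} [Field K] [Fintype B] [DecidableEq B] (E : B → ℕ)
    (R : MvPolynomial (B × Fin 2) K) (hR : MH R E) (h0 : R ≠ 0) :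
    ∃ G : MvPolynomial B K, G ≠ 0 ∧ ∀ x : B → K, eval x G = evl (fun b => ![x b, 1]) R := by
  classical
  refine ⟨∑ m ∈ R.support, monomial (N2_exp m) (coeff m R), ?_, ?_⟩
  · obtain ⟨m0, hm0⟩ := ne_zero_iff.mp h0
    have hs0 : m0 ∈ R.support := mem_support_iff.mpr hm0
    intro h
    have h1 : coeff (N2_exp m0) (∑ m ∈ R.support, monomial (N2_exp m) (coeff m R)) =
        coeff m0 R := by
      rw [coeff_sum, Finset.sum_eq_single m0]
      · rw [coeff_monomial, if_pos rfl]
      · intro m hm hne
        rw [coeff_monomial, if_neg]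
        intro he
        apply hne
        ext ⟨b, i⟩
        have e0 : m (b, 0) = m0 (b, 0) := by
          have := DFunLike.congr_fun he b
          rwa [N2_exp_apply, N2_exp_apply] at this
        have e1 : m (b, 1) = m0 (b, 1) := by
          have a1 := N2_weight hR hm b
          have a2 := N2_weight hR hs0 b
          omega
        fin_cases i
        · exact e0
        · exact e1
      · intro hn
        exact absurd hs0 hn
    rw [h, coeff_zero] at h1
    exact hm0 h1.symm
  · intro x
    rw [map_sum]
    unfold evl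
    rw [aeval_def, eval₂_eq']
    apply Finset.sum_congr rfl
    intro m _
    rw [eval_monomial, Finsupp.prod_fintype _ _ (fun b => pow_zero _), Fintype.prod_prod_type]
    congr 1
    apply Finset.prod_congr rfl
    intro b _
    simp [N2_exp_apply, Fin.prod_univ_two]

end Pool.Agent.Lib.MP_17a322_nt.RO
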