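import Pool.Agent.Lib.MP_17a322_nt.RO.A2

/-!
Growth of heights along m R + t.
-/

namespace Pool.Agent.Lib.MP_17a322_nt.RO

open MvPolynomial WeierstrassCurve Height

theorem A3_pigeon {G : Type*} {S : Set G} (hS : S.Finite) (f : ℤ → G) (hf : ∀ m, f m ∈ S) :
    ∃ a b : ℤ, a ≠ b ∧ f a = f b := by
  by_contra hcon
  push Not at hcon
  have hinj : Function.Injective f := by
    intro a b hab
    by_contra hne
    exact hcon a b hne hab
  have h1 : (Set.range f).Finite := hS.subset (by rintro _ ⟨m, rfl⟩; exact hf m)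
  exact Set.infinite_range_of_injective hinj h1

theorem A3_finite {K : Type*} [Field K] [NumberField K] (W : WeierstrassCurve K) (C : ℝ) :
    {P : W.toAffine.Point | logHeight P.xRep ≤ C}.Finite := by
  have h1 : {x : K | logHeight₁ x ≤ C}.Finite := Northcott.finite_le C
  have h2 : ((fun x : K => ![x, 1]) '' {x : K | logHeight₁ x ≤ C} ∪ {![1, 0]}).Finite :=
    (h1.image _).union (Set.finite_singleton _)
  refine Set.Finite.of_finite_fibers (fun P : W.toAffine.Point => P.xRep) (h2.subset ?_) ?_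
  · rintro _ ⟨P, hP, rfl⟩
    rcases P with _ | ⟨x, y, h⟩
    · right
      rfl
    · left
      refine ⟨x, ?_, rfl⟩
      have h3 : logHeight (Affine.Point.some x y h).xRep ≤ C := hP
      rw [Affine.Point.xRep_some] at h3
      rw [Set.mem_ofPred_eq, logHeight₁_eq_logHeight]
      exact h3
  · rintro v -
    by_cases hv : ∃ P : W.toAffine.Point, P.xRep = v
    · obtain ⟨P, rfl⟩ := hv
      refine (Set.toFinite {P, -P}).subset ?_
      rintro Q ⟨-, hQ⟩
      rcases Affine.Point.eq_or_eq_neg_of_xRep_eq_xRep hQ with h | h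
      · left
        exact h
      · right
        exact h
    · refine Set.Finite.subset Set.finite_empty ?_
      rintro Q ⟨-, hQ⟩
      exact hv ⟨Q, hQ⟩

/-- Growth of the height along `m • R + t`, `t` in a finite set, over a number field.
Proof. Let `q` be as in `exists_quadratic` for `h P = logHeight P.xRep` (which is `≥ 0`).
If `q R = 0` then `h (m • R)` is bounded, so by Northcott
(`NumberField.Height...finite_setOfPred_logHeight₁_le` or the projective version) the points
`m • R` take finitely many values of `xRep` (`xRep` is `![x, 1]` or `![1, 0]`, and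
`logHeight ![x, 1] = logHeight₁ x`), hence finitely many values
(`Point.xRep_eq_xRep_iff`), so `m • R = m' • R` for some `m ≠ m'` and `R` is torsion.
If `q R > 0`: `q (m R + t) ≤ 2 m^2 q R + 2 q t` (parallelogram for `m R` and `t`, `q ≥ 0`) and
`m^2 q R = q ((m R + t) - t) ≤ 2 q (m R + t) + 2 q t`. -/
theorem height_growth {K : Type*} [Field K] [NumberField K] [DecidableEq K]
    (W : WeierstrassCurve K) [W.IsElliptic] (R : W.toAffine.Point)
    (T : Finset W.toAffine.Point) :
    (∃ N : ℕ, 0 < N ∧ N • R = 0) ∨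
      ∃ c C : ℝ, 0 < c ∧ 0 < C ∧ ∀ m : ℤ, ∀ t ∈ T,
        c * (m : ℝ) ^ 2 - C ≤ logHeight (m • R + t).xRep ∧
          logHeight (m • R + t).xRep ≤ C * ((m : ℝ) ^ 2 + 1) := by
  obtain ⟨C0, hC0⟩ := parallelogram W
  set h : W.toAffine.Point → ℝ := fun P => logHeight P.xRep with hh
  obtain ⟨q, C', hq1, hq2, hq3⟩ := exists_quadratic h ⟨0, fun P => logHeight_nonneg _⟩ C0 hC0
  have hm : ∀ m : ℤ, q (m • R) = (m : ℝ) ^ 2 * q R := fun m => quadratic_zsmul q hq3 R m
  rcases eq_or_lt_of_le (hq2 R) with h0 | h0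
  · left
    have hfin := A3_finite W C'
    have hmem : ∀ m : ℤ, m • R ∈ {P : W.toAffine.Point | logHeight P.xRep ≤ C'} := by
      intro m
      have h1 := hq1 (m • R)
      rw [hm m, ← h0, mul_zero, zero_sub, abs_neg] at h1
      exact (le_abs_self _).trans h1
    obtain ⟨a, b, hab, hne⟩ := A3_pigeon hfin (fun m : ℤ => m • R) hmem
    have h2 : (a - b) • R = 0 := by
      rw [sub_smul, sub_eq_zero]
      exact hne
    refine ⟨(a - b).natAbs, Int.natAbs_pos.2 (sub_ne_zero.2 hab), ?_⟩
    rcases Int.natAbs_eq (a - b) with h3 | h3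
    · rw [h3, natCast_zsmul] at h2
      exact h2
    · rw [h3, neg_smul, natCast_zsmul, neg_eq_zero] at h2
      exact h2
  · right
    have hneg : ∀ P, q (-P) = q P := by
      intro P
      have h1 := hq3 0 P
      have h2 := hq3 0 0
      rw [zero_add, zero_sub] at h1
      rw [add_zero, sub_zero] at h2
      linarith
    set S : ℝ := ∑ t ∈ T, q t with hS
    have hS0 : 0 ≤ S := Finset.sum_nonneg fun t _ => hq2 t
    have hC'0 : 0 ≤ C' := (abs_nonneg _).trans (hq1 0)
    refine ⟨q R / 2, 2 * q R + 2 * S + C' + 1, by positivity, by positivity, fun m t ht => ?_⟩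
    have ht' : q t ≤ S := Finset.single_le_sum (fun t _ => hq2 t) ht
    have h1 := hq3 (m • R) t
    have h2 := hq2 (m • R - t)
    have h3 := hq3 (m • R + t) t
    rw [add_sub_cancel_right] at h3
    have h4 := hq2 (m • R + t + t)
    have h5 := abs_le.1 (hq1 (m • R + t))
    rw [hm m] at h1 h3
    have h6 : 0 ≤ (m : ℝ) ^ 2 := sq_nonneg _
    have h7 : 0 ≤ (m : ℝ) ^ 2 * q R := mul_nonneg h6 h0.le
    have h8 : 0 ≤ (m : ℝ) ^ 2 * (2 * S + C' + 1) := mul_nonneg h6 (by positivity)
    constructor
    · linarith [h5.1, h5.2]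
    · linarith [h5.1, h5.2]

end Pool.Agent.Lib.MP_17a322_nt.RO
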