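import Pool.Agent.Lib.MP_17a322_nt.RO.C1

/-!
The norm of a multihomogeneous form as a form in symmetric squares.
-/

namespace Pool.Agent.Lib.MP_17a322_nt.RO

open MvPolynomial

universe uK uB uA

theorem C2_card {B : Type*} [Fintype B] [DecidableEq B] (b : B) (s : Bool) :
    (Finset.univ.filter (fun σ : B → Bool => σ b = s)).card = 2 ^ (Fintype.card B - 1) := by
  classical
  have h : Finset.univ.filter (fun σ : B → Bool => σ b = s) =
      Fintype.piFinset (fun b' : B => if b' = b then ({s} : Finset Bool) else Finset.univ) := by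
    ext σ
    simp only [Finset.mem_filter, Finset.mem_univ, true_and, Fintype.mem_piFinset]
    constructor
    · intro h b'
      by_cases hb : b' = b
      · subst hb
        simp [h]
      · simp [hb]
    · intro h
      have := h b
      simpa using this
  rw [h, Fintype.card_piFinset, ← Finset.mul_prod_erase Finset.univ _ (Finset.mem_univ b)]
  have h1 : ∏ x ∈ Finset.univ.erase b, (if x = b then ({s} : Finset Bool) else Finset.univ).card =
      ∏ _x ∈ (Finset.univ : Finset B).erase b, 2 := by
    refine Finset.prod_congr rfl fun x hx => ?_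
    rw [if_neg (Finset.ne_of_mem_erase hx)]
    rfl
  rw [h1, Finset.prod_const, Finset.card_erase_of_mem (Finset.mem_univ b), Finset.card_univ]
  simp

theorem C2_sum {B : Type*} [Fintype B] [DecidableEq B] (b : B) (d : ℕ) :
    (∑ σ : B → Bool, if σ b = true then d else 0) = 2 ^ (Fintype.card B - 1) * d := by
  rw [← Finset.sum_filter, Finset.sum_const, C2_card b true, smul_eq_mul]

theorem C2_sum' {B : Type*} [Fintype B] [DecidableEq B] (b : B) (d : ℕ) :
    (∑ σ : B → Bool, if σ b = true then 0 else d) = 2 ^ (Fintype.card B - 1) * d := by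
  have h : (∑ σ : B → Bool, if σ b = true then 0 else d) = ∑ σ : B → Bool, if σ b = false then d else 0 := by
    refine Finset.sum_congr rfl fun σ _ => ?_
    cases σ b <;> simp
  rw [h, ← Finset.sum_filter, Finset.sum_const, C2_card b false, smul_eq_mul]

theorem C2_weight {B ι : Type*} [Fintype B] [DecidableEq B] [Fintype ι] (m : B × ι →₀ ℕ) (b : B) :
    (Finsupp.weight (bwt B ι) m) b = ∑ j, m (b, j) := by
  have h0 := Finsupp.sum_fintype m (fun i c => c • bwt B ι i) (fun i => zero_smul _ _)
  rw [Finsupp.weight_apply, h0, Finset.sum_apply, Fintype.sum_prod_type]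
  rw [Finset.sum_eq_single b]
  · refine Finset.sum_congr rfl fun j _ => ?_
    simp [bwt]
  · intro b' _ hb'
    refine Finset.sum_eq_zero fun j _ => ?_
    simp [bwt, hb']
  · intro h
    exact absurd (Finset.mem_univ b) h

theorem C2_deg {K : Type*} [Field K] {B : Type*} [Fintype B] [DecidableEq B] {D : B → ℕ}
    {f : MvPolynomial (B × Fin 2) K} (hf : MH f D) {m : B × Fin 2 →₀ ℕ} (hm : m ∈ f.support) (b : B) :
    m (b, 0) + m (b, 1) = D b := by
  have h := hf (mem_support_iff.1 hm)
  have h1 := congrFun h b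
  rw [C2_weight, Fin.sum_univ_two] at h1
  exact h1

theorem C2_rename {K : Type*} [Field K] {B : Type*} [Fintype B] [DecidableEq B] {U : MvPolynomial (Fin 3) K}
    {k : ℕ} (hU : U.IsHomogeneous k) (b : B) :
    MH (rename (fun j : Fin 3 => (b, j)) U) (Pi.single b k) := by
  intro d hd
  obtain ⟨u, hu, hu0⟩ := coeff_rename_ne_zero _ _ _ hd
  have h1 : Finsupp.degree u = k := by
    have := hU hu0
    rw [← this, Finsupp.degree_eq_weight_one]
    rfl
  funext b'
  rw [C2_weight]
  have hinj : Function.Injective (fun j : Fin 3 => (b, j)) := fun j j' h => (Prod.mk.inj h).2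
  by_cases hb : b' = b
  · subst hb
    rw [Pi.single_eq_same, ← h1, Finsupp.degree_eq_sum]
    refine Finset.sum_congr rfl fun j _ => ?_
    rw [← hu]
    exact Finsupp.mapDomain_apply hinj u j
  · rw [Pi.single_eq_of_ne hb]
    refine Finset.sum_eq_zero fun j _ => ?_
    rw [← hu]
    refine Finsupp.mapDomain_notin_range u _ ?_
    rintro ⟨j', hj'⟩
    exact hb (Prod.mk.inj hj').1.symm

theorem C2_evl {K : Type*} [Field K] {B : Type*} [Fintype B] [DecidableEq B] {A : Type*} [Field A] [Algebra K A]
    (x : B → Fin 2 → A) (f : MvPolynomial (B × Fin 2) K) :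
    evl x f = ∑ m ∈ f.support, algebraMap K A (coeff m f) *
      ∏ b, (x b 0 ^ (m (b, 0)) * x b 1 ^ (m (b, 1))) := by
  unfold evl
  rw [aeval_def, eval₂_eq']
  refine Finset.sum_congr rfl fun m _ => ?_
  rw [Fintype.prod_prod_type]
  refine congrArg _ (Finset.prod_congr rfl fun b _ => ?_)
  rw [Fin.prod_univ_two]

theorem C2_pow {ι : Type*} [Fintype ι] {A : Type*} [CommRing A] (s : ι → Bool) (u v : A) (e : ι → ℕ) :
    ∏ i, (if s i = true then u else v) ^ (e i) =
      u ^ (∑ i, if s i = true then e i else 0) * v ^ (∑ i, if s i = true then 0 else e i) := by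
  rw [← Finset.prod_pow_eq_pow_sum, ← Finset.prod_pow_eq_pow_sum, ← Finset.prod_mul_distrib]
  refine Finset.prod_congr rfl fun i _ => ?_
  cases s i <;> simp

/-- the exponent of the zeroth coordinate of the first point -/
def C2_a {B : Type*} [Fintype B] [DecidableEq B] (M : (B → Bool) → (B × Fin 2 →₀ ℕ)) (b : B) : ℕ :=
  ∑ σ : B → Bool, if σ b = true then M σ (b, 0) else 0

/-- the exponent of the zeroth coordinate of the second point -/
def C2_c {B : Type*} [Fintype B] [DecidableEq B] (M : (B → Bool) → (B × Fin 2 →₀ ℕ)) (b : B) : ℕ :=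
  ∑ σ : B → Bool, if σ b = true then 0 else M σ (b, 0)

theorem C2_a_add {B : Type*} [Fintype B] [DecidableEq B] {D : B → ℕ} {M : (B → Bool) → (B × Fin 2 →₀ ℕ)}
    (hM : ∀ σ b, M σ (b, 0) + M σ (b, 1) = D b) (b : B) :
    C2_a M b + (∑ σ : B → Bool, if σ b = true then M σ (b, 1) else 0) = 2 ^ (Fintype.card B - 1) * D b := by
  unfold C2_a
  rw [← Finset.sum_add_distrib, ← C2_sum b (D b)]
  refine Finset.sum_congr rfl fun σ _ => ?_
  rw [← hM σ b]
  cases σ b <;> simp

theorem C2_c_add {B : Type*} [Fintype B] [DecidableEq B] {D : B → ℕ} {M : (B → Bool) → (B × Fin 2 →₀ ℕ)}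
    (hM : ∀ σ b, M σ (b, 0) + M σ (b, 1) = D b) (b : B) :
    C2_c M b + (∑ σ : B → Bool, if σ b = true then 0 else M σ (b, 1)) = 2 ^ (Fintype.card B - 1) * D b := by
  unfold C2_c
  rw [← Finset.sum_add_distrib, ← C2_sum' b (D b)]
  refine Finset.sum_congr rfl fun σ _ => ?_
  rw [← hM σ b]
  cases σ b <;> simp

/-- the monomial in one block -/
def C2_S {A : Type*} [CommRing A] (E a c : ℕ) (p p' : Fin 2 → A) : A :=
  p 0 ^ a * p 1 ^ (E - a) * p' 0 ^ c * p' 1 ^ (E - c)

theorem C2_expand {K : Type*} [Field K] {B : Type*} [Fintype B] [DecidableEq B] {D : B → ℕ}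
    {f : MvPolynomial (B × Fin 2) K} (hf : MH f D) {A : Type*} [Field A] [Algebra K A] (p p' : B → Fin 2 → A) :
    ∏ σ : B → Bool, evl (fun b => if σ b then p b else p' b) f =
      ∑ M ∈ Fintype.piFinset (fun _ : B → Bool => f.support),
        algebraMap K A (∏ σ, coeff (M σ) f) *
          ∏ b, C2_S (2 ^ (Fintype.card B - 1) * D b) (C2_a M b) (C2_c M b) (p b) (p' b) := by
  simp only [C2_evl]
  rw [Finset.prod_univ_sum]
  refine Finset.sum_congr rfl fun M hM => ?_
  have hM' : ∀ σ b, M σ (b, 0) + M σ (b, 1) = D b := fun σ b =>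
    C2_deg hf (Fintype.mem_piFinset.1 hM σ) b
  rw [Finset.prod_mul_distrib, map_prod]
  refine congrArg _ ?_
  rw [Finset.prod_comm]
  refine Finset.prod_congr rfl fun b _ => ?_
  rw [Finset.prod_mul_distrib]
  have h0 : ∏ σ : B → Bool, (if σ b then p b else p' b) 0 ^ (M σ (b, 0)) =
      p b 0 ^ (C2_a M b) * p' b 0 ^ (C2_c M b) := by
    unfold C2_a C2_c
    rw [← C2_pow (fun σ : B → Bool => σ b)]
    refine Finset.prod_congr rfl fun σ _ => ?_
    cases σ b <;> simp
  have h1 : ∏ σ : B → Bool, (if σ b then p b else p' b) 1 ^ (M σ (b, 1)) =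
      p b 1 ^ (2 ^ (Fintype.card B - 1) * D b - C2_a M b) *
        p' b 1 ^ (2 ^ (Fintype.card B - 1) * D b - C2_c M b) := by
    have e1 : 2 ^ (Fintype.card B - 1) * D b - C2_a M b = ∑ σ : B → Bool, if σ b = true then M σ (b, 1) else 0 := by
      have := C2_a_add hM' b
      omega
    have e2 : 2 ^ (Fintype.card B - 1) * D b - C2_c M b = ∑ σ : B → Bool, if σ b = true then 0 else M σ (b, 1) := by
      have := C2_c_add hM' b
      omega
    rw [e1, e2, ← C2_pow (fun σ : B → Bool => σ b)]
    refine Finset.prod_congr rfl fun σ _ => ?_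
    cases σ b <;> simp
  rw [h0, h1]
  unfold C2_S
  ring

theorem C2_main {K : Type uK} [Field K] [CharZero K] {B : Type uB} [Fintype B] [DecidableEq B]
    (D : B → ℕ) (f : MvPolynomial (B × Fin 2) K) (hf : MH f D) :
    ∃ N : MvPolynomial (B × Fin 3) K, MH N (fun b => 2 ^ (Fintype.card B - 1) * D b) ∧
      ∀ (A : Type uA) [Field A] [Algebra K A] (p p' : B → Fin 2 → A),
        evl (fun b => sq2 (p b) (p' b)) N =
          ∏ σ : B → Bool, evl (fun b => if σ b then p b else p' b) f := by
  classical
  have hU : ∀ E a c : ℕ, ∃ U : MvPolynomial (Fin 3) K, a ≤ E → c ≤ E → (U.IsHomogeneous E ∧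
      ∀ (A : Type uA) [CommRing A] [Algebra K A] (p p' : Fin 2 → A),
        aeval (sq2 p p') U = C2_S E a c p p' + C2_S E a c p' p) := by
    intro E a c
    by_cases h : a ≤ E ∧ c ≤ E
    · obtain ⟨U, h1, h2⟩ := exists_symForm.{uK, uA} K E a c h.1 h.2
      exact ⟨U, fun _ _ => ⟨h1, fun A _ _ p p' => h2 A p p'⟩⟩
    · exact ⟨0, fun ha hc => absurd ⟨ha, hc⟩ h⟩
  choose U hU using hU
  set E : B → ℕ := fun b => 2 ^ (Fintype.card B - 1) * D b with hE
  have hle : ∀ M ∈ Fintype.piFinset (fun _ : B → Bool => f.support), ∀ b,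
      C2_a M b ≤ E b ∧ C2_c M b ≤ E b := by
    intro M hM b
    have hM' : ∀ σ b, M σ (b, 0) + M σ (b, 1) = D b := fun σ b =>
      C2_deg hf (Fintype.mem_piFinset.1 hM σ) b
    have h1 := C2_a_add hM' b
    have h2 := C2_c_add hM' b
    simp only [hE]
    omega
  refine ⟨∑ M ∈ Fintype.piFinset (fun _ : B → Bool => f.support),
    C (∏ σ, coeff (M σ) f) * ∏ b, (C (1 / 2 : K) * rename (fun j : Fin 3 => (b, j)) (U (E b) (C2_a M b) (C2_c M b))),
    ?_, ?_⟩
  · show _ ∈ weightedHomogeneousSubmodule K (bwt B (Fin 3)) E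
    refine Submodule.sum_mem _ fun M hM => ?_
    show IsWeightedHomogeneous (bwt B (Fin 3)) _ E
    have h1 : IsWeightedHomogeneous (bwt B (Fin 3))
        (∏ b, (C (1 / 2 : K) * rename (fun j : Fin 3 => (b, j)) (U (E b) (C2_a M b) (C2_c M b))))
        (∑ b, (0 + Pi.single b (E b))) := by
      refine IsWeightedHomogeneous.prod Finset.univ _ _ fun b _ => ?_
      exact (isWeightedHomogeneous_C (bwt B (Fin 3)) (1 / 2 : K)).mul
        (C2_rename ((hU (E b) (C2_a M b) (C2_c M b) (hle M hM b).1 (hle M hM b).2).1) b)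
    have h2 := (isWeightedHomogeneous_C (bwt B (Fin 3)) (∏ σ, coeff (M σ) f)).mul h1
    have h3 : 0 + ∑ b, (0 + Pi.single b (E b)) = E := by
      simp only [zero_add]
      exact Finset.univ_sum_single E
    rw [h3] at h2
    exact h2
  · intro A _ _ p p'
    have hev : evl (fun b => sq2 (p b) (p' b)) (∑ M ∈ Fintype.piFinset (fun _ : B → Bool => f.support),
        C (∏ σ, coeff (M σ) f) * ∏ b, (C (1 / 2 : K) * rename (fun j : Fin 3 => (b, j)) (U (E b) (C2_a M b) (C2_c M b)))) =
        ∑ M ∈ Fintype.piFinset (fun _ : B → Bool => f.support), algebraMap K A (∏ σ, coeff (M σ) f) *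
          ∏ b, (algebraMap K A (1 / 2) * (C2_S (E b) (C2_a M b) (C2_c M b) (p b) (p' b) +
            C2_S (E b) (C2_a M b) (C2_c M b) (p' b) (p b))) := by
      unfold evl
      rw [map_sum]
      refine Finset.sum_congr rfl fun M hM => ?_
      rw [map_mul, aeval_C]
      refine congrArg _ ?_
      rw [map_prod]
      refine Finset.prod_congr rfl fun b _ => ?_
      rw [map_mul, aeval_C, aeval_rename]
      refine congrArg _ ?_
      exact (hU (E b) (C2_a M b) (C2_c M b) (hle M hM b).1 (hle M hM b).2).2 A (p b) (p' b)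
    rw [hev]
    have hsplit : ∀ M : (B → Bool) → (B × Fin 2 →₀ ℕ),
        ∏ b, (algebraMap K A (1 / 2) * (C2_S (E b) (C2_a M b) (C2_c M b) (p b) (p' b) +
            C2_S (E b) (C2_a M b) (C2_c M b) (p' b) (p b))) =
        ∑ τ : B → Bool, (algebraMap K A (1 / 2)) ^ (Fintype.card B) *
          ∏ b, C2_S (E b) (C2_a M b) (C2_c M b) (if τ b then p b else p' b) (if τ b then p' b else p b) := by
      intro M
      rw [Finset.prod_mul_distrib, Finset.prod_const, Finset.card_univ, ← Finset.mul_sum]
      refine congrArg _ ?_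
      have h1 : ∀ b, C2_S (E b) (C2_a M b) (C2_c M b) (p b) (p' b) +
            C2_S (E b) (C2_a M b) (C2_c M b) (p' b) (p b) =
          ∑ t : Bool, C2_S (E b) (C2_a M b) (C2_c M b) (if t then p b else p' b) (if t then p' b else p b) := by
        intro b
        rw [Fintype.sum_bool]
        simp
      simp only [h1]
      rw [Finset.prod_univ_sum, Fintype.piFinset_univ]
    simp only [hsplit, Finset.mul_sum]
    rw [Finset.sum_comm]
    have hτ : ∀ τ : B → Bool, ∑ M ∈ Fintype.piFinset (fun _ : B → Bool => f.support),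
        algebraMap K A (∏ σ, coeff (M σ) f) * ((algebraMap K A (1 / 2)) ^ (Fintype.card B) *
          ∏ b, C2_S (E b) (C2_a M b) (C2_c M b) (if τ b then p b else p' b) (if τ b then p' b else p b)) =
        (algebraMap K A (1 / 2)) ^ (Fintype.card B) *
          ∏ σ : B → Bool, evl (fun b => if σ b then p b else p' b) f := by
      intro τ
      have h1 := C2_expand hf (fun b => if τ b then p b else p' b) (fun b => if τ b then p' b else p b)
      have h2 : ∏ σ : B → Bool, evl (fun b => if σ b then (if τ b then p b else p' b) else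
          (if τ b then p' b else p b)) f = ∏ σ : B → Bool, evl (fun b => if σ b then p b else p' b) f := by
        have hinv : Function.Involutive (fun σ : B → Bool => fun b => (σ b == τ b)) := by
          intro σ
          funext b
          show ((σ b == τ b) == τ b) = σ b
          cases σ b <;> cases τ b <;> rfl
        rw [← Equiv.prod_comp hinv.toPerm (fun σ : B → Bool => evl (fun b => if σ b then p b else p' b) f)]
        refine Finset.prod_congr rfl fun σ _ => ?_
        refine congrArg (fun x => evl x f) ?_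
        funext b
        show (if σ b then (if τ b then p b else p' b) else (if τ b then p' b else p b)) =
          if (σ b == τ b) then p b else p' b
        cases σ b <;> cases τ b <;> rfl
      rw [← h2, h1, Finset.mul_sum]
      refine Finset.sum_congr rfl fun M _ => ?_
      ring
    rw [Finset.sum_congr rfl fun τ _ => hτ τ, Finset.sum_const, Finset.card_univ, Fintype.card_fun,
      Fintype.card_bool, nsmul_eq_mul, ← mul_assoc]
    have h2 : ((2 ^ Fintype.card B : ℕ) : A) * (algebraMap K A (1 / 2)) ^ (Fintype.card B) = 1 := by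
      rw [Nat.cast_pow, Nat.cast_ofNat, ← mul_pow]
      have h3 : (2 : A) * algebraMap K A (1 / 2) = 1 := by
        have h4 : (2 : A) = algebraMap K A 2 := (map_ofNat (algebraMap K A) 2).symm
        rw [h4, ← map_mul]
        have h5 : (2 : K) * (1 / 2) = 1 := by
          have : (2 : K) ≠ 0 := two_ne_zero
          field_simp
        rw [h5, map_one]
      rw [h3, one_pow]
    rw [h2, one_mul]

/-- The product of the `2 ^ |B|` values of `f` at all choices of `p b` or `p' b` in every block is a
multihomogeneous form in the symmetric squares `sq2 (p b) (p' b)`, of degree `2^(|B|-1) D b` in block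
`b`.

Proof. Let `E b = 2^(|B|-1) D b` and work in `Pol = MvPolynomial (B × (Bool × Fin 2)) K` (or any
encoding of the variables `p_{b,j}` (`true`) and `p'_{b,j}` (`false`)). For `σ : B → Bool` let
`f_σ = rename (fun (b, j) => (b, (σ b, j))) f` and `N0 = ∏_σ f_σ`. Every monomial `m` of `N0` has
degree `E b` in the variables `(b, true, ·)` and degree `E b` in the variables `(b, false, ·)`: each
`f_σ` has degree `D b` in the variables `(b, σ b, ·)` and `0` in `(b, !σ b, ·)`, and exactly
`2^(|B|-1)` of the `σ` have `σ b = true` (if `b` exists). So with `a_m b = m (b, (true, 0))`,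
`c_m b = m (b, (false, 0))` the value of the monomial is
`∏_b p_{b0}^(a) p_{b1}^(E b - a) p'_{b0}^(c) p'_{b1}^(E b - c)`.
Let `N = ∑_m coeff m N0 • ∏_b (1/2) U_{E b, a_m b, c_m b}` with `U` from `exists_symForm` renamed into
block `b` (`j ↦ (b, j)`). Then `evl (sq2 ∘ (p, p')) N = ∑_m coeff m N0 * ∏_b (1/2) (term + swapped
term)`; expanding the product (`Finset.prod_add` or `Finset.prod_univ_sum`) this is
`2^(-|B|) ∑_{τ : B → Bool} N0 (point with p b, p' b swapped for τ b)`, and each of these
values equals `∏_σ f(σ-choice)` since `σ ↦ σ xor τ` is a bijection. -/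
theorem exists_norm {K : Type*} [Field K] [CharZero K] {B : Type*} [Fintype B] [DecidableEq B]
    (D : B → ℕ) (f : MvPolynomial (B × Fin 2) K) (hf : MH f D) :
    ∃ N : MvPolynomial (B × Fin 3) K, MH N (fun b => 2 ^ (Fintype.card B - 1) * D b) ∧
      ∀ (A : Type*) [Field A] [Algebra K A] (p p' : B → Fin 2 → A),
        evl (fun b => sq2 (p b) (p' b)) N =
          ∏ σ : B → Bool, evl (fun b => if σ b then p b else p' b) f :=
  C2_main D f hf

end Pool.Agent.Lib.MP_17a322_nt.RO
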