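import Pool.Agent.Lib.MP_17a322_nt.RO.Defs

/-!
Composition of block forms.
-/

namespace Pool.Agent.Lib.MP_17a322_nt.RO

open MvPolynomial

/-- The exponents of a monomial of a multihomogeneous form. -/
theorem D1_sum_eq {K B ι : Type*} [CommSemiring K] [Fintype B] [DecidableEq B] [Fintype ι]
    {φ : MvPolynomial (B × ι) K} {D : B → ℕ} (hφ : MH φ D) {m : B × ι →₀ ℕ}
    (hm : coeff m φ ≠ 0) (b : B) : ∑ i, m (b, i) = D b := by
  classical
  have h := congrFun (hφ hm) b
  rw [Finsupp.weight_apply, Finsupp.sum_fintype _ _ (by simp), Finset.sum_apply] at h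
  rw [← h, Fintype.sum_prod_type, Finset.sum_eq_single b]
  · refine Finset.sum_congr rfl fun i _ => ?_
    simp [bwt]
  · intro b' _ hb'
    refine Finset.sum_eq_zero fun i _ => ?_
    simp [bwt, Pi.single_eq_of_ne (Ne.symm hb')]
  · intro h
    exact absurd (Finset.mem_univ b) h

/-- Composition of block forms. If `N` is multihomogeneous of multidegree `E` in blocks of length
three and, for every `b`, the three polynomials `S b i` in the blocks `Option B` of length two are
multihomogeneous of multidegree `pd (d b) (Pi.single b e)` then the polynomial obtained by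
substituting them in `N` is multihomogeneous of multidegree `pd (∑ b, E b * d b) (fun b => e * E b)`.
Proof: `IsWeightedHomogeneous` is preserved monomial by monomial: `bind₁` of a monomial is
`C c * ∏ (S b i)^(m (b, i))`, of weight `∑_{(b, i)} m (b, i) • pd (d b) (Pi.single b e)` and
`∑_i m (b, i) = E b`. -/
theorem mh_bind {K B : Type*} [CommRing K] [Fintype B] [DecidableEq B] (N : MvPolynomial (B × Fin 3) K)
    (E : B → ℕ) (hN : MH N E) (S : B → Fin 3 → MvPolynomial (Option B × Fin 2) K) (d : B → ℕ)
    (e : ℕ) (hS : ∀ b i, MH (S b i) (pd (d b) (Pi.single b e))) :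
    MH (bind₁ (fun p : B × Fin 3 => S p.1 p.2) N) (pd (∑ b, E b * d b) (fun b => e * E b)) := by
  classical
  rw [bind₁, aeval_def, eval₂_eq']
  refine IsWeightedHomogeneous.sum _ _ _ fun m hm => ?_
  have h1 : IsWeightedHomogeneous (bwt (Option B) (Fin 2))
      (∏ p : B × Fin 3, S p.1 p.2 ^ m p)
      (∑ p : B × Fin 3, m p • pd (d p.1) (Pi.single p.1 e)) :=
    IsWeightedHomogeneous.prod _ _ _ fun p _ => (hS p.1 p.2).pow (m p)
  have h2 : (∑ p : B × Fin 3, m p • pd (d p.1) (Pi.single p.1 e)) =
      pd (∑ b, E b * d b) (fun b => e * E b) := by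
    have hs := D1_sum_eq hN (mem_support_iff.mp hm)
    funext o
    rw [Finset.sum_apply]
    cases o with
    | none =>
      simp only [Pi.smul_apply, pd, Option.elim, smul_eq_mul]
      rw [Fintype.sum_prod_type]
      refine Finset.sum_congr rfl fun b _ => ?_
      dsimp only
      rw [← Finset.sum_mul, hs b]
    | some b =>
      simp only [Pi.smul_apply, pd, Option.elim, smul_eq_mul]
      rw [Fintype.sum_prod_type, Finset.sum_eq_single b]
      · dsimp only
        rw [← Finset.sum_mul, hs b, Pi.single_eq_same, mul_comm]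
      · intro b' _ hb'
        refine Finset.sum_eq_zero fun i _ => ?_
        dsimp only
        rw [Pi.single_eq_of_ne (Ne.symm hb'), mul_zero]
      · intro h
        exact absurd (Finset.mem_univ b) h
  rw [h2] at h1
  have h3 : (algebraMap K (MvPolynomial (Option B × Fin 2) K)) (coeff m N) =
    C (coeff m N) := rfl
  rw [h3]
  exact h1.C_mul _

end Pool.Agent.Lib.MP_17a322_nt.RO
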