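import Pool.Agent.Lib.MP_17a322_nt.RO.C2
import Pool.Agent.Lib.MP_17a322_nt.RO.D1
import Pool.Agent.Lib.MP_17a322_nt.RO.D2

/-!
The norm of a form along the translates l Q + q, as a form in x(Q) and the x(q b).
-/

namespace Pool.Agent.Lib.MP_17a322_nt.RO

open MvPolynomial WeierstrassCurve

universe u

/-- Scaling of a multihomogeneous form. -/
theorem D3_evl_smul {K A B ι : Type*} [CommRing K] [CommRing A] [Algebra K A] [Fintype B]
    [DecidableEq B] (D : B → ℕ) (φ : MvPolynomial (B × ι) K) (hφ : MH φ D) (t : B → A)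
    (x : B → ι → A) :
    evl (fun b i => t b * x b i) φ = (∏ b, t b ^ D b) * evl x φ := by
  unfold evl
  rw [aeval_def, aeval_def, eval₂_eq, eval₂_eq, Finset.mul_sum]
  refine Finset.sum_congr rfl fun m hm => ?_
  have hw := hφ (mem_support_iff.mp hm)
  have h1 : ∏ p ∈ m.support, t p.1 ^ m p = ∏ b, t b ^ D b := by
    rw [← Finset.prod_fiberwise m.support (fun p => p.1) (fun p => t p.1 ^ m p)]
    refine Finset.prod_congr rfl fun b _ => ?_
    have h2 : ∏ p ∈ m.support with p.1 = b, t p.1 ^ m p =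
        ∏ p ∈ m.support with p.1 = b, t b ^ m p := by
      refine Finset.prod_congr rfl fun p hp => ?_
      rw [(Finset.mem_filter.mp hp).2]
    rw [h2, Finset.prod_pow_eq_pow_sum]
    congr 1
    have h3 := congrFun hw b
    rw [Finsupp.weight_apply, Finsupp.sum, Finset.sum_apply] at h3
    rw [← h3, Finset.sum_filter]
    refine Finset.sum_congr rfl fun p _ => ?_
    simp only [bwt, Pi.smul_apply, smul_eq_mul]
    split_ifs with h
    · subst h; simp
    · rw [Pi.single_eq_of_ne (fun h' => h h'.symm)]; simp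
  simp only [mul_pow]
  rw [Finset.prod_mul_distrib, h1]
  ring

/-- Value of the composition. -/
theorem D3_evl_bind {K A B : Type*} [CommRing K] [CommRing A] [Algebra K A]
    (N : MvPolynomial (B × Fin 3) K) (S : B → Fin 3 → MvPolynomial (Option B × Fin 2) K)
    (x : Option B → Fin 2 → A) :
    evl x (bind₁ (fun p : B × Fin 3 => S p.1 p.2) N) = evl (fun b i => evl x (S b i)) N := by
  unfold evl
  rw [aeval_bind₁]

/-- For forms `f`, `g` of multidegree `D` in `x(P_b)`, `b ∈ B`, there are forms `φ`, `ψ` of degree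
`2^|B| ∑ D b ℓ b ^ 2` in `u` and `2^|B| D b` in `w_b` whose values at `u = x(Q)`, `w_b = x(q_b)` are,
up to one common nonzero factor, the products over all signs `σ` of the values of `f`, `g` at
`x(ℓ_b Q + σ_b q_b)`.
Proof. Substitute the forms of `exists_transForm` (for `ℓ b`, `b`) in the norms of `exists_norm`
(`mh_bind` with `E b = 2^(|B|-1) D b`, `d b = 2 (ℓ b)^2`, `e = 2`; `2 * 2^(|B|-1) = 2^|B|` as soon as
`B` is nonempty, and for empty `B` both sides are `0`). With `S b = c_b • sq2 ..` the value of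
`N` is `∏_b c_b^(E b)` times its value at `sq2 ..` (multihomogeneity), the same factor for `f` and
`g`. Finally `(ℓ_b Q - q_b) = ℓ_b Q + (-q_b)` matches `sg false`. -/
theorem exists_trans {K : Type u} [Field K] [CharZero K] (W : WeierstrassCurve K) [W.IsElliptic]
    {B : Type*} [Fintype B] [DecidableEq B] (D : B → ℕ) (ℓ : B → ℤ)
    (f g : MvPolynomial (B × Fin 2) K) (hf : MH f D) (hg : MH g D) :
    ∃ φ ψ : MvPolynomial (Option B × Fin 2) K,
      MH φ (pd (2 ^ Fintype.card B * ∑ b, D b * (ℓ b).natAbs ^ 2)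
        (fun b => 2 ^ Fintype.card B * D b)) ∧
      MH ψ (pd (2 ^ Fintype.card B * ∑ b, D b * (ℓ b).natAbs ^ 2)
        (fun b => 2 ^ Fintype.card B * D b)) ∧
      ∀ (F : Type u) [Field F] [DecidableEq F] [Algebra K F] (V : WeierstrassCurve F),
        W.map (algebraMap K F) = V → ∀ (Q : V.toAffine.Point) (q : B → V.toAffine.Point),
          ∃ c : F, c ≠ 0 ∧
            evl (pv Q.xRep (fun b => (q b).xRep)) φ =
              c * ∏ σ : B → Bool, evl (fun b => (ℓ b • Q + sg (σ b) (q b)).xRep) f ∧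
            evl (pv Q.xRep (fun b => (q b).xRep)) ψ =
              c * ∏ σ : B → Bool, evl (fun b => (ℓ b • Q + sg (σ b) (q b)).xRep) g := by
  obtain ⟨N, hN, hNv⟩ := exists_norm D f hf
  obtain ⟨N', hN', hNv'⟩ := exists_norm D g hg
  choose S hS hSv using fun b : B => exists_transForm W (ℓ b) b
  have hcard : ∀ b : B, 2 * 2 ^ (Fintype.card B - 1) = 2 ^ Fintype.card B := by
    intro b
    have h1 : 0 < Fintype.card B := Fintype.card_pos_iff.mpr ⟨b⟩
    obtain ⟨k, hk⟩ : ∃ k, Fintype.card B = k + 1 := ⟨Fintype.card B - 1, by omega⟩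
    rw [hk, Nat.add_sub_cancel, pow_succ]
    ring
  have hpd : pd (∑ b, 2 ^ (Fintype.card B - 1) * D b * (2 * (ℓ b).natAbs ^ 2))
      (fun b => 2 * (2 ^ (Fintype.card B - 1) * D b)) =
      pd (2 ^ Fintype.card B * ∑ b, D b * (ℓ b).natAbs ^ 2)
        (fun b => 2 ^ Fintype.card B * D b) := by
    congr 1
    · rw [Finset.mul_sum]
      refine Finset.sum_congr rfl fun b _ => ?_
      rw [← hcard b]
      ring
    · funext b
      rw [← hcard b]
      ring
  refine ⟨bind₁ (fun p : B × Fin 3 => S p.1 p.2) N, bind₁ (fun p : B × Fin 3 => S p.1 p.2) N',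
    ?_, ?_, ?_⟩
  · have h := mh_bind N _ hN S (fun b => 2 * (ℓ b).natAbs ^ 2) 2 hS
    rwa [hpd] at h
  · have h := mh_bind N' _ hN' S (fun b => 2 * (ℓ b).natAbs ^ 2) 2 hS
    rwa [hpd] at h
  · intro F _ _ _ V hV Q q
    choose c hc0 hc using fun b : B => hSv b F V hV Q q
    refine ⟨∏ b, c b ^ (2 ^ (Fintype.card B - 1) * D b),
      Finset.prod_ne_zero_iff.mpr fun b _ => pow_ne_zero _ (hc0 b), ?_, ?_⟩
    · rw [D3_evl_bind]
      have h1 : (fun (b : B) (i : Fin 3) => evl (pv Q.xRep (fun b => (q b).xRep)) (S b i)) =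
          fun b i => c b * sq2 (ℓ b • Q + q b).xRep (ℓ b • Q - q b).xRep i := by
        funext b i
        exact hc b i
      rw [h1, D3_evl_smul _ N hN c]
      congr 1
      rw [hNv F (fun b => (ℓ b • Q + q b).xRep) (fun b => (ℓ b • Q - q b).xRep)]
      refine Finset.prod_congr rfl fun σ _ => ?_
      congr 1
      funext b
      cases hσ : σ b <;> simp [sg, sub_eq_add_neg]
    · rw [D3_evl_bind]
      have h1 : (fun (b : B) (i : Fin 3) => evl (pv Q.xRep (fun b => (q b).xRep)) (S b i)) =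
          fun b i => c b * sq2 (ℓ b • Q + q b).xRep (ℓ b • Q - q b).xRep i := by
        funext b i
        exact hc b i
      rw [h1, D3_evl_smul _ N' hN' c]
      congr 1
      rw [hNv' F (fun b => (ℓ b • Q + q b).xRep) (fun b => (ℓ b • Q - q b).xRep)]
      refine Finset.prod_congr rfl fun σ _ => ?_
      congr 1
      funext b
      cases hσ : σ b <;> simp [sg, sub_eq_add_neg]

end Pool.Agent.Lib.MP_17a322_nt.RO
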