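import Pool.Agent.Lib.MP_17a322_nt.Mb

/-!
Definitions for the theorem on powers of an elliptic curve of rank at most one.

Variables come in blocks: a polynomial in the variables `(b, i)`, `b` a block, `i` an index inside
the block. `MH φ D` says that `φ` is homogeneous of degree `D b` in the variables of block `b`,
for every block `b`.
-/

namespace Pool.Agent.Lib.MP_17a322_nt.RO

open MvPolynomial

/-- The weight of the variable `(b, i)`: the unit vector of the block `b`. -/
def bwt (B ι : Type*) [DecidableEq B] : B × ι → (B → ℕ) := fun p => Pi.single p.1 1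

/-- `φ` is multihomogeneous of multidegree `D`. -/
def MH {K B ι : Type*} [CommSemiring K] [DecidableEq B] (φ : MvPolynomial (B × ι) K)
    (D : B → ℕ) : Prop :=
  IsWeightedHomogeneous (bwt B ι) φ D

/-- The value of a polynomial in block variables at a family of vectors. -/
noncomputable def evl {K A B ι : Type*} [CommSemiring K] [CommSemiring A] [Algebra K A]
    (x : B → ι → A) (φ : MvPolynomial (B × ι) K) : A :=
  aeval (fun p : B × ι => x p.1 p.2) φ

/-- The symmetric square of two vectors of length two. -/
def sq2 {A : Type*} [CommSemiring A] (v w : Fin 2 → A) : Fin 3 → A :=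
  ![v 0 * w 0, v 0 * w 1 + v 1 * w 0, v 1 * w 1]

/-- The point `P` or `-P`. -/
def sg {G : Type*} [Neg G] (s : Bool) (P : G) : G := if s then P else -P

/-- A vector `u` (block `none`) together with a family of vectors `w` (blocks `some b`). -/
def pv {A B ι : Type*} (u : ι → A) (w : B → ι → A) : Option B → ι → A := fun o => o.elim u w

/-- The multidegree `d` in block `none` and `e b` in block `some b`. -/
def pd {B : Type*} (d : ℕ) (e : B → ℕ) : Option B → ℕ := fun o => o.elim d e

/-- The multihomogeneous form of multidegree `D` attached to a polynomial `f` with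
`degreeOf i f ≤ D i`: each monomial `∏ x_i ^ m_i` becomes `∏ X_i ^ m_i * Z_i ^ (D_i - m_i)`,
where `X_i`, `Z_i` are the variables `(i, 0)`, `(i, 1)`. -/
noncomputable def hom {K B : Type*} [CommSemiring K] [Fintype B] (f : MvPolynomial B K)
    (D : B → ℕ) : MvPolynomial (B × Fin 2) K :=
  ∑ m ∈ f.support, C (coeff m f) * ∏ b, (X (b, 0) ^ (m b) * X (b, 1) ^ (D b - m b))

end Pool.Agent.Lib.MP_17a322_nt.RO
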