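import Pool.Agent.Lib.MP_17a322_nt.RO.Defs

/-!
Determinants of matrices of forms.
-/

namespace Pool.Agent.Lib.MP_17a322_nt.RO

open MvPolynomial

/-- The determinant of a matrix of forms with prescribed multidegrees of the rows. -/
theorem E1_det {K B ι : Type*} [CommRing K] [DecidableEq B] (n : ℕ) (D : Fin n → B → ℕ)
    (M : Matrix (Fin n) (Fin n) (MvPolynomial (B × ι) K)) (hM : ∀ i j, MH (M i j) (D i)) :
    MH M.det (∑ i, D i) := by
  unfold MH at hM ⊢
  rw [Matrix.det_apply]
  apply IsWeightedHomogeneous.sum
  intro σ _
  have h : IsWeightedHomogeneous (bwt B ι) (∏ i, M (σ i) i) (∑ i, D (σ i)) :=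
    IsWeightedHomogeneous.prod Finset.univ (fun i => M (σ i) i) (fun i => D (σ i))
      (fun i _ => hM (σ i) i)
  rw [Equiv.sum_comp σ D] at h
  rcases Int.units_eq_one_or (Equiv.Perm.sign σ) with h1 | h1
  · rw [h1, one_smul]
    exact h
  · rw [h1, Units.neg_smul, one_smul]
    exact h.neg

/-- The determinant of a square matrix of forms of multidegree `e` is a form of multidegree
`n e` (`n` the size), and the entries of the adjugate are forms of multidegree `(n - 1) e`.
Proof: `Matrix.det_apply`, sum over permutations of products; `Matrix.adjugate_apply`,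
`det (updateRow ..)`: one row consists of the constants `0`, `1`. -/
theorem mh_det {K B ι : Type*} [CommRing K] [DecidableEq B] (n : ℕ) (e : B → ℕ)
    (M : Matrix (Fin n) (Fin n) (MvPolynomial (B × ι) K)) (hM : ∀ i j, MH (M i j) e) :
    MH M.det (fun b => n * e b) ∧ ∀ i j, MH (M.adjugate i j) (fun b => (n - 1) * e b) := by
  constructor
  · have h := E1_det n (fun _ => e) M hM
    have he : (∑ _i : Fin n, e) = (fun b => n * e b) := by
      funext b
      simp
    rw [← he]
    exact h
  · intro i j
    rw [Matrix.adjugate_apply]
    have h := E1_det n (fun k => if k = j then 0 else e) (M.updateRow j (Pi.single i 1)) (by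
      intro k l
      by_cases hk : k = j
      · subst hk
        rw [Matrix.updateRow_self]
        simp only [if_true]
        by_cases hl : l = i
        · subst hl
          rw [Pi.single_eq_same]
          exact isWeightedHomogeneous_one K (bwt B ι)
        · rw [Pi.single_eq_of_ne hl]
          exact isWeightedHomogeneous_zero K (bwt B ι) 0
      · rw [Matrix.updateRow_ne hk]
        simp only [hk, if_false]
        exact hM k l)
    have he : (∑ k : Fin n, (if k = j then (0 : B → ℕ) else e)) = (fun b => (n - 1) * e b) := by
      funext b
      rw [Finset.sum_apply]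
      have h1 : ∀ k : Fin n, (if k = j then (0 : B → ℕ) else e) b = if k = j then 0 else e b := by
        intro k
        split_ifs <;> rfl
      simp only [h1]
      rw [← Finset.sum_filter_add_sum_filter_not Finset.univ (fun k => k = j)]
      rw [Finset.sum_congr rfl (g := fun _ => 0) (by
        intro k hk
        rw [Finset.mem_filter] at hk
        simp [hk.2]), Finset.sum_const_zero, zero_add]
      rw [Finset.sum_congr rfl (g := fun _ => e b) (by
        intro k hk
        rw [Finset.mem_filter] at hk
        simp [hk.2]), Finset.sum_const, Finset.filter_ne', Finset.card_erase_of_mem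
          (Finset.mem_univ j), Finset.card_univ, Fintype.card_fin, smul_eq_mul]
    rw [← he]
    exact h

end Pool.Agent.Lib.MP_17a322_nt.RO
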