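import Pool.Agent.Lib.MP_17a322_nt.RO.E0
import Pool.Agent.Lib.MP_17a322_nt.RO.E1

/-!
Elimination of u from two binary forms of the same degree with controlled degrees.
-/

namespace Pool.Agent.Lib.MP_17a322_nt.RO

open MvPolynomial

universe u

/-- A form in the blocks `b` renamed into the blocks `some b`. -/
theorem E2_mh_rename {K B : Type*} [CommRing K] [DecidableEq B] (e : B → ℕ)
    (φ : MvPolynomial (B × Fin 2) K) (hφ : MH φ e) :
    MH (rename (fun p : B × Fin 2 => ((some p.1 : Option B), p.2)) φ) (pd 0 e) := by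
  intro m hm
  classical
  obtain ⟨m', rfl, hm'⟩ := coeff_rename_ne_zero _ _ _ hm
  have h := hφ hm'
  rw [← h]
  funext o
  rw [Finsupp.weight_apply, Finsupp.weight_apply]
  rw [Finsupp.sum_mapDomain_index (by simp) (by intros; rw [add_smul])]
  cases o with
  | none =>
    simp [pd, Finsupp.sum, bwt]
  | some b =>
    simp only [pd, Option.elim, Finsupp.sum, Finset.sum_apply, Pi.smul_apply, bwt]
    refine Finset.sum_congr rfl fun p _ => ?_
    by_cases hpb : p.1 = b
    · subst hpb; simp
    · rw [Pi.single_eq_of_ne (by simpa using fun h => hpb h.symm),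
        Pi.single_eq_of_ne (fun h => hpb h.symm)]

theorem E2_evl_rename {K A B : Type*} [CommRing K] [CommRing A] [Algebra K A]
    (φ : MvPolynomial (B × Fin 2) K) (v : Fin 2 → A) (w : B → Fin 2 → A) :
    evl (pv v w) (rename (fun p : B × Fin 2 => ((some p.1 : Option B), p.2)) φ) = evl w φ := by
  unfold evl
  rw [aeval_rename]
  rfl

/-- A monomial in the block `none`. -/
theorem E2_mh_mon {K B : Type*} [CommRing K] [DecidableEq B] (r s : ℕ) :
    MH ((X ((none : Option B), (0 : Fin 2)) ^ r * X ((none : Option B), (1 : Fin 2)) ^ s :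
      MvPolynomial (Option B × Fin 2) K)) (pd (r + s) 0) := by
  have h0 : ∀ j : Fin 2, MH (X ((none : Option B), j) : MvPolynomial (Option B × Fin 2) K)
      (bwt (Option B) (Fin 2) (none, j)) := fun j => isWeightedHomogeneous_X _ _ _
  have h := ((h0 0).pow r).mul ((h0 1).pow s)
  have he : r • bwt (Option B) (Fin 2) (none, 0) + s • bwt (Option B) (Fin 2) (none, 1) =
      pd (r + s) 0 := by
    funext o
    cases o with
    | none => simp [bwt, pd]
    | some b => simp [bwt, pd]
  rw [he] at h
  exact h

/-- The combination of the columns. -/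
noncomputable def E2_comb {K B : Type*} [CommRing K] (d : ℕ)
    (c : Fin d → MvPolynomial (B × Fin 2) K) : MvPolynomial (Option B × Fin 2) K :=
  ∑ j : Fin d, rename (fun p : B × Fin 2 => ((some p.1 : Option B), p.2)) (c j) *
    (X (none, 0) ^ (j : ℕ) * X (none, 1) ^ (d - 1 - (j : ℕ)))

theorem E2_mh_comb {K B : Type*} [CommRing K] [DecidableEq B] (d : ℕ)
    (c : Fin d → MvPolynomial (B × Fin 2) K) (e : B → ℕ) (hc : ∀ j, MH (c j) e) :
    MH (E2_comb d c) (pd (d - 1) e) := by
  unfold E2_comb
  refine IsWeightedHomogeneous.sum _ _ _ fun j _ => ?_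
  have h := (E2_mh_rename e (c j) (hc j)).mul (E2_mh_mon (K := K) (B := B) j (d - 1 - j))
  have he : pd 0 e + pd ((j : ℕ) + (d - 1 - (j : ℕ))) (0 : B → ℕ) = pd (d - 1) e := by
    funext o
    have := j.isLt
    cases o with
    | none =>
      simp only [pd, Option.elim, Pi.add_apply]
      omega
    | some b => simp [pd]
  rw [he] at h
  exact h

theorem E2_evl_comb {K A B : Type*} [CommRing K] [CommRing A] [Algebra K A] (d : ℕ)
    (c : Fin d → MvPolynomial (B × Fin 2) K) (v : Fin 2 → A) (w : B → Fin 2 → A) :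
    evl (pv v w) (E2_comb d c) =
      ∑ j : Fin d, evl w (c j) * (v 0 ^ (j : ℕ) * v 1 ^ (d - 1 - (j : ℕ))) := by
  have h1 : ∀ j : Fin d, evl (pv v w) (rename (fun p : B × Fin 2 => ((some p.1 : Option B), p.2))
      (c j)) = evl w (c j) := fun j => E2_evl_rename (c j) v w
  unfold evl at h1 ⊢
  unfold E2_comb
  rw [map_sum]
  refine Finset.sum_congr rfl fun j _ => ?_
  rw [map_mul, h1 j]
  simp [pv]

/-- The polynomial with given coefficients. -/
noncomputable def E2_pol {S : Type*} [CommRing S] (d : ℕ) (c : ℕ → S) : Polynomial S :=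
  ∑ k ∈ Finset.range (d + 1), Polynomial.C (c k) * Polynomial.X ^ k

theorem E2_coeff {S : Type*} [CommRing S] (d : ℕ) (c : ℕ → S) (k : ℕ) :
    (E2_pol d c).coeff k = if k ≤ d then c k else 0 := by
  unfold E2_pol
  rw [Polynomial.finsetSum_coeff]
  simp only [Polynomial.coeff_C_mul_X_pow]
  rw [Finset.sum_ite_eq]
  simp

theorem E2_natDegree {S : Type*} [CommRing S] (d : ℕ) (c : ℕ → S) :
    (E2_pol d c).natDegree ≤ d := by
  rw [Polynomial.natDegree_le_iff_coeff_eq_zero]
  intro k hk
  rw [E2_coeff, if_neg (by omega)]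

theorem E2_map {S T : Type*} [CommRing S] [CommRing T] (d : ℕ) (c : ℕ → S) (f : S →+* T) :
    (E2_pol d c).map f = E2_pol d (fun k => f (c k)) := by
  unfold E2_pol
  simp [Polynomial.map_sum]

theorem E2_eval {S : Type*} [CommRing S] (d : ℕ) (c : ℕ → S) (t : S) :
    (E2_pol d c).eval t = ∑ k ∈ Finset.range (d + 1), c k * t ^ k := by
  unfold E2_pol
  simp [Polynomial.eval_finsetSum]

/-- Homogenised column sum of the Sylvester matrix. -/
theorem E2_col {S : Type*} [CommRing S] (d : ℕ) (hd : 0 < d) (c : ℕ → S) (x y : S) (j : Fin d) :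
    ∑ i : Fin (d + d), (if (i : ℕ) ∈ Set.Icc (j : ℕ) (j + d) then (E2_pol d c).coeff (i - j) else 0)
      * (x ^ (i : ℕ) * y ^ (2 * d - 1 - (i : ℕ))) =
    (x ^ (j : ℕ) * y ^ (d - 1 - (j : ℕ))) *
      ∑ k ∈ Finset.range (d + 1), c k * x ^ k * y ^ (d - k) := by
  have hj := j.isLt
  rw [Fin.sum_univ_eq_sum_range (fun i => (if i ∈ Set.Icc (j : ℕ) (j + d) then
    (E2_pol d c).coeff (i - j) else 0) * (x ^ i * y ^ (2 * d - 1 - i))) (d + d)]
  rw [Finset.mul_sum]
  symm
  refine Finset.sum_of_injOn (fun k => (j : ℕ) + k) ?_ ?_ ?_ ?_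
  · intro a _ b _ hab
    simpa using hab
  · intro k hk
    simp only [Finset.coe_range, Set.mem_Iio] at hk ⊢
    omega
  · intro i _ hi2
    rw [if_neg, zero_mul]
    intro hmem
    apply hi2
    refine ⟨i - j, ?_, ?_⟩
    · simp only [Finset.coe_range, Set.mem_Iio]
      have := hmem.2
      omega
    · have := hmem.1
      simp only
      omega
  · intro k hk
    rw [Finset.mem_range] at hk
    have hmem : (j : ℕ) + k ∈ Set.Icc (j : ℕ) (j + d) := ⟨by omega, by omega⟩
    rw [if_pos hmem, Nat.add_sub_cancel_left, E2_coeff, if_pos (by omega)]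
    have h1 : 2 * d - 1 - (j + k) = (d - 1 - j) + (d - k) := by omega
    rw [h1, pow_add, pow_add]
    ring

/-- Elimination. For binary forms `φ`, `ψ` in `u` of degree `d ≥ 1` whose coefficients are forms of
multidegree `e` in `w` there is a form `R(w)` of multidegree `2 d e` such that
`R u_0^(2d-1)` and `R u_1^(2d-1)` are combinations of `φ`, `ψ` with controlled coefficients, and such
that `R(w) = 0` over an algebraically closed field implies a common zero `u ≠ 0` of `φ(·, w)`,
`ψ(·, w)`.

Proof. Let `c k`, `c' k` be the coefficients of `φ`, `ψ` (`exists_coeffs`) and let `M` be the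
`2d × 2d` Sylvester matrix over `MvPolynomial (B × Fin 2) K`: for `r < d`, row `r` has the entries
`M r s = c (s - r)` if `r ≤ s ≤ r + d` and `0` otherwise (coefficients of `u_0^r u_1^(d-1-r) φ` with
respect to `u_0^s u_1^(2d-1-s)`), row `d + r` the same with `c'`. `R = det M` (`mh_det`). From
`M.adjugate * M = R • 1`: `R u_0^s u_1^(2d-1-s) = ∑_rows adjugate s row * (row form)`, so with
`a_s = ∑_{r<d} adjugate s r * u_0^r u_1^(d-1-r)`, `b_s = ∑_{r<d} adjugate s (d+r) * u_0^r
u_1^(d-1-r)` one has `R u_0^s u_1^(2d-1-s) = a_s φ + b_s ψ`; take `s = 2d-1` (for `u_0`) and `s = 0`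
(for `u_1`). (`rename`/`some` embeds the `w` variables.)
If `R(w) = 0` the rows of `M(w)` are linearly dependent (`Matrix.exists_vecMul_eq_zero_iff`), so there
are binary forms `α, β` of degree `d - 1`, not both zero, with `α φ + β ψ = 0` (`φ = φ(·, w)` etc.).
If `φ(·, w) = 0` take any zero of `ψ(·, w)` (a binary form of positive degree over an algebraically
closed field has a nonzero zero: if the coefficient of `u_0^d` vanishes take `(1, 0)`, otherwise a
root of the polynomial). Otherwise, if `φ` and `ψ` have no common zero, then every linear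
factor of `φ` divides `β` with the same multiplicity, so `φ ∣ β`; as `deg β < d`, `β = 0` and then
`α = 0`, a contradiction. A convenient way: choose `t` in the infinite field such that `φ(t, 1) ≠ 0`
and substitute `u = (t z + 1, z)`-like coordinates, or use the univariate polynomials
`φ(X, 1)`, `ψ(X, 1)` with `Polynomial.resultant` of Mathlib for formal degrees `(d, d)`:
`R(w)` is up to sign `resultant (φ(X,1)) (ψ(X,1)) d d`, which vanishes iff both degrees are
smaller than `d` (then `(1, 0)` is a common zero) or there is a common root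
(`resultant_add_left_deg`, `resultant_add_right_deg`, `resultant_eq_zero_iff`). -/
theorem exists_elim {K : Type u} [Field K] {B : Type*} [Fintype B] [DecidableEq B] (d : ℕ)
    (hd : 0 < d) (e : B → ℕ) (φ ψ : MvPolynomial (Option B × Fin 2) K) (hφ : MH φ (pd d e))
    (hψ : MH ψ (pd d e)) :
    ∃ (R : MvPolynomial (B × Fin 2) K) (a b : Fin 2 → MvPolynomial (Option B × Fin 2) K),
      MH R (fun b => 2 * d * e b) ∧
      (∀ i, MH (a i) (pd (d - 1) (fun b => (2 * d - 1) * e b))) ∧
      (∀ i, MH (b i) (pd (d - 1) (fun b => (2 * d - 1) * e b))) ∧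
      (∀ (A : Type u) [Field A] [Algebra K A] (v : Fin 2 → A) (w : B → Fin 2 → A) (i : Fin 2),
        evl w R * v i ^ (2 * d - 1) =
          evl (pv v w) (a i) * evl (pv v w) φ + evl (pv v w) (b i) * evl (pv v w) ψ) ∧
      (∀ (A : Type u) [Field A] [Algebra K A] [IsAlgClosed A] (w : B → Fin 2 → A),
        evl w R = 0 → ∃ v : Fin 2 → A, v ≠ 0 ∧ evl (pv v w) φ = 0 ∧ evl (pv v w) ψ = 0) := by
  obtain ⟨c, hc, hcφ⟩ := exists_coeffs d e φ hφ
  obtain ⟨c', hc', hcψ⟩ := exists_coeffs d e ψ hψ
  set f := E2_pol d c with hf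
  set g := E2_pol d c' with hg
  set M := Polynomial.sylvester f g d d with hM
  have hMH : ∀ i j, MH (M i j) e := by
    intro i j
    rw [hM, Polynomial.sylvester]
    simp only [Matrix.of_apply]
    induction j using Fin.addCases with
    | left j =>
      rw [Fin.addCases_left]
      split_ifs
      · rw [hg, E2_coeff]
        split_ifs
        · exact hc' _
        · exact isWeightedHomogeneous_zero _ _ _
      · exact isWeightedHomogeneous_zero _ _ _
    | right j =>
      rw [Fin.addCases_right]
      split_ifs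
      · rw [hf, E2_coeff]
        split_ifs
        · exact hc _
        · exact isWeightedHomogeneous_zero _ _ _
      · exact isWeightedHomogeneous_zero _ _ _
  obtain ⟨hdet, hadj⟩ := mh_det (d + d) e M hMH
  have e1 : (fun b => (d + d) * e b) = (fun b => 2 * d * e b) := by
    funext b; ring
  have e2 : (fun b => (d + d - 1) * e b) = (fun b => (2 * d - 1) * e b) := by
    funext b
    congr 1
    omega
  rw [e1] at hdet
  rw [e2] at hadj
  let s : Fin 2 → Fin (d + d) := ![⟨2 * d - 1, by omega⟩, ⟨0, by omega⟩]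
  refine ⟨M.det, fun i => E2_comb d (fun j => M.adjugate (Fin.natAdd d j) (s i)),
    fun i => E2_comb d (fun j => M.adjugate (Fin.castAdd d j) (s i)), hdet,
    fun i => E2_mh_comb d _ _ fun j => hadj _ _,
    fun i => E2_mh_comb d _ _ fun j => hadj _ _, ?_, ?_⟩
  · intro A _ _ v w i
    rw [E2_evl_comb, E2_evl_comb, hcφ, hcψ]
    -- the ring homomorphism
    set θ : MvPolynomial (B × Fin 2) K →ₐ[K] A := aeval (fun p : B × Fin 2 => w p.1 p.2) with hθ
    have hev : ∀ χ, evl w χ = θ χ := fun χ => rfl
    simp only [hev]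
    have hmul : ∀ t : Fin (d + d), ∑ j, θ (M t j) * θ (M.adjugate j (s i)) =
        if t = s i then θ M.det else 0 := by
      intro t
      have h := congrFun (congrFun (Matrix.mul_adjugate M) t) (s i)
      rw [Matrix.mul_apply] at h
      have h2 := congrArg θ h
      rw [map_sum] at h2
      simp only [map_mul] at h2
      rw [h2, Matrix.smul_apply, Matrix.one_apply]
      split_ifs <;> simp
    have hsum : ∑ t : Fin (d + d), (∑ j, θ (M t j) * θ (M.adjugate j (s i))) *
        (v 0 ^ (t : ℕ) * v 1 ^ (2 * d - 1 - (t : ℕ))) =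
        θ M.det * (v 0 ^ (s i : ℕ) * v 1 ^ (2 * d - 1 - (s i : ℕ))) := by
      simp only [hmul, ite_mul, zero_mul]
      rw [Finset.sum_ite_eq']
      simp
    have hvi : v 0 ^ (s i : ℕ) * v 1 ^ (2 * d - 1 - (s i : ℕ)) = v i ^ (2 * d - 1) := by
      fin_cases i
      · simp [s]
      · simp [s]
    rw [hvi] at hsum
    rw [← hsum]
    have hswap : ∑ t : Fin (d + d), (∑ j, θ (M t j) * θ (M.adjugate j (s i))) *
        (v 0 ^ (t : ℕ) * v 1 ^ (2 * d - 1 - (t : ℕ))) =
        ∑ j, θ (M.adjugate j (s i)) * ∑ t : Fin (d + d), θ (M t j) *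
          (v 0 ^ (t : ℕ) * v 1 ^ (2 * d - 1 - (t : ℕ))) := by
      simp only [Finset.sum_mul, Finset.mul_sum]
      rw [Finset.sum_comm]
      refine Finset.sum_congr rfl fun j _ => Finset.sum_congr rfl fun t _ => by ring
    rw [hswap, Fin.sum_univ_add]
    have hθf : ∀ (p : ℕ → MvPolynomial (B × Fin 2) K) (k : ℕ),
        θ ((E2_pol d p).coeff k) = (E2_pol d (fun k => θ (p k))).coeff k := by
      intro p k
      rw [E2_coeff, E2_coeff]
      split_ifs <;> simp
    have hcolL : ∀ j : Fin d, ∑ t : Fin (d + d), θ (M t (Fin.castAdd d j)) *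
          (v 0 ^ (t : ℕ) * v 1 ^ (2 * d - 1 - (t : ℕ))) =
        (v 0 ^ (j : ℕ) * v 1 ^ (d - 1 - (j : ℕ))) *
          ∑ k ∈ Finset.range (d + 1), θ (c' k) * v 0 ^ k * v 1 ^ (d - k) := by
      intro j
      rw [← E2_col d hd (fun k => θ (c' k)) (v 0) (v 1) j]
      refine Finset.sum_congr rfl fun t _ => ?_
      congr 1
      rw [hM, Polynomial.sylvester]
      simp only [Matrix.of_apply]
      rw [Fin.addCases_left, apply_ite θ, map_zero, hg, hθf]
    have hcolR : ∀ j : Fin d, ∑ t : Fin (d + d), θ (M t (Fin.natAdd d j)) *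
          (v 0 ^ (t : ℕ) * v 1 ^ (2 * d - 1 - (t : ℕ))) =
        (v 0 ^ (j : ℕ) * v 1 ^ (d - 1 - (j : ℕ))) *
          ∑ k ∈ Finset.range (d + 1), θ (c k) * v 0 ^ k * v 1 ^ (d - k) := by
      intro j
      rw [← E2_col d hd (fun k => θ (c k)) (v 0) (v 1) j]
      refine Finset.sum_congr rfl fun t _ => ?_
      congr 1
      rw [hM, Polynomial.sylvester]
      simp only [Matrix.of_apply]
      rw [Fin.addCases_right, apply_ite θ, map_zero, hf, hθf]
    simp only [hcolL, hcolR]
    rw [add_comm, Finset.sum_mul, Finset.sum_mul]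
    congr 1
    · refine Finset.sum_congr rfl fun j _ => by ring
    · refine Finset.sum_congr rfl fun j _ => by ring
  · intro A _ _ _ w hR
    set θ : MvPolynomial (B × Fin 2) K →ₐ[K] A := aeval (fun p : B × Fin 2 => w p.1 p.2) with hθ
    have hev : ∀ χ, evl w χ = θ χ := fun χ => rfl
    have hφv : ∀ v : Fin 2 → A, evl (pv v w) φ =
        ∑ k ∈ Finset.range (d + 1), θ (c k) * v 0 ^ k * v 1 ^ (d - k) := fun v => hcφ A v w
    have hψv : ∀ v : Fin 2 → A, evl (pv v w) ψ =
        ∑ k ∈ Finset.range (d + 1), θ (c' k) * v 0 ^ k * v 1 ^ (d - k) := fun v => hcψ A v w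
    set F := E2_pol d (fun k => θ (c k)) with hF
    set G := E2_pol d (fun k => θ (c' k)) with hG
    have hFd : F.natDegree ≤ d := E2_natDegree _ _
    have hGd : G.natDegree ≤ d := E2_natDegree _ _
    have hres : Polynomial.resultant F G d d = 0 := by
      have h1 : F = f.map (θ : MvPolynomial (B × Fin 2) K →+* A) := by
        rw [hf, E2_map]; rfl
      have h2 : G = g.map (θ : MvPolynomial (B × Fin 2) K →+* A) := by
        rw [hg, E2_map]; rfl
      rw [h1, h2, Polynomial.resultant_map_map]
      exact hR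
    have hroot : ∀ t : A, F.eval t = 0 → G.eval t = 0 →
        ∃ v : Fin 2 → A, v ≠ 0 ∧ evl (pv v w) φ = 0 ∧ evl (pv v w) ψ = 0 := by
      intro t h1 h2
      refine ⟨![t, 1], fun h => one_ne_zero (α := A) (by simpa using congrFun h 1), ?_, ?_⟩
      · rw [hφv]
        rw [hF, E2_eval] at h1
        simpa using h1
      · rw [hψv]
        rw [hG, E2_eval] at h2
        simpa using h2
    have hcop : ¬ IsCoprime F G →
        ∃ v : Fin 2 → A, v ≠ 0 ∧ evl (pv v w) φ = 0 ∧ evl (pv v w) ψ = 0 := by
      intro h
      rw [Polynomial.isCoprime_iff_aeval_ne_zero_of_isAlgClosed (k := A) A] at h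
      push Not at h
      obtain ⟨t, h1, h2⟩ := h
      exact hroot t (by simpa using h1) (by simpa using h2)
    by_cases hFc : F.coeff d = 0
    · by_cases hGc : G.coeff d = 0
      · refine ⟨![1, 0], fun h => one_ne_zero (α := A) (by simpa using congrFun h 0), ?_, ?_⟩
        · rw [hφv, Finset.sum_eq_single d]
          · rw [hF, E2_coeff, if_pos le_rfl] at hFc
            simp [hFc]
          · intro k hk hkd
            have : d - k ≠ 0 := by
              have := Finset.mem_range.mp hk
              omega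
            simp [this]
          · intro h
            exact absurd (Finset.mem_range.mpr (Nat.lt_succ_self d)) h
        · rw [hψv, Finset.sum_eq_single d]
          · rw [hG, E2_coeff, if_pos le_rfl] at hGc
            simp [hGc]
          · intro k hk hkd
            have : d - k ≠ 0 := by
              have := Finset.mem_range.mp hk
              omega
            simp [this]
          · intro h
            exact absurd (Finset.mem_range.mpr (Nat.lt_succ_self d)) h
      · -- G has degree d
        apply hcop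
        have hGn : G.natDegree = d := le_antisymm hGd (Polynomial.le_natDegree_of_ne_zero hGc)
        have h1 : Polynomial.resultant F G (F.natDegree + (d - F.natDegree)) d = 0 := by
          rw [Nat.add_sub_cancel' hFd]; exact hres
        rw [Polynomial.resultant_add_left_deg _ _ _ _ _ le_rfl] at h1
        have h2 : Polynomial.resultant F G F.natDegree d = 0 := by
          rcases mul_eq_zero.mp h1 with h | h
          · exfalso
            rcases mul_eq_zero.mp h with h | h
            · exact (pow_ne_zero _ (neg_ne_zero.mpr one_ne_zero)) h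
            · exact pow_ne_zero _ hGc h
          · exact h
        have h3 : Polynomial.resultant F G = 0 := by
          rw [hGn]; exact h2
        exact (Polynomial.resultant_eq_zero_iff.mp h3).2
    · apply hcop
      have hFn : F.natDegree = d := le_antisymm hFd (Polynomial.le_natDegree_of_ne_zero hFc)
      have h1 : Polynomial.resultant F G d (G.natDegree + (d - G.natDegree)) = 0 := by
        rw [Nat.add_sub_cancel' hGd]; exact hres
      rw [Polynomial.resultant_add_right_deg _ _ _ _ _ le_rfl] at h1
      have h2 : Polynomial.resultant F G d G.natDegree = 0 :=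
        (mul_eq_zero.mp h1).resolve_left (pow_ne_zero _ hFc)
      have h3 : Polynomial.resultant F G = 0 := by
        rw [hFn]; exact h2
      exact (Polynomial.resultant_eq_zero_iff.mp h3).2

end Pool.Agent.Lib.MP_17a322_nt.RO
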