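import Pool.Agent.Lib.MP_17a322_nt.RO.H

/-!
Height inequality obtained from elimination.
-/

namespace Pool.Agent.Lib.MP_17a322_nt.RO

open MvPolynomial Height

/-- If `R(w) u_i^(2d-1) = a_i φ + b_i ψ` with forms of the indicated degrees then
`d h(u) ≤ h([φ : ψ]) + (2d-1) ∑ e_b h(w_b) + C` as soon as `R(w) ≠ 0`.
Proof. Let `y = (φ(u,w), ψ(u,w))` (nonzero, because `R(w) u_i^(2d-1) ≠ 0` for some `i`) and
`z = (a_0, b_0, a_1, b_1)` (nonzero as well). The vector `(R u_0^(2d-1), R u_1^(2d-1))` is the image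
of the tensor product of `z` and `y` under a fixed linear map with coefficients `0, 1`; so by
`logHeight_linearMap_apply_le` and `logHeight_fun_mul_eq`, `logHeight_smul_eq_logHeight`,
`logHeight_pow`: `(2d-1) h(u) ≤ h(z) + h(y) + C`, and
`h(z) ≤ (d-1) h(u) + (2d-1) ∑ e_b h(w_b) + C` by `logHeight_evl_le` for the blocks `Option B`
(`Fintype.sum_option`). -/
theorem elim_height {K : Type*} [Field K] [AdmissibleAbsValues K] {B : Type*} [Fintype B]
    [DecidableEq B] (d : ℕ) (hd : 0 < d) (e : B → ℕ) (φ ψ : MvPolynomial (Option B × Fin 2) K)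
    (R : MvPolynomial (B × Fin 2) K) (a b : Fin 2 → MvPolynomial (Option B × Fin 2) K)
    (ha : ∀ i, MH (a i) (pd (d - 1) (fun b => (2 * d - 1) * e b)))
    (hb : ∀ i, MH (b i) (pd (d - 1) (fun b => (2 * d - 1) * e b)))
    (hid : ∀ (v : Fin 2 → K) (w : B → Fin 2 → K) (i : Fin 2),
        evl w R * v i ^ (2 * d - 1) =
          evl (pv v w) (a i) * evl (pv v w) φ + evl (pv v w) (b i) * evl (pv v w) ψ) :
    ∃ C : ℝ, 0 ≤ C ∧ ∀ (v : Fin 2 → K) (w : B → Fin 2 → K), v ≠ 0 → (∀ b, w b ≠ 0) →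
      evl w R ≠ 0 →
        (d : ℝ) * logHeight v ≤ logHeight ![evl (pv v w) φ, evl (pv v w) ψ] +
          (2 * d - 1) * ∑ b, (e b : ℝ) * logHeight (w b) + C := by
  classical
  obtain ⟨C₀, hC₀, hC⟩ := logHeight_evl_le (K := K) (B := Option B) (ι := Fin 2) (κ := Fin 2 × Fin 2)
    (fun p => if p.2 = 0 then a p.1 else b p.1) (pd (d - 1) (fun b => (2 * d - 1) * e b)) (by
      rintro ⟨i, j⟩
      by_cases hj : j = 0
      · simp only [hj, if_true]
        exact ha i
      · simp only [hj, if_false]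
        exact hb i)
  let A : Fin 2 × ((Fin 2 × Fin 2) × Fin 2) → K := fun q => if q.2.1.1 = q.1 ∧ q.2.1.2 = q.2.2 then 1 else 0
  let c₁ : ℝ := totalWeight K * Real.log (Nat.card ((Fin 2 × Fin 2) × Fin 2)) + logHeight A
  refine ⟨max (c₁ + C₀) 0, le_max_right _ _, ?_⟩
  intro v w hv hw hR
  let y : Fin 2 → K := ![evl (pv v w) φ, evl (pv v w) ψ]
  let z : Fin 2 × Fin 2 → K := fun p => evl (pv v w) (if p.2 = 0 then a p.1 else b p.1)
  have hz0 : ∀ i, z (i, 0) = evl (pv v w) (a i) := fun i => by simp [z]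
  have hz1 : ∀ i, z (i, 1) = evl (pv v w) (b i) := fun i => by simp [z]
  have hkey : ∀ i, ∑ p : (Fin 2 × Fin 2) × Fin 2, A (i, p) * (z p.1 * y p.2) =
      evl w R * v i ^ (2 * d - 1) := by
    intro i
    rw [hid, ← hz0, ← hz1]
    rw [Fintype.sum_prod_type, Fintype.sum_prod_type]
    simp only [Fin.sum_univ_two, A, y]
    fin_cases i <;> simp
  obtain ⟨i₀, hi₀⟩ : ∃ i, v i ≠ 0 := by
    by_contra hcon
    push Not at hcon
    exact hv (funext hcon)
  have hne : evl w R * v i₀ ^ (2 * d - 1) ≠ 0 := mul_ne_zero hR (pow_ne_zero _ hi₀)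
  have hy : y ≠ 0 := by
    intro h0
    apply hne
    rw [← hkey]
    refine Finset.sum_eq_zero fun p _ => ?_
    rw [h0, Pi.zero_apply, mul_zero, mul_zero]
  have hz : z ≠ 0 := by
    intro h0
    apply hne
    rw [← hkey]
    refine Finset.sum_eq_zero fun p _ => ?_
    rw [h0, Pi.zero_apply, zero_mul, mul_zero]
  have h1 := logHeight_linearMap_apply_le A (fun p : (Fin 2 × Fin 2) × Fin 2 => z p.1 * y p.2)
  rw [logHeight_fun_mul_eq hz hy] at h1
  have h2 : (fun i => ∑ p : (Fin 2 × Fin 2) × Fin 2, A (i, p) * (z p.1 * y p.2)) =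
      evl w R • (v ^ (2 * d - 1)) := by
    funext i
    rw [hkey]
    rfl
  rw [h2, logHeight_smul_eq_logHeight _ hR, logHeight_pow] at h1
  have h3 := hC (pv v w) (by
    intro o
    cases o with
    | none => exact hv
    | some b => exact hw b)
  have h4 : (fun k : Fin 2 × Fin 2 => evl (pv v w) (if k.2 = 0 then a k.1 else b k.1)) = z := rfl
  rw [h4, Fintype.sum_option] at h3
  have h5 : ((pd (d - 1) (fun b => (2 * d - 1) * e b) none : ℕ) : ℝ) * logHeight (pv v w none) =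
      ((d : ℝ) - 1) * logHeight v := by
    show ((d - 1 : ℕ) : ℝ) * logHeight v = _
    rw [Nat.cast_sub (Nat.succ_le_of_lt hd), Nat.cast_one]
  have hcast : ((2 * d - 1 : ℕ) : ℝ) = 2 * (d : ℝ) - 1 := by
    rw [Nat.cast_sub (by omega), Nat.cast_mul]
    norm_num
  have h6 : ∑ b : B, ((pd (d - 1) (fun b => (2 * d - 1) * e b) (some b) : ℕ) : ℝ) *
      logHeight (pv v w (some b)) = (2 * (d : ℝ) - 1) * ∑ b, (e b : ℝ) * logHeight (w b) := by
    rw [Finset.mul_sum]
    refine Finset.sum_congr rfl fun b _ => ?_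
    show (((2 * d - 1) * e b : ℕ) : ℝ) * logHeight (w b) = _
    rw [Nat.cast_mul, hcast, mul_assoc]
  rw [h5, h6] at h3
  rw [hcast] at h1
  have h7 : c₁ + C₀ ≤ max (c₁ + C₀) 0 := le_max_left _ _
  have h8 : c₁ = totalWeight K * Real.log (Nat.card ((Fin 2 × Fin 2) × Fin 2)) + logHeight A := rfl
  have h9 : logHeight y = logHeight ![evl (pv v w) φ, evl (pv v w) ψ] := rfl
  rw [← h9]
  linarith

end Pool.Agent.Lib.MP_17a322_nt.RO
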