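import Pool.Agent.Lib.MP_17a322_nt.RO.D3
import Pool.Agent.Lib.MP_17a322_nt.RO.E0
import Pool.Agent.Lib.MP_17a322_nt.RO.F1

/-!
Shifting along the elliptic curve.
-/

namespace Pool.Agent.Lib.MP_17a322_nt.RO

open MvPolynomial WeierstrassCurve

universe u

/-- Shift. Proof. Apply `exists_trans` to `f = g = R`, `F = K`, `V = W` (`WeierstrassCurve.map_id`):
a form `φ` with `φ(x(Q), x(P)) = c ∏_σ R(x(ℓ_b Q + σ_b P_b))`, `c ≠ 0`. At `Q = 0` this is
`c ∏_σ R(x(± P_b)) = c R(x(P))^(2^|B|) ≠ 0`. So the binary form `φ(·, x(P))` of degree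
`d = 2^|B| ∑ D b ℓ b ^ 2` is not zero, and by `exists_coeffs` and `card_zeros_le` it vanishes at
`x(Q)` for at most `2 d` points `Q`; `J = 2 d`. If it does not vanish at `x(Q)` then the factor
`σ = false` is nonzero: `x(ℓ_b Q - P_b) = x(P_b - ℓ_b Q)` (`Point.xRep_neg`). -/
theorem exists_shift {K : Type u} [Field K] [CharZero K] [DecidableEq K] (W : WeierstrassCurve K)
    [W.IsElliptic] {B : Type*} [Fintype B] [DecidableEq B] (D : B → ℕ) (ℓ : B → ℤ)
    (R : MvPolynomial (B × Fin 2) K) (hR : MH R D) :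
    ∃ J : ℕ, ∀ P : B → W.toAffine.Point, evl (fun b => (P b).xRep) R ≠ 0 →
      ∀ s : Finset W.toAffine.Point, J < s.card →
        ∃ Q ∈ s, evl (fun b => (P b - ℓ b • Q).xRep) R ≠ 0 := by
  classical
  obtain ⟨φ, _, hφ, _, htr⟩ := exists_trans W D ℓ R R hR hR
  obtain ⟨c, _, hev⟩ := exists_coeffs _ _ φ hφ
  refine ⟨2 * (2 ^ Fintype.card B * ∑ b, D b * (ℓ b).natAbs ^ 2), ?_⟩
  intro P hP s hs
  by_contra hcon
  push Not at hcon
  have hW : W.map (algebraMap K K) = W := by
    rw [Algebra.algebraMap_self]; exact WeierstrassCurve.map_id W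
  have hle := card_zeros_le W (2 ^ Fintype.card B * ∑ b, D b * (ℓ b).natAbs ^ 2)
    (fun k => evl (fun b => (P b).xRep) (c k)) s
    (by
      refine ⟨(0 : W.toAffine.Point).xRep, ?_⟩
      rw [← hev K (0 : W.toAffine.Point).xRep (fun b => (P b).xRep)]
      obtain ⟨t, ht, h1, _⟩ := htr K W hW 0 P
      rw [h1]
      refine mul_ne_zero ht (Finset.prod_ne_zero_iff.mpr fun σ _ => ?_)
      have h2 : (fun b => (ℓ b • (0 : W.toAffine.Point) + sg (σ b) (P b)).xRep) =
          fun b => (P b).xRep := by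
        funext b
        rw [zsmul_zero, zero_add, sg]
        split_ifs
        · rfl
        · exact WeierstrassCurve.Affine.Point.xRep_neg _
      rw [h2]
      exact hP)
    (by
      intro Q hQ
      rw [← hev K Q.xRep (fun b => (P b).xRep)]
      obtain ⟨t, ht, h1, _⟩ := htr K W hW Q P
      rw [h1]
      refine mul_eq_zero_of_right _ (Finset.prod_eq_zero (Finset.mem_univ (fun _ => false)) ?_)
      have h2 : (fun b => (ℓ b • Q + sg false (P b)).xRep) =
          fun b => (P b - ℓ b • Q).xRep := by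
        funext b
        have : ℓ b • Q + sg false (P b) = -(P b - ℓ b • Q) := by
          simp only [sg, Bool.false_eq_true, if_false]
          abel
        rw [this]
        exact WeierstrassCurve.Affine.Point.xRep_neg _
      rw [h2]
      exact hcon Q hQ)
  omega

end Pool.Agent.Lib.MP_17a322_nt.RO
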