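import Pool.Agent.Lib.MP_17a322_nt.RO.E0
import Pool.Agent.Lib.MP_17a322_nt.RO.G5

/-!
The elimination form is not zero.
-/

namespace Pool.Agent.Lib.MP_17a322_nt.RO

open MvPolynomial WeierstrassCurve

universe u

/-- The elimination form of the two norms is not zero.
Proof. Let `Ω = AlgebraicClosure (FractionRing (MvPolynomial (Fin n) K))`, `w_i` the image of the
variable `X i` (algebraically independent), `q_i` a point over `Ω` with `x(q_i) = (w_i, 1)`
(`exists_point`; the last coordinate of `xRep` is `0` or `1`). If `R` were `0`, then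
`R(x(q)) = 0`, so by `hzero` there is `v ≠ 0` with `φ(v, x(q)) = ψ(v, x(q)) = 0`; by
`exists_point` `v = c x(Q)`, `c ≠ 0`, and by `evl_smul` `φ(x(Q), x(q)) = 0 = ψ(x(Q), x(q))`. By
`htr` two factors `hom f D (x(ℓ Q + σ q))` and `hom g D (x(ℓ Q + τ q))` vanish, against
`generic_translate`. -/
theorem elim_ne_zero {K : Type u} [Field K] [CharZero K] (W : WeierstrassCurve K)
    [W.IsElliptic] (n : ℕ) (f g : MvPolynomial (Fin n) K) (hfg : IsRelPrime f g) (D : Fin n → ℕ)
    (hD : ∀ i, D i = max (f.degreeOf i) (g.degreeOf i)) (ℓ : Fin n → ℤ) (d : ℕ) (e : Fin n → ℕ)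
    (φ ψ : MvPolynomial (Option (Fin n) × Fin 2) K) (hφ : MH φ (pd d e)) (hψ : MH ψ (pd d e))
    (R : MvPolynomial (Fin n × Fin 2) K)
    (hzero : ∀ (A : Type u) [Field A] [Algebra K A] [IsAlgClosed A] (w : Fin n → Fin 2 → A),
        evl w R = 0 → ∃ v : Fin 2 → A, v ≠ 0 ∧ evl (pv v w) φ = 0 ∧ evl (pv v w) ψ = 0)
    (htr : ∀ (F : Type u) [Field F] [DecidableEq F] [Algebra K F] (V : WeierstrassCurve F),
        W.map (algebraMap K F) = V → ∀ (Q : V.toAffine.Point) (q : Fin n → V.toAffine.Point),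
          ∃ c : F, c ≠ 0 ∧
            evl (pv Q.xRep (fun b => (q b).xRep)) φ =
              c * ∏ σ : Fin n → Bool, evl (fun b => (ℓ b • Q + sg (σ b) (q b)).xRep) (hom f D) ∧
            evl (pv Q.xRep (fun b => (q b).xRep)) ψ =
              c * ∏ σ : Fin n → Bool, evl (fun b => (ℓ b • Q + sg (σ b) (q b)).xRep) (hom g D)) :
    R ≠ 0 := by
  classical
  intro hR
  let Ω : Type u := AlgebraicClosure (FractionRing (MvPolynomial (Fin n) K))
  let w : Fin n → Ω := fun i => algebraMap (MvPolynomial (Fin n) K) Ω (X i)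
  have hinj : Function.Injective (IsScalarTower.toAlgHom K (MvPolynomial (Fin n) K) Ω) := by
    change Function.Injective (algebraMap (MvPolynomial (Fin n) K) Ω)
    rw [IsScalarTower.algebraMap_eq (MvPolynomial (Fin n) K)
      (FractionRing (MvPolynomial (Fin n) K)) Ω]
    exact (RingHom.injective (algebraMap (FractionRing (MvPolynomial (Fin n) K)) Ω)).comp
      (IsFractionRing.injective (MvPolynomial (Fin n) K) (FractionRing (MvPolynomial (Fin n) K)))
  have hw : AlgebraicIndependent K w :=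
    (MvPolynomial.algebraicIndependent_X (Fin n) K).map'
      (f := IsScalarTower.toAlgHom K (MvPolynomial (Fin n) K) Ω) hinj
  have hpt : ∀ i, ∃ q : (W.map (algebraMap K Ω)).toAffine.Point, q.xRep = ![w i, 1] := by
    intro i
    obtain ⟨q, c, hc, hq⟩ := exists_point (W.map (algebraMap K Ω)) ![w i, 1]
      (fun h => one_ne_zero (α := Ω) (by simpa using congrFun h 1))
    refine ⟨q, ?_⟩
    have h1 : (1 : Ω) = c * q.xRep 1 := by simpa using congrFun hq 1
    have h0 : w i = c * q.xRep 0 := by simpa using congrFun hq 0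
    cases q with
    | zero =>
      change (1 : Ω) = c * (0 : (W.map (algebraMap K Ω)).toAffine.Point).xRep 1 at h1
      rw [Affine.Point.xRep_zero] at h1
      simp at h1
    | some x y h =>
      have hx : (Affine.Point.some x y h).xRep = ![x, 1] := Affine.Point.xRep_some h
      rw [hx] at h1 h0 ⊢
      have hc1 : c = 1 := by simpa using h1.symm
      rw [h0, hc1]
      simp
  choose q hq using hpt
  obtain ⟨v, hv0, hvφ, hvψ⟩ := hzero Ω (fun i => (q i).xRep) (by rw [hR]; simp [evl])
  obtain ⟨Q, c, hc, hQ⟩ := exists_point (W.map (algebraMap K Ω)) v hv0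
  have hsc : ∀ χ : MvPolynomial (Option (Fin n) × Fin 2) K, MH χ (pd d e) →
      evl (pv v (fun i => (q i).xRep)) χ = 0 →
      evl (pv Q.xRep (fun i => (q i).xRep)) χ = 0 := by
    intro χ hχ h
    have h1 : pv v (fun i => (q i).xRep) =
        fun b => (pv (fun _ => c) (fun _ _ => (1 : Ω)) b (0 : Fin 2)) •
          pv Q.xRep (fun i => (q i).xRep) b := by
      funext b
      cases b with
      | none => simp [pv, hQ]
      | some b => simp [pv]
    rw [h1, evl_smul (pd d e) χ hχ] at h
    rcases mul_eq_zero.mp h with h | h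
    · exfalso
      rw [Finset.prod_eq_zero_iff] at h
      obtain ⟨b, -, hb⟩ := h
      cases b with
      | none => exact pow_ne_zero _ hc (by simpa [pv] using hb)
      | some b => simp [pv] at hb
    · exact h
  obtain ⟨c', hc', h1, h2⟩ := htr Ω (W.map (algebraMap K Ω)) rfl Q q
  rw [hsc φ hφ hvφ] at h1
  rw [hsc ψ hψ hvψ] at h2
  have h1' := (mul_eq_zero.mp h1.symm).resolve_left hc'
  have h2' := (mul_eq_zero.mp h2.symm).resolve_left hc'
  rw [Finset.prod_eq_zero_iff] at h1' h2'
  obtain ⟨σ, -, hσ⟩ := h1'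
  obtain ⟨τ, -, hτ⟩ := h2'
  exact generic_translate W n f g hfg D hD ℓ Ω w hw q hq Q σ τ hσ hτ

end Pool.Agent.Lib.MP_17a322_nt.RO
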