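import Pool.Agent.Lib.MP_17a322_nt.RO.A2
import Pool.Agent.Lib.MP_17a322_nt.RO.B2
import Pool.Agent.Lib.MP_17a322_nt.RO.H

/-!
The height inequality along the translates in direction l, from elimination.
-/

namespace Pool.Agent.Lib.MP_17a322_nt.RO

open MvPolynomial WeierstrassCurve Height

universe u

theorem M2_card {B : Type*} [Fintype B] [DecidableEq B] (b : B) (s : Bool) :
    (Finset.univ.filter (fun σ : B → Bool => σ b = s)).card = 2 ^ (Fintype.card B - 1) := by
  classical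
  have h : Finset.univ.filter (fun σ : B → Bool => σ b = s) =
      Fintype.piFinset (fun b' : B => if b' = b then ({s} : Finset Bool) else Finset.univ) := by
    ext σ
    simp only [Finset.mem_filter, Finset.mem_univ, true_and, Fintype.mem_piFinset]
    constructor
    · intro h b'
      by_cases hb : b' = b
      · subst hb
        simp [h]
      · simp [hb]
    · intro h
      have := h b
      simpa using this
  rw [h, Fintype.card_piFinset, ← Finset.mul_prod_erase Finset.univ _ (Finset.mem_univ b)]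
  have h1 : ∏ x ∈ Finset.univ.erase b, (if x = b then ({s} : Finset Bool) else Finset.univ).card =
      ∏ _x ∈ (Finset.univ : Finset B).erase b, 2 := by
    refine Finset.prod_congr rfl fun x hx => ?_
    rw [if_neg (Finset.ne_of_mem_erase hx)]
    rfl
  rw [h1, Finset.prod_const, Finset.card_erase_of_mem (Finset.mem_univ b), Finset.card_univ]
  simp

theorem M2_sum {B : Type*} [Fintype B] [DecidableEq B] (b : B) (g : Bool → ℝ) :
    ∑ σ : B → Bool, g (σ b) = 2 ^ (Fintype.card B - 1) * (g true + g false) := by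
  have h : ∀ σ : B → Bool, g (σ b) = (if σ b = true then g true else 0) + (if σ b = false then g false else 0) := by
    intro σ
    cases σ b <;> simp
  rw [Finset.sum_congr rfl fun σ _ => h σ, Finset.sum_add_distrib, ← Finset.sum_filter, ← Finset.sum_filter,
    Finset.sum_const, Finset.sum_const, M2_card b true, M2_card b false, nsmul_eq_mul, nsmul_eq_mul]
  push_cast
  ring

/-- Height part. Suppose `φ`, `ψ` are related to the norms of `F`, `G` (forms of multidegree `D`) as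
in `exists_trans` and satisfy the elimination inequality. Then the defect of `(F, G)` at
`x(ℓ Q + q)` is at most `(1 + 2 d) ∑ e_b h(x(q_b)) + C` where
`d = 2^n ∑ D b ℓ b ^ 2`, `e b = 2^n D b`.

Proof. For each `σ` let `y_σ = (F, G)(x(ℓ Q + σ q))`. By `logHeight_evl_le` there is `C₁` with
`h(y_σ) ≤ ∑ D b h(x(ℓ_b Q + σ_b q_b)) + C₁`. All `y_σ` are nonzero because `(φ, ψ) ≠ 0`
(`hne`), so by `logHeight_fun_prod_eq` and `logHeight_comp_le` (the vector
`(∏ F_σ, ∏ G_σ)` consists of two coordinates of the tensor product of the `y_σ`), and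
`logHeight_smul_eq_logHeight`, `h([φ : ψ]) ≤ ∑_σ h(y_σ)`. Hence the defect at `σ = true` is at most
`∑_σ (∑_b D b h(x(ℓ_b Q + σ_b q_b)) - h(y_σ)) + 2^n C₁ ≤
∑_b D b 2^(n-1) (h(x(ℓ_b Q + q_b)) + h(x(ℓ_b Q - q_b))) - h([φ : ψ]) + 2^n C₁` and by `parallelogram`
and `h(x(ℓ_b Q)) ≤ ℓ_b^2 h(x(Q)) + C` (`exists_mulForm` and `logHeight_evl_le`, or induction from
`parallelogram`) this is at most `2^n ∑ D b (ℓ_b^2 h(x(Q)) + h(x(q_b))) - h([φ : ψ]) + C₂
= d h(x(Q)) + ∑ e b h(x(q_b)) - h([φ : ψ]) + C₂`. Insert `helim`. -/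
theorem defect_le_of_elim {K : Type u} [Field K] [DecidableEq K] [AdmissibleAbsValues K]
    [CharZero K] (W : WeierstrassCurve K) [W.IsElliptic] (n : ℕ) (D : Fin n → ℕ)
    (F G : MvPolynomial (Fin n × Fin 2) K) (hF : MH F D) (hG : MH G D) (ℓ : Fin n → ℤ)
    (φ ψ : MvPolynomial (Option (Fin n) × Fin 2) K) (P₀ : (Fin n → W.toAffine.Point) → Prop)
    (htr : ∀ (Q : W.toAffine.Point) (q : Fin n → W.toAffine.Point),
          ∃ c : K, c ≠ 0 ∧
            evl (pv Q.xRep (fun b => (q b).xRep)) φ =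
              c * ∏ σ : Fin n → Bool, evl (fun b => (ℓ b • Q + sg (σ b) (q b)).xRep) F ∧
            evl (pv Q.xRep (fun b => (q b).xRep)) ψ =
              c * ∏ σ : Fin n → Bool, evl (fun b => (ℓ b • Q + sg (σ b) (q b)).xRep) G)
    (hne : ∀ (Q : W.toAffine.Point) (q : Fin n → W.toAffine.Point), P₀ q →
      ¬ (evl (pv Q.xRep (fun b => (q b).xRep)) φ = 0 ∧
        evl (pv Q.xRep (fun b => (q b).xRep)) ψ = 0))
    (C₀ : ℝ)
    (helim : ∀ (Q : W.toAffine.Point) (q : Fin n → W.toAffine.Point), P₀ q →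
      ((2 ^ n * ∑ b, D b * (ℓ b).natAbs ^ 2 : ℕ) : ℝ) * logHeight Q.xRep ≤
        logHeight ![evl (pv Q.xRep (fun b => (q b).xRep)) φ,
          evl (pv Q.xRep (fun b => (q b).xRep)) ψ] +
        2 * ((2 ^ n * ∑ b, D b * (ℓ b).natAbs ^ 2 : ℕ) : ℝ) *
          ∑ b, ((2 ^ n * D b : ℕ) : ℝ) * logHeight (q b).xRep + C₀) :
    ∃ C : ℝ, ∀ (Q : W.toAffine.Point) (q : Fin n → W.toAffine.Point), P₀ q →
      ∑ b, (D b : ℝ) * logHeight (ℓ b • Q + q b).xRep -
          logHeight ![evl (fun b => (ℓ b • Q + q b).xRep) F,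
            evl (fun b => (ℓ b • Q + q b).xRep) G] ≤
        (1 + 2 * ((2 ^ n * ∑ b, D b * (ℓ b).natAbs ^ 2 : ℕ) : ℝ)) *
          ∑ b, ((2 ^ n * D b : ℕ) : ℝ) * logHeight (q b).xRep + C := by
  classical
  obtain ⟨Cp, hCp⟩ := parallelogram W
  obtain ⟨qf, C', hq1, -, hq2⟩ := exists_quadratic (fun P : W.toAffine.Point => logHeight P.xRep)
    ⟨0, fun P => logHeight_nonneg _⟩ Cp hCp
  obtain ⟨C₁, hC₁0, hC₁⟩ := logHeight_evl_le ![F, G] D (by
    intro k
    fin_cases k
    · exact hF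
    · exact hG)
  set d : ℝ := ((2 ^ n * ∑ b, D b * (ℓ b).natAbs ^ 2 : ℕ) : ℝ) with hd
  have hd' : d = 2 ^ n * ∑ b, (D b : ℝ) * (ℓ b : ℝ) ^ 2 := by
    rw [hd]
    push_cast
    refine congrArg _ (Finset.sum_congr rfl fun b _ => ?_)
    rw [Nat.cast_natAbs, Int.cast_abs, sq_abs]
  refine ⟨C₀ + 2 ^ n * C₁ + ∑ b, (D b : ℝ) * 2 ^ (n - 1) * (Cp + 2 * ((ℓ b : ℝ) ^ 2 * C' + C')),
    fun Q q hP => ?_⟩
  set x : (Fin n → Bool) → Fin n → Fin 2 → K := fun σ b => (ℓ b • Q + sg (σ b) (q b)).xRep with hx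
  set y : (Fin n → Bool) → Fin 2 → K := fun σ => ![evl (x σ) F, evl (x σ) G] with hy
  have h1 : ∀ σ, logHeight (y σ) ≤ ∑ b, (D b : ℝ) * logHeight (x σ b) + C₁ := by
    intro σ
    have h := hC₁ (x σ) (fun b => Affine.Point.xRep_ne_zero _)
    have e : (fun k => evl (x σ) ((![F, G] : Fin 2 → MvPolynomial (Fin n × Fin 2) K) k)) = y σ := by
      funext k
      fin_cases k <;> rfl
    rw [e] at h
    exact h
  obtain ⟨c, hc, e1, e2⟩ := htr Q q
  have hy0 : ∀ σ, y σ ≠ 0 := by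
    intro σ h0
    refine hne Q q hP ⟨?_, ?_⟩
    · rw [e1]
      have : evl (x σ) F = 0 := congrFun h0 0
      rw [Finset.prod_eq_zero (Finset.mem_univ σ) this, mul_zero]
    · rw [e2]
      have : evl (x σ) G = 0 := congrFun h0 1
      rw [Finset.prod_eq_zero (Finset.mem_univ σ) this, mul_zero]
  have hprod : logHeight ![evl (pv Q.xRep (fun b => (q b).xRep)) φ,
      evl (pv Q.xRep (fun b => (q b).xRep)) ψ] ≤ ∑ σ, logHeight (y σ) := by
    have e3 : ![evl (pv Q.xRep (fun b => (q b).xRep)) φ, evl (pv Q.xRep (fun b => (q b).xRep)) ψ] =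
        c • ((fun I : (Fin n → Bool) → Fin 2 => ∏ σ, y σ (I σ)) ∘ (fun (k : Fin 2) (_ : Fin n → Bool) => k)) := by
      funext k
      rw [e1, e2]
      fin_cases k <;> rfl
    rw [e3, logHeight_smul_eq_logHeight _ hc]
    refine (logHeight_comp_le _ _).trans (le_of_eq ?_)
    exact logHeight_fun_prod_eq hy0
  have hDef0 : ∀ σ ∈ (Finset.univ : Finset (Fin n → Bool)),
      0 ≤ ∑ b, (D b : ℝ) * logHeight (x σ b) + C₁ - logHeight (y σ) := fun σ _ => by
    linarith [h1 σ]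
  have hDef := Finset.single_le_sum hDef0 (Finset.mem_univ (fun _ => true))
  rw [Finset.sum_sub_distrib, Finset.sum_add_distrib, Finset.sum_const, Finset.card_univ, nsmul_eq_mul,
    Fintype.card_fun, Fintype.card_bool, Fintype.card_fin, Finset.sum_comm] at hDef
  have hS : ∀ b, ∑ σ : Fin n → Bool, (D b : ℝ) * logHeight (x σ b) ≤
      2 ^ n * ((D b : ℝ) * (ℓ b : ℝ) ^ 2) * logHeight Q.xRep + ((2 ^ n * D b : ℕ) : ℝ) * logHeight (q b).xRep +
        (D b : ℝ) * 2 ^ (n - 1) * (Cp + 2 * ((ℓ b : ℝ) ^ 2 * C' + C')) := by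
    intro b
    have hs := M2_sum b (fun s => (D b : ℝ) * logHeight (ℓ b • Q + sg s (q b)).xRep)
    have hs' : ∑ σ : Fin n → Bool, (D b : ℝ) * logHeight (x σ b) =
        2 ^ (n - 1) * ((D b : ℝ) * logHeight (ℓ b • Q + q b).xRep + (D b : ℝ) * logHeight (ℓ b • Q - q b).xRep) := by
      rw [Fintype.card_fin] at hs
      simp only [sg, if_true, Bool.false_eq_true, if_false] at hs
      rw [← sub_eq_add_neg] at hs
      rw [← hs]
      rfl
    rw [hs']
    have hp := (abs_le.1 (hCp (ℓ b • Q) (q b))).2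
    have hq3 := quadratic_zsmul qf hq2 Q (ℓ b)
    have hq4 := (abs_le.1 (hq1 (ℓ b • Q))).1
    have hq5 := (abs_le.1 (hq1 Q)).2
    have hsq : (0 : ℝ) ≤ (ℓ b : ℝ) ^ 2 := by positivity
    have hq6 : logHeight (ℓ b • Q).xRep ≤ (ℓ b : ℝ) ^ 2 * (logHeight Q.xRep + C') + C' := by
      have h2 : (ℓ b : ℝ) ^ 2 * qf Q ≤ (ℓ b : ℝ) ^ 2 * (logHeight Q.xRep + C') :=
        mul_le_mul_of_nonneg_left (by linarith) hsq
      rw [hq3] at hq4
      linarith
    have hn : (2 : ℝ) ^ n = 2 ^ (n - 1) * 2 := by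
      have hn1 : 1 ≤ n := by
        have := b.2
        omega
      rw [← pow_succ]
      congr 1
      omega
    have hD0 : (0 : ℝ) ≤ 2 ^ (n - 1) * (D b : ℝ) := by positivity
    have h7 : logHeight (ℓ b • Q + q b).xRep + logHeight (ℓ b • Q - q b).xRep ≤
        2 * ((ℓ b : ℝ) ^ 2 * (logHeight Q.xRep + C') + C') + 2 * logHeight (q b).xRep + Cp := by
      linarith
    have h8 := mul_le_mul_of_nonneg_left h7 hD0
    push_cast
    rw [hn]
    linarith
  have hSs := Finset.sum_le_sum fun b (_ : b ∈ (Finset.univ : Finset (Fin n))) => hS b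
  rw [Finset.sum_add_distrib, Finset.sum_add_distrib, ← Finset.sum_mul, ← Finset.mul_sum, ← hd'] at hSs
  have hel := helim Q q hP
  have hx1 : ∑ b, (D b : ℝ) * logHeight (ℓ b • Q + q b).xRep -
      logHeight ![evl (fun b => (ℓ b • Q + q b).xRep) F, evl (fun b => (ℓ b • Q + q b).xRep) G] =
      ∑ b, (D b : ℝ) * logHeight (x (fun _ => true) b) - logHeight (y (fun _ => true)) := rfl
  rw [hx1]
  push_cast at hDef hSs hel ⊢
  nlinarith

end Pool.Agent.Lib.MP_17a322_nt.RO
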