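import Pool.Agent.Lib.MP_17a322_nt.RO.E2
import Pool.Agent.Lib.MP_17a322_nt.RO.E3
import Pool.Agent.Lib.MP_17a322_nt.RO.M1
import Pool.Agent.Lib.MP_17a322_nt.RO.M2

/-!
The inequality along the translates of the elliptic curve in direction l.
-/

namespace Pool.Agent.Lib.MP_17a322_nt.RO

open MvPolynomial WeierstrassCurve Height

universe u

/-- For every direction `ℓ` there is a nonzero form `R` such that the defect of `(f, g)` at
`x(ℓ Q + q)` is at most `(1 + 2 d) ∑ e_b h(x(q_b)) + C` whenever `R(x(q)) ≠ 0`.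
Proof. If `d = 2^n ∑ D b ℓ b ^ 2 = 0`, then `D b ≠ 0` implies `ℓ b = 0`, so
`∑ D b h(x(ℓ_b Q + q_b)) = ∑ D b h(x(q_b))`, and `R = 1` works (`logHeight ≥ 0`). If `d > 0`
apply `exists_trans` to `hom f D`, `hom g D` (`mh_hom`), then `exists_elim` and `elim_height`,
`elim_ne_zero`, and `defect_le_of_elim` with `P₀ q := R(x(q)) ≠ 0` (`hne` follows from the identity
`R u_i^(2d-1) = a_i φ + b_i ψ` as `x(Q) ≠ 0`; replace `2d - 1` by `2d` in the bound, heights are
`≥ 0`). -/
theorem exists_defect_le {K : Type u} [Field K] [DecidableEq K] [AdmissibleAbsValues K]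
    [CharZero K] (W : WeierstrassCurve K) [W.IsElliptic] (n : ℕ) (f g : MvPolynomial (Fin n) K)
    (hfg : IsRelPrime f g) (D : Fin n → ℕ)
    (hD : ∀ i, D i = max (f.degreeOf i) (g.degreeOf i)) (ℓ : Fin n → ℤ) :
    ∃ (R : MvPolynomial (Fin n × Fin 2) K) (E : Fin n → ℕ) (C : ℝ), MH R E ∧ R ≠ 0 ∧
      ∀ (Q : W.toAffine.Point) (q : Fin n → W.toAffine.Point),
        evl (fun b => (q b).xRep) R ≠ 0 →
          ∑ b, (D b : ℝ) * logHeight (ℓ b • Q + q b).xRep -
              logHeight ![evl (fun b => (ℓ b • Q + q b).xRep) (hom f D),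
                evl (fun b => (ℓ b • Q + q b).xRep) (hom g D)] ≤
            (1 + 2 * ((2 ^ n * ∑ b, D b * (ℓ b).natAbs ^ 2 : ℕ) : ℝ)) *
              ∑ b, ((2 ^ n * D b : ℕ) : ℝ) * logHeight (q b).xRep + C := by
  classical
  have hdf : ∀ i, f.degreeOf i ≤ D i := fun i => by rw [hD i]; exact le_max_left _ _
  have hdg : ∀ i, g.degreeOf i ≤ D i := fun i => by rw [hD i]; exact le_max_right _ _
  have hFf : MH (hom f D) D := mh_hom f D hdf
  have hFg : MH (hom g D) D := mh_hom g D hdg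
  by_cases h0 : 2 ^ n * ∑ b, D b * (ℓ b).natAbs ^ 2 = 0
  · refine ⟨1, 0, 0, isWeightedHomogeneous_one _ _, one_ne_zero, ?_⟩
    intro Q q _
    have hs : ∑ b, D b * (ℓ b).natAbs ^ 2 = 0 := by
      rcases Nat.mul_eq_zero.mp h0 with h | h
      · exact absurd h (by positivity)
      · exact h
    have hz : ∀ b, D b = 0 ∨ ℓ b = 0 := by
      intro b
      have := (Finset.sum_eq_zero_iff.mp hs) b (Finset.mem_univ b)
      rcases Nat.mul_eq_zero.mp this with h | h
      · exact Or.inl h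
      · exact Or.inr (Int.natAbs_eq_zero.mp (pow_eq_zero_iff (two_ne_zero) |>.mp h))
    have h1 : ∑ b, (D b : ℝ) * logHeight (ℓ b • Q + q b).xRep =
        ∑ b, (D b : ℝ) * logHeight (q b).xRep := by
      refine Finset.sum_congr rfl fun b _ => ?_
      rcases hz b with h | h
      · simp [h]
      · simp [h]
    have h2 : 0 ≤ logHeight ![evl (fun b => (ℓ b • Q + q b).xRep) (hom f D),
                evl (fun b => (ℓ b • Q + q b).xRep) (hom g D)] := logHeight_nonneg _
    have h3 : ∑ b, (D b : ℝ) * logHeight (q b).xRep ≤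
        ∑ b, ((2 ^ n * D b : ℕ) : ℝ) * logHeight (q b).xRep := by
      refine Finset.sum_le_sum fun b _ => ?_
      refine mul_le_mul_of_nonneg_right ?_ (logHeight_nonneg _)
      have : D b ≤ 2 ^ n * D b := Nat.le_mul_of_pos_left _ (by positivity)
      exact_mod_cast this
    rw [h1, h0]
    simp only [Nat.cast_zero, mul_zero, add_zero, one_mul]
    linarith
  · have hd : 0 < 2 ^ n * ∑ b, D b * (ℓ b).natAbs ^ 2 := Nat.pos_of_ne_zero h0
    obtain ⟨φ, ψ, hφ, hψ, htr⟩ := exists_trans W D ℓ (hom f D) (hom g D) hFf hFg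
    simp only [Fintype.card_fin] at hφ hψ
    obtain ⟨R, a, b, hR, ha, hb, hid, hzero⟩ :=
      exists_elim (2 ^ n * ∑ b, D b * (ℓ b).natAbs ^ 2) hd (fun b => 2 ^ n * D b) φ ψ hφ hψ
    obtain ⟨C, hC0, hC⟩ := elim_height (2 ^ n * ∑ b, D b * (ℓ b).natAbs ^ 2) hd
      (fun b => 2 ^ n * D b) φ ψ R a b ha hb (fun v w i => hid K v w i)
    have hRne : R ≠ 0 := elim_ne_zero W n f g hfg D hD ℓ _ _ φ ψ hφ hψ R hzero htr
    obtain ⟨C', hC'⟩ := defect_le_of_elim W n D (hom f D) (hom g D) hFf hFg ℓ φ ψ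
      (fun q => evl (fun b => (q b).xRep) R ≠ 0)
      (fun Q q => htr K W (by
        rw [Algebra.algebraMap_self]; exact WeierstrassCurve.map_id W) Q q)
      (by
        rintro Q q hq ⟨h1, h2⟩
        have hx : ∃ i, Q.xRep i ≠ 0 := by
          by_contra hcon
          push Not at hcon
          exact WeierstrassCurve.Affine.Point.xRep_ne_zero Q (funext hcon)
        obtain ⟨i, hi⟩ := hx
        have := hid K Q.xRep (fun b => (q b).xRep) i
        rw [h1, h2, mul_zero, mul_zero, add_zero] at this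
        rcases mul_eq_zero.mp this with h | h
        · exact hq h
        · exact (pow_ne_zero _ hi) h)
      C
      (by
        intro Q q hq
        have h1 := hC Q.xRep (fun b => (q b).xRep)
          (WeierstrassCurve.Affine.Point.xRep_ne_zero Q)
          (fun b => WeierstrassCurve.Affine.Point.xRep_ne_zero (q b)) hq
        have h2 : 0 ≤ ∑ b, ((2 ^ n * D b : ℕ) : ℝ) * logHeight (q b).xRep :=
          Finset.sum_nonneg fun b _ => mul_nonneg (Nat.cast_nonneg _) (logHeight_nonneg _)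
        linarith)
    exact ⟨R, _, C', hR, hRne, hC'⟩

end Pool.Agent.Lib.MP_17a322_nt.RO
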