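import Mathlib

/-!
Simultaneous approximation: an integer vector is close to a multiple of a short integer vector.
-/

namespace Pool.Agent.Lib.MP_17a322_nt.RO

open Finset

/-- Simultaneous Dirichlet approximation. -/
theorem N1_dirichlet (n N : ℕ) (hN : 0 < N) (θ : Fin n → ℝ) :
    ∃ (s : ℕ) (ℓ : Fin n → ℤ), 1 ≤ s ∧ s ≤ N ^ n ∧ ∀ i, |(s : ℝ) * θ i - ℓ i| < 1 / N := by
  have hN' : (0 : ℝ) < N := by exact_mod_cast hN
  have hfl : ∀ x : ℝ, 0 ≤ ⌊Int.fract x * N⌋ ∧ ⌊Int.fract x * N⌋ < N := by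
    intro x
    constructor
    · exact Int.floor_nonneg.2 (mul_nonneg (Int.fract_nonneg x) hN'.le)
    · rw [Int.floor_lt]
      have h1 := Int.fract_lt_one x
      push_cast
      nlinarith
  let F : Fin (N ^ n + 1) → (Fin n → Fin N) := fun s i =>
    ⟨(⌊Int.fract ((s : ℕ) * θ i) * N⌋).toNat, by
      have h1 := hfl ((s : ℕ) * θ i)
      omega⟩
  have hcard : Fintype.card (Fin n → Fin N) < Fintype.card (Fin (N ^ n + 1)) := by
    simp
  obtain ⟨s₁, s₂, hne, hF⟩ := Fintype.exists_ne_map_eq_of_card_lt F hcard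
  have key : ∀ a b : Fin (N ^ n + 1), a < b → F a = F b →
      ∃ (s : ℕ) (ℓ : Fin n → ℤ), 1 ≤ s ∧ s ≤ N ^ n ∧ ∀ i, |(s : ℝ) * θ i - ℓ i| < 1 / N := by
    intro a b hab hab'
    have hab1 : (a : ℕ) < (b : ℕ) := hab
    refine ⟨(b : ℕ) - (a : ℕ), fun i => ⌊((b : ℕ) : ℝ) * θ i⌋ - ⌊((a : ℕ) : ℝ) * θ i⌋, by omega, ?_, ?_⟩
    · have := b.2
      omega
    · intro i
      have h1 : ⌊Int.fract (((a : ℕ) : ℝ) * θ i) * N⌋ = ⌊Int.fract (((b : ℕ) : ℝ) * θ i) * N⌋ := by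
        have h2 := congrArg (fun G : Fin n → Fin N => ((G i : Fin N) : ℕ)) hab'
        have h3 : (⌊Int.fract (((a : ℕ) : ℝ) * θ i) * N⌋).toNat = (⌊Int.fract (((b : ℕ) : ℝ) * θ i) * N⌋).toNat := h2
        have h4 := hfl (((a : ℕ) : ℝ) * θ i)
        have h5 := hfl (((b : ℕ) : ℝ) * θ i)
        omega
      have h2 := Int.abs_sub_lt_one_of_floor_eq_floor h1
      have h3 : (((b : ℕ) - (a : ℕ) : ℕ) : ℝ) = ((b : ℕ) : ℝ) - ((a : ℕ) : ℝ) := by
        rw [Nat.cast_sub hab1.le]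
      rw [h3]
      push_cast
      have h4 : (((b : ℕ) : ℝ) - ((a : ℕ) : ℝ)) * θ i - ((⌊((b : ℕ) : ℝ) * θ i⌋ : ℝ) - (⌊((a : ℕ) : ℝ) * θ i⌋ : ℝ))
          = -(Int.fract (((a : ℕ) : ℝ) * θ i) - Int.fract (((b : ℕ) : ℝ) * θ i)) := by
        have h5 := Int.floor_add_fract (((a : ℕ) : ℝ) * θ i)
        have h6 := Int.floor_add_fract (((b : ℕ) : ℝ) * θ i)
        linarith
      rw [h4, abs_neg, lt_div_iff₀ hN', ← abs_of_pos hN', ← abs_mul, sub_mul]
      exact h2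
  rcases lt_or_gt_of_ne hne with h | h
  · exact key s₁ s₂ h hF
  · exact key s₂ s₁ h hF.symm

/-- Dirichlet. Proof. If `M = 0` take `ℓ = r = 0`, `μ = 0`. Otherwise let `θ i = m i / M` and by the
pigeonhole principle (the `N^n + 1` vectors of fractional parts of `s θ`, `0 ≤ s ≤ N^n`, and
`N^n` boxes of side `1/N`) there are `1 ≤ s ≤ N^n` and `ℓ i` with `|s θ i - ℓ i| < 1 / N`; since
`|θ i| ≤ 1`, `|ℓ i| ≤ s`. Let `μ = round (M / s)` and `r i = m i - ℓ i μ`. Then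
`|r i| ≤ |m i - (M/s) ℓ i| + |ℓ i| / 2 ≤ M / (s N) + s / 2`, so `|ℓ i| |r j| ≤ M / N + s^2 / 2`. -/
theorem exists_direction (n N : ℕ) (hN : 0 < N) (m : Fin n → ℤ) (M : ℕ)
    (hm : ∀ i, |m i| ≤ (M : ℤ)) :
    ∃ (ℓ r : Fin n → ℤ) (μ : ℤ), (∀ i, m i = ℓ i * μ + r i) ∧
      (∀ i, |ℓ i| ≤ (N : ℤ) ^ n) ∧
      (∀ i j, (|ℓ i| : ℝ) * (|r j| : ℝ) ≤ (M : ℝ) / N + (N : ℝ) ^ (2 * n)) ∧
      (∀ j, (|r j| : ℝ) ≤ (M : ℝ) / N + (N : ℝ) ^ (2 * n)) := by
  have hN' : (0 : ℝ) < N := by exact_mod_cast hN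
  have hN1 : (1 : ℝ) ≤ N := by exact_mod_cast hN
  rcases Nat.eq_zero_or_pos M with hM | hM
  · subst hM
    have hm0 : ∀ i, m i = 0 := fun i => by
      have := hm i
      simpa using this
    refine ⟨fun _ => 0, fun _ => 0, 0, fun i => by simp [hm0 i], fun i => by simp, fun i j => ?_, fun j => ?_⟩
    · have : (0 : ℝ) ≤ (N : ℝ) ^ (2 * n) := by positivity
      simpa using this
    · have : (0 : ℝ) ≤ (N : ℝ) ^ (2 * n) := by positivity
      simpa using this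
  · have hM' : (0 : ℝ) < M := by exact_mod_cast hM
    obtain ⟨s, ℓ, hs1, hs2, hℓ⟩ := N1_dirichlet n N hN (fun i => (m i : ℝ) / M)
    have hs' : (0 : ℝ) < s := by exact_mod_cast hs1
    have hs1' : (1 : ℝ) ≤ s := by exact_mod_cast hs1
    have hs2' : (s : ℝ) ≤ (N : ℝ) ^ n := by exact_mod_cast hs2
    have hmR : ∀ i, |(m i : ℝ)| ≤ M := fun i => by
      have := hm i
      exact_mod_cast this
    have hθ : ∀ i, |(m i : ℝ) / M| ≤ 1 := fun i => by
      rw [abs_div, abs_of_pos hM', div_le_one hM']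
      exact hmR i
    have hN2 : (1 : ℝ) / N ≤ 1 := by
      rw [div_le_one hN']
      exact hN1
    have hℓs : ∀ i, |ℓ i| ≤ (s : ℤ) := fun i => by
      have h1 : |(ℓ i : ℝ)| < s + 1 := by
        have h2 := hℓ i
        have h3 : |(ℓ i : ℝ)| ≤ |(s : ℝ) * ((m i : ℝ) / M)| + |(s : ℝ) * ((m i : ℝ) / M) - ℓ i| := by
          have h4 : (ℓ i : ℝ) = (s : ℝ) * ((m i : ℝ) / M) - ((s : ℝ) * ((m i : ℝ) / M) - ℓ i) := by ring
          calc |(ℓ i : ℝ)| = |(s : ℝ) * ((m i : ℝ) / M) - ((s : ℝ) * ((m i : ℝ) / M) - ℓ i)| := by rw [← h4]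
            _ ≤ _ := abs_sub _ _
        have h5 : |(s : ℝ) * ((m i : ℝ) / M)| ≤ s := by
          rw [abs_mul, abs_of_pos hs']
          have := hθ i
          nlinarith
        linarith
      have h2 : |ℓ i| < (s : ℤ) + 1 := by exact_mod_cast h1
      omega
    have hℓsR : ∀ i, |(ℓ i : ℝ)| ≤ s := fun i => by
      have := hℓs i
      exact_mod_cast this
    have hr : ∀ j, |(m j : ℝ) - ℓ j * (round ((M : ℝ) / s) : ℤ)| ≤ (M : ℝ) / (s * N) + (s : ℝ) / 2 := by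
      intro j
      have h1 : |(m j : ℝ) - (M : ℝ) / s * ℓ j| ≤ (M : ℝ) / (s * N) := by
        have h2 := (hℓ j).le
        have h3 : (m j : ℝ) - (M : ℝ) / s * ℓ j = (M : ℝ) / s * ((s : ℝ) * ((m j : ℝ) / M) - ℓ j) := by
          field_simp
        rw [h3, abs_mul, abs_of_pos (div_pos hM' hs')]
        calc (M : ℝ) / s * |(s : ℝ) * ((m j : ℝ) / M) - ℓ j| ≤ (M : ℝ) / s * (1 / N) :=
              mul_le_mul_of_nonneg_left h2 (div_pos hM' hs').le
          _ = (M : ℝ) / (s * N) := by field_simp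
      have h2 : |(ℓ j : ℝ) * ((M : ℝ) / s - (round ((M : ℝ) / s) : ℤ))| ≤ (s : ℝ) / 2 := by
        rw [abs_mul]
        have h3 := abs_sub_round ((M : ℝ) / s)
        have h4 := hℓsR j
        have h5 := abs_nonneg (ℓ j : ℝ)
        have h6 := abs_nonneg ((M : ℝ) / s - (round ((M : ℝ) / s) : ℤ))
        calc |(ℓ j : ℝ)| * |(M : ℝ) / s - (round ((M : ℝ) / s) : ℤ)| ≤ s * (1 / 2) :=
              mul_le_mul h4 h3 h6 hs'.le
          _ = (s : ℝ) / 2 := by ring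
      have h3 : (m j : ℝ) - ℓ j * (round ((M : ℝ) / s) : ℤ) = ((m j : ℝ) - (M : ℝ) / s * ℓ j) +
          (ℓ j : ℝ) * ((M : ℝ) / s - (round ((M : ℝ) / s) : ℤ)) := by ring
      rw [h3]
      exact (abs_add_le _ _).trans (add_le_add h1 h2)
    have hs4 : (s : ℝ) * s ≤ (N : ℝ) ^ (2 * n) := by
      have h1 : (N : ℝ) ^ (2 * n) = (N : ℝ) ^ n * (N : ℝ) ^ n := by
        rw [two_mul, pow_add]
      rw [h1]
      exact mul_le_mul hs2' hs2' hs'.le (by positivity)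
    have hs5 : (s : ℝ) ≤ s * s := by nlinarith
    refine ⟨ℓ, fun i => m i - ℓ i * round ((M : ℝ) / s), round ((M : ℝ) / s), fun i => by ring, fun i => ?_, fun i j => ?_, fun j => ?_⟩
    · refine (hℓs i).trans ?_
      exact_mod_cast hs2
    · have h1 := hr j
      have h2 := hℓsR i
      push_cast
      have h3 : |(ℓ i : ℝ)| * |(m j : ℝ) - ℓ j * (round ((M : ℝ) / s) : ℤ)| ≤ s * ((M : ℝ) / (s * N) + (s : ℝ) / 2) :=
        mul_le_mul h2 h1 (abs_nonneg _) hs'.le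
      have h4 : (s : ℝ) * ((M : ℝ) / (s * N) + (s : ℝ) / 2) = (M : ℝ) / N + s * s / 2 := by
        field_simp
      rw [h4] at h3
      have h5 : (0 : ℝ) ≤ s * s := by positivity
      linarith
    · have h1 := hr j
      push_cast
      have h2 : (M : ℝ) / (s * N) ≤ (M : ℝ) / N := by
        apply div_le_div_of_nonneg_left hM'.le hN'
        nlinarith
      linarith

end Pool.Agent.Lib.MP_17a322_nt.RO
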