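import Pool.Agent.Lib.MP_17a322_nt.RO.F2
import Pool.Agent.Lib.MP_17a322_nt.RO.M3

/-!
The bound in a given direction.
-/

namespace Pool.Agent.Lib.MP_17a322_nt.RO

open MvPolynomial WeierstrassCurve Height

universe u

/-- Arithmetic of the bound. -/
theorem N3_arith {n : ℕ} (D : Fin n → ℕ) (ℓ r : Fin n → ℤ) (J j : ℕ) (hj : j ≤ J) (C₁ : ℝ) (hC₁ : 0 < C₁)
    (h : Fin n → ℝ) (hh : ∀ b, h b ≤ C₁ * (((r b + ℓ b * j : ℤ) : ℝ) ^ 2 + 1)) :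
    (1 + 2 * ((2 ^ n * ∑ b, D b * (ℓ b).natAbs ^ 2 : ℕ) : ℝ)) * ∑ b, ((2 ^ n * D b : ℕ) : ℝ) * h b ≤
      16 * 4 ^ n * (1 + ∑ b, (D b : ℝ)) ^ 2 * C₁ * (1 + ∑ b, (ℓ b : ℝ) ^ 2) * ∑ b, (r b : ℝ) ^ 2 +
      (1 + 2 * ((2 ^ n * ∑ b, D b * (ℓ b).natAbs ^ 2 : ℕ) : ℝ)) *
        ∑ b, ((2 ^ n * D b : ℕ) : ℝ) * (C₁ * (2 * (ℓ b : ℝ) ^ 2 * (J : ℝ) ^ 2 + 1)) := by
  set p : ℝ := 2 ^ n with hp
  set S : ℝ := ∑ b, (D b : ℝ) with hS
  set L : ℝ := ∑ b, (ℓ b : ℝ) ^ 2 with hL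
  set T : ℝ := ∑ b, (r b : ℝ) ^ 2 with hT
  set d : ℝ := ((2 ^ n * ∑ b, D b * (ℓ b).natAbs ^ 2 : ℕ) : ℝ) with hd
  have hp1 : 1 ≤ p := one_le_pow₀ (by norm_num)
  have h4 : (4 : ℝ) ^ n = p * p := by
    rw [hp, ← mul_pow]
    norm_num
  have hS0 : 0 ≤ S := Finset.sum_nonneg fun b _ => Nat.cast_nonneg _
  have hL0 : 0 ≤ L := Finset.sum_nonneg fun b _ => sq_nonneg _
  have hT0 : 0 ≤ T := Finset.sum_nonneg fun b _ => sq_nonneg _
  have hd0 : 0 ≤ d := Nat.cast_nonneg _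
  have hDS : ∀ b, (D b : ℝ) ≤ S := fun b =>
    Finset.single_le_sum (f := fun b => (D b : ℝ)) (fun b _ => Nat.cast_nonneg _) (Finset.mem_univ b)
  have hdL : d ≤ p * (S * L) := by
    rw [hd]
    push_cast
    refine mul_le_mul_of_nonneg_left ?_ (by positivity)
    rw [hL, Finset.mul_sum]
    refine Finset.sum_le_sum fun b _ => ?_
    have h1 : (((ℓ b).natAbs : ℕ) : ℝ) ^ 2 = (ℓ b : ℝ) ^ 2 := by
      rw [Nat.cast_natAbs, Int.cast_abs, sq_abs]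
    rw [h1]
    exact mul_le_mul_of_nonneg_right (hDS b) (sq_nonneg _)
  have h1 : ∑ b, ((2 ^ n * D b : ℕ) : ℝ) * h b ≤
      2 * p * C₁ * (S * T) + ∑ b, ((2 ^ n * D b : ℕ) : ℝ) * (C₁ * (2 * (ℓ b : ℝ) ^ 2 * (J : ℝ) ^ 2 + 1)) := by
    rw [hT, Finset.mul_sum, Finset.mul_sum, ← Finset.sum_add_distrib]
    refine Finset.sum_le_sum fun b _ => ?_
    have hjJ : (j : ℝ) ^ 2 ≤ (J : ℝ) ^ 2 := by
      have : (j : ℝ) ≤ J := by exact_mod_cast hj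
      gcongr
    have h2 : h b ≤ C₁ * (2 * (r b : ℝ) ^ 2 + (2 * (ℓ b : ℝ) ^ 2 * (J : ℝ) ^ 2 + 1)) := by
      refine (hh b).trans (mul_le_mul_of_nonneg_left ?_ hC₁.le)
      push_cast
      have h3 : (ℓ b : ℝ) ^ 2 * (j : ℝ) ^ 2 ≤ (ℓ b : ℝ) ^ 2 * (J : ℝ) ^ 2 :=
        mul_le_mul_of_nonneg_left hjJ (sq_nonneg _)
      nlinarith [sq_nonneg ((r b : ℝ) - ℓ b * j)]
    have h3 : ((2 ^ n * D b : ℕ) : ℝ) = p * D b := by
      push_cast
      rfl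
    rw [h3]
    have h4 : 0 ≤ p * (D b : ℝ) := by positivity
    have h5 := mul_le_mul_of_nonneg_left h2 h4
    have h6 : p * (D b : ℝ) * (2 * C₁ * (r b : ℝ) ^ 2) ≤ p * S * (2 * C₁ * (r b : ℝ) ^ 2) := by
      refine mul_le_mul_of_nonneg_right ?_ (by positivity)
      exact mul_le_mul_of_nonneg_left (hDS b) (by positivity)
    nlinarith
  have h2 : (1 + 2 * d) * (2 * p * C₁ * (S * T)) ≤ 16 * 4 ^ n * (1 + S) ^ 2 * C₁ * (1 + L) * T := by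
    rw [h4]
    have h3 : 1 + 2 * d ≤ 2 * p * ((1 + S) * (1 + L)) := by
      have h5 : p * (1 + S + L) ≥ 1 * (1 + S + L) := mul_le_mul_of_nonneg_right hp1 (by positivity)
      nlinarith
    have h5 : S ≤ 1 + S := by linarith
    calc (1 + 2 * d) * (2 * p * C₁ * (S * T)) ≤ (2 * p * ((1 + S) * (1 + L))) * (2 * p * C₁ * ((1 + S) * T)) := by
          gcongr
      _ = 4 * (p * p) * (1 + S) ^ 2 * C₁ * (1 + L) * T := by ring
      _ ≤ 16 * (p * p) * (1 + S) ^ 2 * C₁ * (1 + L) * T := by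
          gcongr
          norm_num
  calc (1 + 2 * d) * ∑ b, ((2 ^ n * D b : ℕ) : ℝ) * h b
      ≤ (1 + 2 * d) * (2 * p * C₁ * (S * T) +
          ∑ b, ((2 ^ n * D b : ℕ) : ℝ) * (C₁ * (2 * (ℓ b : ℝ) ^ 2 * (J : ℝ) ^ 2 + 1))) :=
        mul_le_mul_of_nonneg_left h1 (by positivity)
    _ = (1 + 2 * d) * (2 * p * C₁ * (S * T)) + (1 + 2 * d) *
          ∑ b, ((2 ^ n * D b : ℕ) : ℝ) * (C₁ * (2 * (ℓ b : ℝ) ^ 2 * (J : ℝ) ^ 2 + 1)) := by ring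
    _ ≤ _ := add_le_add_left h2 _

/-- Multiples of a point of infinite order. -/
theorem N3_card {A : Type*} [AddCommGroup A] [DecidableEq A] (R₀ : A) (hR₀ : ∀ N : ℕ, 0 < N → N • R₀ ≠ 0)
    (μ : ℤ) (J : ℕ) : J < ((Finset.range (J + 1)).image fun j : ℕ => (μ - (j : ℤ)) • R₀).card := by
  rw [Finset.card_image_of_injective, Finset.card_range]
  · exact Nat.lt_succ_self J
  · have key : ∀ a b : ℕ, a < b → (μ - (a : ℤ)) • R₀ = (μ - (b : ℤ)) • R₀ → False := by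
      intro a b hab h
      apply hR₀ (b - a) (by omega)
      have h1 : ((b - a : ℕ) : ℤ) • R₀ = (μ - (a : ℤ)) • R₀ - (μ - (b : ℤ)) • R₀ := by
        rw [← sub_smul]
        congr 1
        push_cast [Nat.cast_sub hab.le]
        ring
      rw [h, sub_self, natCast_zsmul] at h1
      exact h1
    intro a b h
    rcases lt_trichotomy a b with h1 | h1 | h1
    · exact (key a b h1 h).elim
    · exact h1
    · exact (key b a h1 h.symm).elim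

/-- The bound in a given direction, with the shift built in. Let `R₀` be a point of infinite order
with height growth constants `C₁` (upper bound) for the finite set `T`. For every `ℓ` there are a
nonzero form `R` and a constant `C` such that for all integers `m i = ℓ i * μ + r i`, all
`t i ∈ T` and `P i = m i • R₀ + t i` with `R(x(P)) ≠ 0` the defect at `x(P)` is at most
`A * (1 + ∑ (ℓ b)^2) * ∑ (r b)^2 + C * (1 + max |r|)`, with `A` depending only on `n`, `D`, `C₁`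
(here in the form: `A = 16 * 4^n * (1 + ∑ D)^2 * C₁` is enough).

Proof. Take `R`, `E`, `C'` from `exists_defect_le` and `J` from `exists_shift` (for `R`, `ℓ`). Let
`s = {(μ - j) • R₀ : j = 0, .., J}`; it has `J + 1` elements as `R₀` has infinite order. Choose `j` with
`R(x(P - ℓ Q)) ≠ 0`, `Q = (μ - j) • R₀`. Then `q b = P b - ℓ b • Q = (r b + ℓ b j) • R₀ + t b` and
`P b = ℓ b • Q + q b`, so the defect is at most
`(1 + 2 d) ∑ 2^n D b C₁ ((r b + ℓ b j)^2 + 1) + C'`, `d = 2^n ∑ D b ℓ b^2`, and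
`(r b + ℓ b j)^2 + 1 ≤ 2 (r b)^2 + (2 ℓ b^2 J^2 + 1)`. The part with `(r b)^2` is at most
`2 * 2^n * C₁ * (∑ D) * (1 + 2 * 2^n * (∑ D) * ∑ ℓ^2) * ∑ (r b)^2`, the rest depends on `ℓ` only. -/
theorem direction_bound {K : Type u} [Field K] [DecidableEq K] [AdmissibleAbsValues K]
    [CharZero K] (W : WeierstrassCurve K) [W.IsElliptic] (n : ℕ) (f g : MvPolynomial (Fin n) K)
    (hfg : IsRelPrime f g) (D : Fin n → ℕ)
    (hD : ∀ i, D i = max (f.degreeOf i) (g.degreeOf i)) (R₀ : W.toAffine.Point)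
    (hR₀ : ∀ N : ℕ, 0 < N → N • R₀ ≠ 0) (T : Finset W.toAffine.Point) (C₁ : ℝ) (hC₁ : 0 < C₁)
    (hgrow : ∀ m : ℤ, ∀ t ∈ T, logHeight (m • R₀ + t).xRep ≤ C₁ * ((m : ℝ) ^ 2 + 1))
    (ℓ : Fin n → ℤ) :
    ∃ (R : MvPolynomial (Fin n × Fin 2) K) (E : Fin n → ℕ) (C : ℝ), MH R E ∧ R ≠ 0 ∧
      ∀ (r : Fin n → ℤ) (μ : ℤ) (t : Fin n → W.toAffine.Point), (∀ i, t i ∈ T) →
        evl (fun b => ((ℓ b * μ + r b) • R₀ + t b).xRep) R ≠ 0 →
          ∑ b, (D b : ℝ) * logHeight ((ℓ b * μ + r b) • R₀ + t b).xRep -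
              logHeight ![evl (fun b => ((ℓ b * μ + r b) • R₀ + t b).xRep) (hom f D),
                evl (fun b => ((ℓ b * μ + r b) • R₀ + t b).xRep) (hom g D)] ≤
            16 * 4 ^ n * (1 + ∑ b, (D b : ℝ)) ^ 2 * C₁ * (1 + ∑ b, (ℓ b : ℝ) ^ 2) *
              ∑ b, (r b : ℝ) ^ 2 + C := by
  obtain ⟨R, E, C', hMH, hR, hdef⟩ := exists_defect_le W n f g hfg D hD ℓ
  obtain ⟨J, hJ⟩ := exists_shift W E ℓ R hMH
  refine ⟨R, E, (1 + 2 * ((2 ^ n * ∑ b, D b * (ℓ b).natAbs ^ 2 : ℕ) : ℝ)) *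
        ∑ b, ((2 ^ n * D b : ℕ) : ℝ) * (C₁ * (2 * (ℓ b : ℝ) ^ 2 * (J : ℝ) ^ 2 + 1)) + C', hMH, hR, ?_⟩
  intro r μ t ht hne
  classical
  obtain ⟨Q, hQs, hQ⟩ := hJ (fun b => (ℓ b * μ + r b) • R₀ + t b) hne _ (N3_card R₀ hR₀ μ J)
  rw [Finset.mem_image] at hQs
  obtain ⟨j, hj, rfl⟩ := hQs
  rw [Finset.mem_range] at hj
  have h1 := hdef ((μ - (j : ℤ)) • R₀) (fun b => (ℓ b * μ + r b) • R₀ + t b - ℓ b • (μ - (j : ℤ)) • R₀) hQ
  have h2 : ∀ b, ℓ b • (μ - (j : ℤ)) • R₀ + ((ℓ b * μ + r b) • R₀ + t b - ℓ b • (μ - (j : ℤ)) • R₀) =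
      (ℓ b * μ + r b) • R₀ + t b := fun b => by abel
  simp only [h2] at h1
  refine h1.trans ?_
  have h3 := N3_arith D ℓ r J j (by omega) C₁ hC₁
    (fun b => logHeight ((ℓ b * μ + r b) • R₀ + t b - ℓ b • (μ - (j : ℤ)) • R₀).xRep) (fun b => by
      have h4 : (ℓ b * μ + r b) • R₀ + t b - ℓ b • (μ - (j : ℤ)) • R₀ = (r b + ℓ b * j) • R₀ + t b := by
        rw [← mul_smul, add_smul, add_smul, mul_sub, sub_smul]
        abel
      simp only [h4]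
      exact hgrow _ _ (ht b))
  linarith

end Pool.Agent.Lib.MP_17a322_nt.RO
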