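import Pool.Agent.Lib.MP_17a322_nt.RO.A3
import Pool.Agent.Lib.MP_17a322_nt.RO.N1
import Pool.Agent.Lib.MP_17a322_nt.RO.N2
import Pool.Agent.Lib.MP_17a322_nt.RO.N3
import Pool.Agent.Lib.MP_17a322_nt.RO.G3

/-!
The main theorem.
-/

namespace Pool.Agent.Lib.MP_17a322_nt.RO

open MvPolynomial WeierstrassCurve Height

universe u

/-- Main theorem.
Proof. Let `R₀`, `T` be as in `hE` and apply `height_growth`.
If `R₀` is torsion, the group is finite (`P = m R₀ + t`), hence there are finitely many `x : Fin n → K`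
as in the statement, and `G = 1` and a large `C` work.
Otherwise let `c, C₁` be the growth constants and `D i = max ..`. Given `ε` choose `N ≥ 1` with
`A' / N^2 ≤ ε c`, where `A' = 2 n (1 + n) * 16 * 4^n * (1 + ∑ D)^2 * C₁`. For every `ℓ` with
`|ℓ i| ≤ N^n` (a finite set, e.g. `Fintype.piFinset (fun _ => Finset.Icc (-(N^n)) (N^n))`) take
`R_ℓ`, `C_ℓ` from `direction_bound` and its dehomogenisation `G_ℓ` (`exists_dehom`); `G = ∏ G_ℓ`.
Let `x`, `y` be as in the statement with `G(x) ≠ 0`, `P_i` the point `(x_i, y_i)`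
(`Point.some`, nonsingular by `equation_iff_nonsingular`), `P_i = m_i R₀ + t_i`, `M = max |m_i|`,
and `ℓ, r, μ` from `exists_direction`. All `G_ℓ(x) ≠ 0`. As `x(P_i) = (x_i, 1)` the values of
`hom f D`, `hom g D` are those of `f`, `g` (`evl_hom_one`), `logHeight ![x, 1] = logHeight₁ x`, so the
defect is at most `A (1 + ∑ ℓ^2) ∑ r^2 + C_ℓ`, and `(1 + ∑_b ℓ_b^2) ∑_j r_j^2 ≤
(1 + n) n (M/N + N^(2n))^2 ≤ 2 n (1 + n) (M^2/N^2 + N^(4n))`. On the other hand
`∑ logHeight₁ (x_i) ≥ ∑ (c m_i^2 - C₁) ≥ c M^2 - n C₁`. Take `C` the maximum over `ℓ`. -/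
theorem main {K : Type u} [Field K] [NumberField K] [DecidableEq K] (W : WeierstrassCurve K)
    [W.IsElliptic]
    (hE : ∃ (R : W.toAffine.Point) (T : Finset W.toAffine.Point),
      ∀ P : W.toAffine.Point, ∃ m : ℤ, P - m • R ∈ T)
    (n : ℕ) (f g : MvPolynomial (Fin n) K) (hfg : IsRelPrime f g) (ε : ℝ) (hε : 0 < ε) :
    ∃ G : MvPolynomial (Fin n) K, G ≠ 0 ∧ ∃ C : ℝ, ∀ x y : Fin n → K,
      (∀ i, W.toAffine.Equation (x i) (y i)) → eval x G ≠ 0 →
        ∑ i, ((max (f.degreeOf i) (g.degreeOf i) : ℕ) : ℝ) * logHeight₁ (x i) -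
            logHeight ![eval x f, eval x g] ≤
          ε * ∑ i, logHeight₁ (x i) + C := by
  classical
  obtain ⟨R₀, T, hT⟩ := hE
  have hpt : ∀ (x y : Fin n → K), (∀ i, W.toAffine.Equation (x i) (y i)) →
      ∃ P : Fin n → W.toAffine.Point, ∀ i, (P i).xRep = ![x i, 1] := by
    intro x y hxy
    exact ⟨fun i => WeierstrassCurve.Affine.Point.some (x i) (y i)
      (WeierstrassCurve.Affine.equation_iff_nonsingular.mp (hxy i)), fun i => rfl⟩
  by_cases htor : ∃ N : ℕ, 0 < N ∧ N • R₀ = 0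
  · -- the group is finite
    obtain ⟨N₀, hN₀, hN⟩ := htor
    have hfin : Finite W.toAffine.Point := by
      have hsurj : Function.Surjective (fun p : Fin N₀ × T => (p.1 : ℕ) • R₀ + p.2.1) := by
        intro P
        obtain ⟨m, hm⟩ := hT P
        have hN0 : (N₀ : ℤ) ≠ 0 := by exact_mod_cast hN₀.ne'
        have h1 : 0 ≤ m % N₀ := Int.emod_nonneg _ hN0
        have h2 : m % N₀ < N₀ := Int.emod_lt_of_pos _ (by exact_mod_cast hN₀)
        refine ⟨(⟨(m % N₀).toNat, by omega⟩, ⟨P - m • R₀, hm⟩), ?_⟩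
        have h3 : ((m % N₀).toNat : ℕ) • R₀ = m • R₀ := by
          rw [← natCast_zsmul, Int.toNat_of_nonneg h1]
          conv_rhs => rw [← Int.emod_add_mul_ediv m N₀]
          rw [add_zsmul, mul_zsmul', ]
          have : ((N₀ : ℕ) : ℤ) • R₀ = 0 := by rw [natCast_zsmul, hN]
          rw [this, zsmul_zero, add_zero]
        simp only [h3]
        abel
      exact Finite.of_surjective _ hsurj
    set Φ : (Fin n → W.toAffine.Point) → ℝ := fun P =>
      ∑ i, ((max (f.degreeOf i) (g.degreeOf i) : ℕ) : ℝ) * logHeight₁ ((P i).xRep 0) -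
            logHeight ![eval (fun i => (P i).xRep 0) f, eval (fun i => (P i).xRep 0) g] -
          ε * ∑ i, logHeight₁ ((P i).xRep 0) with hΦ
    obtain ⟨C, hC⟩ := (Set.finite_range Φ).bddAbove
    refine ⟨1, one_ne_zero, C, ?_⟩
    intro x y hxy _
    obtain ⟨P, hP⟩ := hpt x y hxy
    have hx : ∀ i, (P i).xRep 0 = x i := fun i => by rw [hP i]; rfl
    have := hC ⟨P, rfl⟩
    simp only [hΦ, hx] at this
    linarith
  · have hR₀ : ∀ N : ℕ, 0 < N → N • R₀ ≠ 0 := fun N hN h => htor ⟨N, hN, h⟩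
    rcases height_growth W R₀ T with h | ⟨c, C₁, hc, hC₁, hgrow⟩
    · exact absurd h htor
    set D : Fin n → ℕ := fun i => max (f.degreeOf i) (g.degreeOf i) with hDdef
    set A : ℝ := 16 * 4 ^ n * (1 + ∑ b, (D b : ℝ)) ^ 2 * C₁ with hA
    have hA0 : 0 ≤ A := by positivity
    set A' : ℝ := A * (2 * (n * (1 + n))) with hA'
    have hA'0 : 0 ≤ A' := by positivity
    obtain ⟨N, hN1, hNA⟩ : ∃ N : ℕ, 0 < N ∧ A' ≤ ε * c * (N : ℝ) ^ 2 := by
      obtain ⟨N, hN⟩ := exists_nat_gt (A' / (ε * c) + 1)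
      have hec : 0 < ε * c := mul_pos hε hc
      have h0 : 0 ≤ A' / (ε * c) := by positivity
      have h1 : (1 : ℝ) < N := by linarith
      refine ⟨N, by exact_mod_cast (by linarith : (0 : ℝ) < N), ?_⟩
      have h2 : A' / (ε * c) ≤ (N : ℝ) ^ 2 := by nlinarith
      rw [div_le_iff₀ hec] at h2
      linarith
    have hdb := direction_bound W n f g hfg D (fun i => rfl) R₀ hR₀ T C₁ hC₁
      (fun m t ht => (hgrow m t ht).2)
    choose Rf Ef Cf hMH hne hbd using hdb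
    have hdh := fun ℓ => exists_dehom (Ef ℓ) (Rf ℓ) (hMH ℓ) (hne ℓ)
    choose Gf hGne hGev using hdh
    set S : Finset (Fin n → ℤ) :=
      Fintype.piFinset (fun _ => Finset.Icc (-((N : ℤ) ^ n)) ((N : ℤ) ^ n)) with hS
    refine ⟨∏ ℓ ∈ S, Gf ℓ, Finset.prod_ne_zero_iff.mpr (fun ℓ _ => hGne ℓ),
      ε * C₁ + A' * (N : ℝ) ^ (4 * n) + ∑ ℓ ∈ S, |Cf ℓ|, ?_⟩
    intro x y hxy hG
    obtain ⟨P, hP⟩ := hpt x y hxy
    choose m hm using fun i => hT (P i)
    set M : ℕ := Finset.univ.sup (fun i => (m i).natAbs) with hM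
    have hmM : ∀ i, |m i| ≤ (M : ℤ) := by
      intro i
      have : (m i).natAbs ≤ M := Finset.le_sup (f := fun i => (m i).natAbs) (Finset.mem_univ i)
      rw [Int.abs_eq_natAbs]
      exact_mod_cast this
    obtain ⟨ℓ, r, μ, hmu, hℓ, hlr, hr⟩ := exists_direction n N hN1 m M hmM
    have hℓS : ℓ ∈ S := by
      rw [hS, Fintype.mem_piFinset]
      intro i
      rw [Finset.mem_Icc]
      exact abs_le.mp (hℓ i)
    have hGℓ : eval x (Gf ℓ) ≠ 0 := by
      rw [eval_prod] at hG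
      exact (Finset.prod_ne_zero_iff.mp hG) ℓ hℓS
    have hPm : ∀ i, P i = (ℓ i * μ + r i) • R₀ + (P i - m i • R₀) := by
      intro i
      rw [← hmu i]
      abel
    have hRℓ : evl (fun b => ((ℓ b * μ + r b) • R₀ + (P b - m b • R₀)).xRep) (Rf ℓ) ≠ 0 := by
      have h1 : (fun b => ((ℓ b * μ + r b) • R₀ + (P b - m b • R₀)).xRep) =
          fun b => ![x b, 1] := by
        funext b
        rw [← hPm b, hP b]
      rw [h1, ← hGev ℓ x]
      exact hGℓ
    have hmain := hbd ℓ r μ (fun b => P b - m b • R₀) hm hRℓ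
    have hx1 : (fun b => ((ℓ b * μ + r b) • R₀ + (P b - m b • R₀)).xRep) =
          fun b => ![x b, 1] := by
        funext b
        rw [← hPm b, hP b]
    have haev : ∀ p : MvPolynomial (Fin n) K, aeval x p = eval x p := fun p =>
      DFunLike.congr_fun (MvPolynomial.coe_aeval_eq_eval x) p
    rw [hx1, evl_hom_one, evl_hom_one, haev f, haev g] at hmain
    have hx2 : ∑ b, (D b : ℝ) * logHeight ((ℓ b * μ + r b) • R₀ + (P b - m b • R₀)).xRep =
        ∑ b, (D b : ℝ) * logHeight₁ (x b) := by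
      refine Finset.sum_congr rfl fun b _ => ?_
      rw [← hPm b, hP b, logHeight₁_eq_logHeight]
    rw [hx2] at hmain
    -- the quadratic sum
    have hMN : 0 ≤ (M : ℝ) / N + (N : ℝ) ^ (2 * n) := by positivity
    have hsum : (1 + ∑ b, (ℓ b : ℝ) ^ 2) * ∑ b, (r b : ℝ) ^ 2 ≤
        n * (1 + n) * ((M : ℝ) / N + (N : ℝ) ^ (2 * n)) ^ 2 := by
      have h1 : ∀ j, (r j : ℝ) ^ 2 ≤ ((M : ℝ) / N + (N : ℝ) ^ (2 * n)) ^ 2 := by
        intro j
        rw [← sq_abs (r j : ℝ)]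
        exact pow_le_pow_left₀ (abs_nonneg _) (hr j) 2
      have h2 : ∀ i j, (ℓ i : ℝ) ^ 2 * (r j : ℝ) ^ 2 ≤
          ((M : ℝ) / N + (N : ℝ) ^ (2 * n)) ^ 2 := by
        intro i j
        rw [← sq_abs (r j : ℝ), ← sq_abs (ℓ i : ℝ), ← mul_pow]
        exact pow_le_pow_left₀ (by positivity) (hlr i j) 2
      have h3 : (1 + ∑ b, (ℓ b : ℝ) ^ 2) * ∑ b, (r b : ℝ) ^ 2 =
          ∑ j, ((r j : ℝ) ^ 2 + ∑ i, (ℓ i : ℝ) ^ 2 * (r j : ℝ) ^ 2) := by
        rw [Finset.mul_sum]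
        refine Finset.sum_congr rfl fun j _ => ?_
        rw [add_mul, one_mul, Finset.sum_mul]
      rw [h3]
      calc ∑ j, ((r j : ℝ) ^ 2 + ∑ i, (ℓ i : ℝ) ^ 2 * (r j : ℝ) ^ 2)
          ≤ ∑ _j : Fin n, (((M : ℝ) / N + (N : ℝ) ^ (2 * n)) ^ 2 +
            ∑ _i : Fin n, ((M : ℝ) / N + (N : ℝ) ^ (2 * n)) ^ 2) := by
            refine Finset.sum_le_sum fun j _ => ?_
            exact add_le_add (h1 j) (Finset.sum_le_sum fun i _ => h2 i j)
        _ = n * (1 + n) * ((M : ℝ) / N + (N : ℝ) ^ (2 * n)) ^ 2 := by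
            simp only [Finset.sum_const, Finset.card_univ, Fintype.card_fin, nsmul_eq_mul]
            ring
    have hsq : ((M : ℝ) / N + (N : ℝ) ^ (2 * n)) ^ 2 ≤
        2 * ((M : ℝ) ^ 2 / (N : ℝ) ^ 2 + (N : ℝ) ^ (4 * n)) := by
      have e1 : ((M : ℝ) / N) ^ 2 = (M : ℝ) ^ 2 / (N : ℝ) ^ 2 := by rw [div_pow]
      have e2 : ((N : ℝ) ^ (2 * n)) ^ 2 = (N : ℝ) ^ (4 * n) := by
        rw [← pow_mul]; congr 1; ring
      rw [← e1, ← e2]
      nlinarith [sq_nonneg ((M : ℝ) / N - (N : ℝ) ^ (2 * n))]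
    have hNpos : (0 : ℝ) < (N : ℝ) ^ 2 := by positivity
    have hAbd : A * (1 + ∑ b, (ℓ b : ℝ) ^ 2) * ∑ b, (r b : ℝ) ^ 2 ≤
        ε * c * (M : ℝ) ^ 2 + A' * (N : ℝ) ^ (4 * n) := by
      calc A * (1 + ∑ b, (ℓ b : ℝ) ^ 2) * ∑ b, (r b : ℝ) ^ 2
          = A * ((1 + ∑ b, (ℓ b : ℝ) ^ 2) * ∑ b, (r b : ℝ) ^ 2) := by ring
        _ ≤ A * (n * (1 + n) * (2 * ((M : ℝ) ^ 2 / (N : ℝ) ^ 2 + (N : ℝ) ^ (4 * n)))) := by
            refine mul_le_mul_of_nonneg_left (hsum.trans ?_) hA0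
            exact mul_le_mul_of_nonneg_left hsq (by positivity)
        _ = A' / (N : ℝ) ^ 2 * (M : ℝ) ^ 2 + A' * (N : ℝ) ^ (4 * n) := by
            rw [hA']; ring
        _ ≤ ε * c * (M : ℝ) ^ 2 + A' * (N : ℝ) ^ (4 * n) := by
            have : A' / (N : ℝ) ^ 2 ≤ ε * c := by
              rw [div_le_iff₀ hNpos]; exact hNA
            have := mul_le_mul_of_nonneg_right this (sq_nonneg (M : ℝ))
            linarith
    have hlow : c * (M : ℝ) ^ 2 - C₁ ≤ ∑ i, logHeight₁ (x i) := by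
      rcases Nat.eq_zero_or_pos n with hn | hn
      · subst hn
        have : M = 0 := by rw [hM]; rfl
        rw [this]
        simp only [Finset.univ_eq_empty, Finset.sum_empty]
        simp
        exact hC₁.le
      · have : Nonempty (Fin n) := ⟨⟨0, hn⟩⟩
        obtain ⟨i₀, _, hi₀⟩ := Finset.exists_mem_eq_sup Finset.univ Finset.univ_nonempty
          (fun i => (m i).natAbs)
        have h1 : ((m i₀ : ℤ) : ℝ) ^ 2 = (M : ℝ) ^ 2 := by
          rw [hM, hi₀]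
          rw [← sq_abs ((m i₀ : ℤ) : ℝ)]
          congr 1
          rw [← Int.cast_abs, Int.abs_eq_natAbs]
          simp
        have h2 := (hgrow (m i₀) (P i₀ - m i₀ • R₀) (hm i₀)).1
        have h3 : m i₀ • R₀ + (P i₀ - m i₀ • R₀) = P i₀ := by abel
        rw [h3, hP i₀, ← logHeight₁_eq_logHeight, h1] at h2
        refine h2.trans ?_
        exact Finset.single_le_sum (f := fun i => logHeight₁ (x i))
          (fun i _ => zero_le_logHeight₁ _) (Finset.mem_univ i₀)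
    have hCf : Cf ℓ ≤ ∑ ℓ ∈ S, |Cf ℓ| :=
      (le_abs_self _).trans (Finset.single_le_sum (f := fun ℓ => |Cf ℓ|)
        (fun _ _ => abs_nonneg _) hℓS)
    have hfin : ε * (c * (M : ℝ) ^ 2) ≤ ε * (∑ i, logHeight₁ (x i) + C₁) :=
      mul_le_mul_of_nonneg_left (by linarith) hε.le
    have hgoal := hmain.trans (add_le_add hAbd le_rfl)
    have : ∑ b, (D b : ℝ) * logHeight₁ (x b) - logHeight ![eval x f, eval x g] ≤
        ε * ∑ i, logHeight₁ (x i) + (ε * C₁ + A' * (N : ℝ) ^ (4 * n) + ∑ ℓ ∈ S, |Cf ℓ|) := by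
      linarith
    exact this

end Pool.Agent.Lib.MP_17a322_nt.RO
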